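import Mathlib

/-!
# Row C2: independence for uniform coins

PROOF.  Induction on `F`; one coordinate `e` at a time: if `Y` does not depend on the coordinate
`e` then `#{c : Y c ∧ c e ∈ T} * Q = #{c : Y c} * #T` (e.g. the map
`(c, t) ↦ (Function.update c e t, c e)` or `Equiv.funSplitAt`).
-/

namespace Pool.Agent.Lib.MP_e8016c_th

open Finset

open Classical in
theorem coins_one {E : Type*} [Fintype E] [DecidableEq E] {Q : ℕ} (Y : (E → Fin Q) → Prop) (e : E)
    (hY : ∀ (c : E → Fin Q) (t : Fin Q), Y c → Y (Function.update c e t)) (T : Finset (Fin Q)) :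
    (univ.filter (fun c : E → Fin Q => Y c ∧ c e ∈ T)).card * Q =
      (univ.filter (fun c : E → Fin Q => Y c)).card * T.card := by
  have h : ((univ.filter (fun c : E → Fin Q => Y c ∧ c e ∈ T)) ×ˢ
      (univ : Finset (Fin Q))).card =
      ((univ.filter (fun c : E → Fin Q => Y c)) ×ˢ T).card := by
    refine Finset.card_nbij' (fun q => (Function.update q.1 e q.2, q.1 e))
      (fun q => (Function.update q.1 e q.2, q.1 e)) ?_ ?_ ?_ ?_
    · intro q hq
      rw [mem_coe, mem_product, mem_filter] at hq
      rw [mem_coe, mem_product, mem_filter]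
      exact ⟨⟨mem_univ _, hY _ _ hq.1.2.1⟩, hq.1.2.2⟩
    · intro q hq
      rw [mem_coe, mem_product, mem_filter] at hq
      rw [mem_coe, mem_product, mem_filter]
      refine ⟨⟨mem_univ _, hY _ _ hq.1.2, ?_⟩, mem_univ _⟩
      change Function.update q.1 e q.2 e ∈ T
      rw [Function.update_self]
      exact hq.2
    · intro q _
      refine Prod.ext ?_ ?_
      · change Function.update (Function.update q.1 e q.2) e (q.1 e) = q.1
        rw [Function.update_idem, Function.update_eq_self]
      · change Function.update q.1 e q.2 e = q.2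
        rw [Function.update_self]
    · intro q _
      refine Prod.ext ?_ ?_
      · change Function.update (Function.update q.1 e q.2) e (q.1 e) = q.1
        rw [Function.update_idem, Function.update_eq_self]
      · change Function.update q.1 e q.2 e = q.2
        rw [Function.update_self]
  rw [card_product, card_product, card_univ, Fintype.card_fin] at h
  exact h

open Classical in
theorem coins_indep {E : Type*} [Fintype E] [DecidableEq E] {Q : ℕ} (X : (E → Fin Q) → Prop)
    (F : Finset E) (hX : ∀ c c' : E → Fin Q, (∀ e, e ∉ F → c e = c' e) → (X c ↔ X c'))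
    (T : Finset (Fin Q)) :
    (univ.filter (fun c : E → Fin Q => X c ∧ ∀ e ∈ F, c e ∈ T)).card * Q ^ F.card =
      (univ.filter (fun c : E → Fin Q => X c)).card * T.card ^ F.card := by
  induction F using Finset.induction_on with
  | empty => simp
  | insert e F he ih =>
    have ih' := ih (fun c c' h => hX c c' (fun e' he' => h e' (fun h' => he' (mem_insert_of_mem h'))))
    have hY : ∀ (c : E → Fin Q) (t : Fin Q), (X c ∧ ∀ e' ∈ F, c e' ∈ T) →
        (X (Function.update c e t) ∧ ∀ e' ∈ F, Function.update c e t e' ∈ T) := by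
      rintro c t ⟨h2, h3⟩
      refine ⟨(hX c _ ?_).1 h2, ?_⟩
      · intro e' he'
        have h4 : e' ≠ e := fun h => he' (h ▸ mem_insert_self e F)
        rw [Function.update_of_ne h4]
      · intro e' he'
        have h4 : e' ≠ e := fun h => he (h ▸ he')
        rw [Function.update_of_ne h4]
        exact h3 e' he'
    have h1 : (univ.filter (fun c : E → Fin Q => (X c ∧ ∀ e' ∈ F, c e' ∈ T) ∧ c e ∈ T)).card * Q =
        (univ.filter (fun c : E → Fin Q => X c ∧ ∀ e' ∈ F, c e' ∈ T)).card * T.card := by
      have := coins_one (fun c : E → Fin Q => X c ∧ ∀ e' ∈ F, c e' ∈ T) e hY T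
      convert this
    have h2 : univ.filter (fun c : E → Fin Q => X c ∧ ∀ e' ∈ insert e F, c e' ∈ T) =
        univ.filter (fun c : E → Fin Q => (X c ∧ ∀ e' ∈ F, c e' ∈ T) ∧ c e ∈ T) := by
      ext c
      simp only [mem_filter, mem_univ, true_and, mem_insert, forall_eq_or_imp]
      tauto
    rw [h2, card_insert_of_notMem he, pow_succ', pow_succ', ← mul_assoc, h1,
      mul_right_comm, ih']
    ring

end Pool.Agent.Lib.MP_e8016c_th
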