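import Mathlib

/-!
# Definitions for `g(k) = Θ(k²)` (problem MP_e8016c)

Label graphs.  `Γ` is a graph on a set `Λ` of labels; two labels are *near* if they are equal or
adjacent, and *close* if they are at distance at most two.  A set `L` of labels is *good* if it is
a disjoint union of clusters such that labels in the same cluster are close and labels in different
clusters are not near.
-/

namespace Pool.Agent.Lib.MP_e8016c_th

open Finset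

/-- Equal or adjacent. -/
def Near {Λ : Type*} (Γ : SimpleGraph Λ) (x y : Λ) : Prop := x = y ∨ Γ.Adj x y

/-- At distance at most two. -/
def Close {Λ : Type*} (Γ : SimpleGraph Λ) (x y : Λ) : Prop := ∃ z, Near Γ z x ∧ Near Γ z y

/-- Disjoint union of clusters: `E` is an equivalence relation on `L`, equivalent labels are close,
non-equivalent labels are not near. -/
def Good {Λ : Type*} (Γ : SimpleGraph Λ) (L : Finset Λ) : Prop :=
  ∃ E : Λ → Λ → Prop, (∀ x ∈ L, E x x) ∧ (∀ x ∈ L, ∀ y ∈ L, E x y → E y x) ∧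
    (∀ x ∈ L, ∀ y ∈ L, ∀ z ∈ L, E x y → E y z → E x z) ∧
    (∀ x ∈ L, ∀ y ∈ L, E x y → Close Γ x y) ∧ (∀ x ∈ L, ∀ y ∈ L, ¬ E x y → ¬ Near Γ x y)

/-- `S` cannot be cut in `C`: every nonempty proper subset of `S` has a `C`-edge to the rest. -/
def ConnIn {V : Type*} [DecidableEq V] (C : SimpleGraph V) (S : Finset V) : Prop :=
  ∀ T ⊆ S, T.Nonempty → T ≠ S → ∃ t ∈ T, ∃ s ∈ S \ T, C.Adj t s

/-- `v` can be reached from `u` by a `B`-walk of length at most `m`. -/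
def Dle {V : Type*} (B : SimpleGraph V) : ℕ → V → V → Prop
  | 0, u, v => u = v
  | m + 1, u, v => u = v ∨ ∃ w, B.Adj u w ∧ Dle B m w v

/-- A linear triple system with `3` classes of `2 ^ n` hubs; `φ p i` is the hub of class `i` of the
label `p`. -/
structure LinSys (n : ℕ) where
  φ : (Fin (2 ^ n) × Fin (2 ^ n)) → Fin 3 → Fin (2 ^ n)
  Λ : Finset (Fin (2 ^ n) × Fin (2 ^ n))
  card_Λ : 4 ^ n ≤ 2 ^ 6 * Λ.card
  /-- two labels share at most one hub -/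
  lin : ∀ p ∈ Λ, ∀ p' ∈ Λ, p ≠ p' → ∀ i j, i ≠ j → φ p i = φ p' i → φ p j ≠ φ p' j
  /-- small sets of labels are sparse -/
  small : ∀ h, 1 ≤ h → h ≤ 100 * n ^ 3 → ∀ J ⊆ Λ,
    (∀ i, (J.image (fun p => φ p i)).card ≤ h) → J.card < 4 * h
  /-- sets of labels in few stars are sparse -/
  few : ∀ i, ∀ q h, 1 ≤ q → q ≤ 4 * n → n * q ≤ h → 100 * n ^ 3 ≤ h → 4 * q ^ 2 * h ≤ 2 ^ n →
    ∀ J ⊆ Λ, (J.image (fun p => φ p i)).card ≤ q →
      (∀ j, j ≠ i → (J.image (fun p => φ p j)).card ≤ h) → J.card < 4 * h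

/-- A linear triple system together with a sparse random-like relation `G` on the hubs which
contains all pairs of hubs of the labels. -/
structure LabSys (n : ℕ) where
  φ : (Fin (2 ^ n) × Fin (2 ^ n)) → Fin 3 → Fin (2 ^ n)
  Λ : Finset (Fin (2 ^ n) × Fin (2 ^ n))
  G : Fin 3 × Fin (2 ^ n) → Fin 3 × Fin (2 ^ n) → Prop
  symmG : ∀ x y, G x y → G y x
  card_Λ : 4 ^ n ≤ 2 ^ 79 * Λ.card
  edge : ∀ p ∈ Λ, ∀ i j, i ≠ j → G (i, φ p i) (j, φ p j)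
  lin : ∀ p ∈ Λ, ∀ p' ∈ Λ, p ≠ p' → ∀ i j, i ≠ j → φ p i = φ p' i → φ p j ≠ φ p' j
  small : ∀ h, 1 ≤ h → h ≤ 100 * n ^ 3 → ∀ J ⊆ Λ,
    (∀ i, (J.image (fun p => φ p i)).card ≤ h) → J.card < 4 * h
  few : ∀ i, ∀ q h, 1 ≤ q → q ≤ 4 * n → n * q ≤ h → 100 * n ^ 3 ≤ h → 4 * q ^ 2 * h ≤ 2 ^ n →
    ∀ J ⊆ Λ, (J.image (fun p => φ p i)).card ≤ q →
      (∀ j, j ≠ i → (J.image (fun p => φ p j)).card ≤ h) → J.card < 4 * h
  /-- pairwise hub-disjoint and pairwise `G`-close labels are few -/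
  mat : ∀ J ⊆ Λ, (∀ p ∈ J, ∀ p' ∈ J, p ≠ p' → ∀ i, φ p i ≠ φ p' i) →
    (∀ p ∈ J, ∀ p' ∈ J, p ≠ p' → ∃ i j, i ≠ j ∧ G (i, φ p i) (j, φ p' j)) → J.card ≤ 4 * n
  /-- two large partial stars of the same class are not completely `G`-close through their other
  hubs -/
  two : ∀ i a a', ∀ F ⊆ Λ, ∀ F' ⊆ Λ, (∀ p ∈ F, φ p i = a) → (∀ p ∈ F', φ p i = a') →
    (∀ p ∈ F, ∀ p' ∈ F', ∃ j l, j ≠ i ∧ l ≠ i ∧ j ≠ l ∧ G (j, φ p j) (l, φ p' l)) →
    F.card ≤ 4 * n ∨ F'.card ≤ 4 * n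
  /-- few labels of a star are attached to each of `q` given hubs of the same class -/
  att : ∀ i a, ∀ O : Finset (Fin (2 ^ n)), 1 ≤ O.card → O.card ≤ 4 * n → ∀ F ⊆ Λ,
    (∀ p ∈ F, φ p i = a) → (∀ p ∈ F, ∀ o ∈ O, ∃ j, j ≠ i ∧ G (j, φ p j) (i, o)) →
    F.card ≤ 3 * 2 ^ (n - 10 * O.card) + 4 * n

end Pool.Agent.Lib.MP_e8016c_th
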