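import Mathlib
import Pool.Agent.Lib.MP_e8016c_th.Defs

/-!
# Row C3: the number of connected sets of size `j` through a given vertex
-/

namespace Pool.Agent.Lib.MP_e8016c_th

open Finset

open Classical in
/-- Candidate sets of size `j + 1` through `x`. -/
noncomputable def C3_fam {V : Type*} [Fintype V] [DecidableEq V] (C : SimpleGraph V) (x : V) :
    ℕ → Finset (Finset V)
  | 0 => {{x}}
  | j + 1 => (C3_fam C x j).biUnion fun T => T.biUnion fun t =>
      (univ.filter (fun w => C.Adj t w)).image (fun v => insert v T)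

open Classical in
theorem C3_card {V : Type*} [Fintype V] [DecidableEq V] (C : SimpleGraph V) (x : V) (j : ℕ) :
    ∀ T ∈ C3_fam C x j, T.card ≤ j + 1 := by
  induction j with
  | zero =>
    intro T hT
    rw [C3_fam, Finset.mem_singleton] at hT
    rw [hT]; simp
  | succ j ih =>
    intro T hT
    rw [C3_fam, Finset.mem_biUnion] at hT
    obtain ⟨T', hT', h⟩ := hT
    rw [Finset.mem_biUnion] at h
    obtain ⟨t, ht, h⟩ := h
    obtain ⟨v, hv, rfl⟩ := Finset.mem_image.1 h
    exact (Finset.card_insert_le _ _).trans (Nat.add_le_add_right (ih T' hT') 1)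

open Classical in
theorem C3_fam_card {V : Type*} [Fintype V] [DecidableEq V] (C : SimpleGraph V) (Δ : ℕ)
    (hΔ : ∀ v, (univ.filter (fun w => C.Adj v w)).card ≤ Δ) (x : V) (J : ℕ) (j : ℕ) (hj : j ≤ J) :
    (C3_fam C x j).card ≤ (J * Δ) ^ j := by
  induction j with
  | zero => simp [C3_fam]
  | succ j ih =>
    rw [C3_fam]
    have h1 : ∀ T ∈ C3_fam C x j, (T.biUnion fun t =>
        (univ.filter (fun w => C.Adj t w)).image (fun v => insert v T)).card ≤ J * Δ := by
      intro T hT
      have h2 : (T.biUnion fun t =>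
          (univ.filter (fun w => C.Adj t w)).image (fun v => insert v T)).card ≤ T.card * Δ :=
        Finset.card_biUnion_le_card_mul _ _ _ fun t _ => Finset.card_image_le.trans (hΔ t)
      exact h2.trans (Nat.mul_le_mul_right _ ((C3_card C x j T hT).trans hj))
    have h3 := Finset.card_biUnion_le_card_mul (C3_fam C x j) _ _ h1
    rw [pow_succ]
    exact h3.trans (Nat.mul_le_mul_right _ (ih (by omega)))

open Classical in
theorem C3_mem {V : Type*} [Fintype V] [DecidableEq V] (C : SimpleGraph V) (x : V)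
    (S : Finset V) (hx : x ∈ S) (hS : ConnIn C S) (i : ℕ) (hi : i < S.card) :
    ∃ T ⊆ S, T.card = i + 1 ∧ T ∈ C3_fam C x i := by
  induction i with
  | zero => exact ⟨{x}, Finset.singleton_subset_iff.2 hx, by simp, by simp [C3_fam]⟩
  | succ i ih =>
    obtain ⟨T, hTS, hTc, hTf⟩ := ih (by omega)
    have hne : T ≠ S := fun h => by rw [h] at hTc; omega
    have hTn : T.Nonempty := Finset.card_pos.1 (by omega)
    obtain ⟨t, ht, s, hs, hts⟩ := hS T hTS hTn hne
    rw [Finset.mem_sdiff] at hs
    refine ⟨insert s T, Finset.insert_subset hs.1 hTS, ?_, ?_⟩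
    · rw [Finset.card_insert_of_notMem hs.2, hTc]
    · rw [C3_fam, Finset.mem_biUnion]
      refine ⟨T, hTf, Finset.mem_biUnion.2 ⟨t, ht, Finset.mem_image.2 ⟨s, ?_, rfl⟩⟩⟩
      rw [Finset.mem_filter]
      exact ⟨Finset.mem_univ _, hts⟩

open Classical in
theorem card_connIn_le {V : Type*} [Fintype V] [DecidableEq V] (C : SimpleGraph V) (Δ : ℕ)
    (hΔ : ∀ v, (univ.filter (fun w => C.Adj v w)).card ≤ Δ) (x : V) (j : ℕ) (hj : 1 ≤ j) :
    ((univ : Finset (Finset V)).filter (fun S => x ∈ S ∧ S.card = j ∧ ConnIn C S)).card ≤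
      (j * Δ) ^ (j - 1) := by
  refine (Finset.card_le_card (t := C3_fam C x (j - 1)) ?_).trans
    (C3_fam_card C Δ hΔ x j (j - 1) (by omega))
  intro S hS
  rw [Finset.mem_filter] at hS
  obtain ⟨-, hx, hc, hcon⟩ := hS
  obtain ⟨T, hT, hTc, hTf⟩ := C3_mem C x S hx hcon (j - 1) (by omega)
  have : T = S := Finset.eq_of_subset_of_card_le hT (by omega)
  rwa [this] at hTf

open Classical in
/-- A nonempty set all of whose degrees are large contains a cut-connected set with the same
property: take a minimal nonempty subset closed under adjacency inside `K`. -/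
theorem exists_connIn {V : Type*} [Fintype V] [DecidableEq V] (C : SimpleGraph V) (K : Finset V)
    (hK : K.Nonempty) (d : ℕ) (hd : ∀ v ∈ K, d ≤ (K.filter (fun w => C.Adj v w)).card) :
    ∃ S ⊆ K, S.Nonempty ∧ ConnIn C S ∧ ∀ v ∈ S, d ≤ (S.filter (fun w => C.Adj v w)).card := by
  obtain ⟨S, hS, hmin⟩ := Finset.exists_min_image
    (K.powerset.filter (fun S => S.Nonempty ∧ ∀ v ∈ S, ∀ w ∈ K, C.Adj v w → w ∈ S))
    Finset.card ⟨K, by
      rw [Finset.mem_filter, Finset.mem_powerset]
      exact ⟨subset_rfl, hK, fun _ _ w hw _ => hw⟩⟩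
  rw [Finset.mem_filter, Finset.mem_powerset] at hS
  obtain ⟨hSK, hSn, hcl⟩ := hS
  refine ⟨S, hSK, hSn, ?_, ?_⟩
  · intro T hTS hTn hne
    by_contra hcon
    push Not at hcon
    have h1 := hmin T (by
      rw [Finset.mem_filter, Finset.mem_powerset]
      refine ⟨hTS.trans hSK, hTn, ?_⟩
      intro v hv w hw hvw
      by_contra hwT
      exact hcon v hv w (Finset.mem_sdiff.2 ⟨hcl v (hTS hv) w hw hvw, hwT⟩) hvw)
    exact hne (Finset.eq_of_subset_of_card_le hTS h1)
  · intro v hv
    refine (hd v (hSK hv)).trans (Finset.card_le_card ?_)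
    intro w hw
    rw [Finset.mem_filter] at hw ⊢
    exact ⟨hcl v hv w hw.1 hw.2, hw.2⟩

end Pool.Agent.Lib.MP_e8016c_th
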