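import Mathlib
import Pool.Agent.Lib.MP_e8016c_th.Defs

/-!
# Row D1: bounded distance in a graph of bounded degree, and proper colourings

`Dle B m u v`: there is a walk of length at most `m` (recursive definition in `Defs.lean`).
-/

namespace Pool.Agent.Lib.MP_e8016c_th

open Finset

section
variable {V : Type*} (B : SimpleGraph V)

theorem Dle.refl' (m : ℕ) (u : V) : Dle B m u u := by
  cases m with
  | zero => exact rfl
  | succ m => exact Or.inl rfl

theorem D1_succ {m : ℕ} {u v : V} (h : Dle B m u v) : Dle B (m + 1) u v := by
  induction m generalizing u with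
  | zero => exact Or.inl h
  | succ m ih =>
    rcases h with h | ⟨w, h1, h2⟩
    · exact Or.inl h
    · exact Or.inr ⟨w, h1, ih h2⟩

theorem Dle.mono' {m m' : ℕ} (h : m ≤ m') {u v : V} (huv : Dle B m u v) : Dle B m' u v := by
  induction h with
  | refl => exact huv
  | step _ ih => exact D1_succ B ih

theorem Dle.trans' {m m' : ℕ} {u v w : V} (h : Dle B m u v) (h' : Dle B m' v w) :
    Dle B (m + m') u w := by
  induction m generalizing u with
  | zero =>
    have h1 : u = v := h
    rw [h1, Nat.zero_add]
    exact h'
  | succ m ih =>
    rcases h with h | ⟨x, h1, h2⟩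
    · rw [h]
      exact Dle.mono' B (by omega) h'
    · rw [show m + 1 + m' = (m + m') + 1 by omega]
      exact Or.inr ⟨x, h1, ih h2⟩

theorem Dle.of_adj {u v : V} (h : B.Adj u v) : Dle B 1 u v := Or.inr ⟨v, h, rfl⟩

theorem Dle.symm' {m : ℕ} {u v : V} (h : Dle B m u v) : Dle B m v u := by
  induction m generalizing u with
  | zero =>
    have h1 : u = v := h
    exact h1.symm
  | succ m ih =>
    rcases h with h | ⟨x, h1, h2⟩
    · exact Or.inl h.symm
    · exact Dle.trans' B (ih h2) (Dle.of_adj B h1.symm)

end

open Classical in
theorem card_dle_le {V : Type*} [Fintype V] (B : SimpleGraph V) (D : ℕ)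
    (hB : ∀ v, (univ.filter (fun w => B.Adj v w)).card ≤ D) (m : ℕ) (u : V) :
    (univ.filter (fun v => Dle B m u v)).card ≤ (D + 1) ^ m := by
  induction m generalizing u with
  | zero =>
    have h : (univ.filter (fun v => Dle B 0 u v)) = {u} := by
      ext v
      rw [Finset.mem_filter, Finset.mem_singleton]
      constructor
      · rintro ⟨-, h⟩
        have h1 : u = v := h
        exact h1.symm
      · intro h
        exact ⟨Finset.mem_univ _, h.symm⟩
    rw [h]; simp
  | succ m ih =>
    have h : (univ.filter (fun v => Dle B (m + 1) u v)) ⊆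
        (insert u (univ.filter (fun w => B.Adj u w))).biUnion
          (fun w => univ.filter (fun v => Dle B m w v)) := by
      intro v hv
      rw [Finset.mem_filter] at hv
      rw [Finset.mem_biUnion]
      rcases hv.2 with h | ⟨w, h1, h2⟩
      · refine ⟨u, Finset.mem_insert_self _ _, ?_⟩
        rw [Finset.mem_filter, ← h]
        exact ⟨Finset.mem_univ _, Dle.refl' B m u⟩
      · refine ⟨w, Finset.mem_insert_of_mem ?_, ?_⟩
        · rw [Finset.mem_filter]
          exact ⟨Finset.mem_univ _, h1⟩
        · rw [Finset.mem_filter]
          exact ⟨Finset.mem_univ _, h2⟩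
    refine (Finset.card_le_card h).trans ?_
    refine (Finset.card_biUnion_le_card_mul _ _ _ fun w _ => ih w).trans ?_
    rw [pow_succ, mul_comm]
    refine Nat.mul_le_mul_left _ ((Finset.card_insert_le _ _).trans ?_)
    exact Nat.add_le_add_right (hB u) 1

open Classical in
/-- A proper colouring of a graph of maximum degree `≤ D` with labels from a type with at least
`D + 1` elements (greedy; cf. `greedy` in `Lib/MP_e8016c/Lower.lean`). -/
theorem exists_proper {V : Type*} [Fintype V] (B : SimpleGraph V) (D : ℕ)
    (hB : ∀ v, (univ.filter (fun w => B.Adj v w)).card ≤ D) {Λ : Type*} [Fintype Λ]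
    (hΛ : D + 1 ≤ Fintype.card Λ) : ∃ f : V → Λ, ∀ u v, B.Adj u v → f u ≠ f v := by
  have hne : Nonempty Λ := Fintype.card_pos_iff.1 (by omega)
  have key : ∀ s : Finset V, ∃ f : V → Λ, ∀ u ∈ s, ∀ v ∈ s, B.Adj u v → f u ≠ f v := by
    intro s
    induction s using Finset.induction_on with
    | empty => exact ⟨fun _ => Classical.arbitrary Λ, fun u hu => absurd hu (Finset.notMem_empty _)⟩
    | insert a s ha ih =>
      obtain ⟨f, hf⟩ := ih
      have h1 : ((univ.filter (fun w => B.Adj a w)).image f).card < Fintype.card Λ := by
        have := Finset.card_image_le (s := univ.filter (fun w => B.Adj a w)) (f := f)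
        have := hB a
        omega
      obtain ⟨c, hc⟩ : ∃ c, c ∉ (univ.filter (fun w => B.Adj a w)).image f := by
        by_contra hcon
        push Not at hcon
        have h2 : (univ.filter (fun w => B.Adj a w)).image f = univ :=
          Finset.eq_univ_iff_forall.2 hcon
        rw [h2, Finset.card_univ] at h1
        exact lt_irrefl _ h1
      have hc' : ∀ w, B.Adj a w → f w ≠ c := fun w hw h => hc (Finset.mem_image.2
        ⟨w, Finset.mem_filter.2 ⟨Finset.mem_univ _, hw⟩, h⟩)
      refine ⟨Function.update f a c, ?_⟩
      intro u hu v hv huv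
      by_cases hua : u = a
      · by_cases hva : v = a
        · rw [hua, hva] at huv
          exact absurd huv (SimpleGraph.irrefl B)
        · rw [hua, Function.update_self, Function.update_of_ne hva]
          rw [hua] at huv
          exact fun h => hc' v huv h.symm
      · by_cases hva : v = a
        · rw [hva, Function.update_self, Function.update_of_ne hua]
          rw [hva] at huv
          exact hc' u huv.symm
        · rw [Function.update_of_ne hua, Function.update_of_ne hva]
          exact hf u ((Finset.mem_insert.1 hu).resolve_left hua) v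
            ((Finset.mem_insert.1 hv).resolve_left hva) huv
  obtain ⟨f, hf⟩ := key univ
  exact ⟨f, fun u v h => hf u (Finset.mem_univ _) v (Finset.mem_univ _) h⟩

end Pool.Agent.Lib.MP_e8016c_th
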