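import Mathlib
import Pool.Agent.Lib.MP_e8016c_th.Defs
import Pool.Agent.Lib.MP_e8016c_th.Coins

/-!
# Row G1: the random relation `G` on the hubs: union bound

`Hub n = Fin 3 × Fin (2^n)`; `g : Sym2 (Hub n) → Fin (2^24)`, `GRel g x y ↔ g s(x, y) = 0`.
-/

namespace Pool.Agent.Lib.MP_e8016c_th

open Finset

abbrev Hub (n : ℕ) := Fin 3 × Fin (2 ^ n)

/-- The relation given by the coins `g`. -/
def GRel {n : ℕ} (g : Sym2 (Hub n) → Fin (2 ^ 24)) (x y : Hub n) : Prop := g s(x, y) = 0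

open Classical in
/-- G1: union bound.  If every `g` with property `Y` has all coins `0` on some member of `𝓔`, and the
members of `𝓔` have at least `e` elements, then `Y` has density at most `#𝓔 / 2^(24 e)`. -/
theorem card_union_le {E : Type*} [Fintype E] [DecidableEq E] (Y : (E → Fin (2 ^ 24)) → Prop)
    (𝓔 : Finset (Finset E)) (e : ℕ) (he : ∀ F ∈ 𝓔, e ≤ F.card)
    (hY : ∀ g, Y g → ∃ F ∈ 𝓔, ∀ x ∈ F, g x = 0) :
    (univ.filter Y).card * 2 ^ (24 * e) ≤ 𝓔.card * (2 ^ 24) ^ Fintype.card E := by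
  have h1 : univ.filter Y ⊆ 𝓔.biUnion (fun F => univ.filter (fun g : E → Fin (2 ^ 24) =>
      True ∧ ∀ x ∈ F, g x ∈ ({0} : Finset (Fin (2 ^ 24))))) := by
    intro g hg
    obtain ⟨F, hF, h⟩ := hY g (mem_filter.1 hg).2
    exact mem_biUnion.2 ⟨F, hF, mem_filter.2 ⟨mem_univ _, trivial,
      fun x hx => mem_singleton.2 (h x hx)⟩⟩
  have h2 : ∀ F ∈ 𝓔, (univ.filter (fun g : E → Fin (2 ^ 24) =>
      True ∧ ∀ x ∈ F, g x ∈ ({0} : Finset (Fin (2 ^ 24))))).card * 2 ^ (24 * e) ≤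
        (2 ^ 24) ^ Fintype.card E := by
    intro F hF
    have h3 : (univ.filter (fun g : E → Fin (2 ^ 24) =>
        True ∧ ∀ x ∈ F, g x ∈ ({0} : Finset (Fin (2 ^ 24))))).card * (2 ^ 24) ^ F.card =
          (2 ^ 24) ^ Fintype.card E := by
      have h4 := coins_indep (fun _ : E → Fin (2 ^ 24) => True) F (fun _ _ _ => Iff.rfl) {0}
      rw [card_singleton, one_pow, mul_one, filter_true, card_univ, Fintype.card_fun,
        Fintype.card_fin] at h4
      convert h4
    rw [← h3, pow_mul]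
    exact Nat.mul_le_mul_left _ (Nat.pow_le_pow_right (n := 2 ^ 24) (by norm_num) (he F hF))
  refine (Nat.mul_le_mul_right _ ((card_le_card h1).trans card_biUnion_le)).trans ?_
  rw [sum_mul]
  refine (sum_le_sum h2).trans ?_
  rw [sum_const, smul_eq_mul]

end Pool.Agent.Lib.MP_e8016c_th
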