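import Mathlib
import Pool.Agent.Lib.MP_e8016c_th.GUnion

/-!
# Row G4: the random relation `G` on the hubs
-/

namespace Pool.Agent.Lib.MP_e8016c_th

open Finset

namespace GAtt

theorem pow_self_le (l : ℕ) : l ^ l ≤ 3 ^ l * l.factorial := by
  have h := Real.pow_div_factorial_le_exp (l : ℝ) (Nat.cast_nonneg l) l
  have h3 : Real.exp (l : ℝ) ≤ 3 ^ l := by
    have h4 : Real.exp (l : ℝ) = Real.exp 1 ^ l := by rw [← Real.exp_nat_mul, mul_one]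
    rw [h4]
    apply pow_le_pow_left₀ (Real.exp_pos 1).le
    linarith [Real.exp_one_lt_d9]
  have h5 : ((l : ℝ) ^ l) / (l.factorial : ℝ) ≤ 3 ^ l := h.trans h3
  have hpos : (0 : ℝ) < (l.factorial : ℝ) := by exact_mod_cast Nat.factorial_pos l
  rw [div_le_iff₀ hpos] at h5
  exact_mod_cast h5

theorem choose_le (n q l : ℕ) (hl : 3 * 2 ^ (n - 10 * q) ≤ l) :
    (2 ^ n).choose l ≤ 2 ^ (10 * q * l) := by
  by_cases h : 10 * q ≤ n
  · have h1 : l.factorial * (2 ^ n).choose l ≤ (2 ^ n) ^ l := by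
      rw [← Nat.descFactorial_eq_factorial_mul_choose]
      exact Nat.descFactorial_le_pow _ _
    have h2 : 3 * 2 ^ n ≤ l * 2 ^ (10 * q) := by
      calc 3 * 2 ^ n = 3 * 2 ^ (n - 10 * q) * 2 ^ (10 * q) := by
            rw [mul_assoc, ← pow_add, Nat.sub_add_cancel h]
        _ ≤ l * 2 ^ (10 * q) := Nat.mul_le_mul_right _ hl
    have h3 : (2 ^ n).choose l * l ^ l ≤ 2 ^ (10 * q * l) * l ^ l := by
      calc (2 ^ n).choose l * l ^ l ≤ (2 ^ n).choose l * (3 ^ l * l.factorial) :=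
            Nat.mul_le_mul_left _ (pow_self_le l)
        _ = 3 ^ l * (l.factorial * (2 ^ n).choose l) := by ring
        _ ≤ 3 ^ l * (2 ^ n) ^ l := Nat.mul_le_mul_left _ h1
        _ = (3 * 2 ^ n) ^ l := by rw [mul_pow]
        _ ≤ (l * 2 ^ (10 * q)) ^ l := Nat.pow_le_pow_left h2 l
        _ = 2 ^ (10 * q * l) * l ^ l := by rw [mul_pow, ← pow_mul]; ring
    have hl0 : 0 < l := lt_of_lt_of_le (by positivity) hl
    exact Nat.le_of_mul_le_mul_right h3 (Nat.pow_pos hl0)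
  · calc (2 ^ n).choose l ≤ (2 ^ n) ^ l := Nat.choose_le_pow _ _
      _ = 2 ^ (n * l) := by rw [← pow_mul]
      _ ≤ 2 ^ (10 * q * l) := by
          apply Nat.pow_le_pow_right (by norm_num)
          apply Nat.mul_le_mul_right
          omega

/-- the hub pair -/
def hq {n : ℕ} (j i : Fin 3) (bo : Fin (2 ^ n) × Fin (2 ^ n)) : Sym2 (Hub n) :=
  s((j, bo.1), (i, bo.2))

theorem hq_inj {n : ℕ} {j i : Fin 3} (hji : j ≠ i) :
    Function.Injective (hq (n := n) j i) := by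
  rintro ⟨b, o⟩ ⟨b', o'⟩ h
  unfold hq at h
  rw [Sym2.eq_iff] at h
  rcases h with ⟨h1, h2⟩ | ⟨h1, h2⟩
  · rw [Prod.mk.injEq] at h1 h2
    exact Prod.ext h1.2 h2.2
  · rw [Prod.mk.injEq] at h1
    exact absurd h1.1 hji

open Classical in
theorem card_q (n q l : ℕ) (hq1 : 1 ≤ q) (hl : 3 * 2 ^ (n - 10 * q) ≤ l)
    (hl2 : 4 * n ≤ l) (Y : (Sym2 (Hub n) → Fin (2 ^ 24)) → Prop)
    (hY : ∀ g, Y g → ∃ i j : Fin 3, j ≠ i ∧ ∃ O B : Finset (Fin (2 ^ n)), O.card = q ∧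
      B.card = l ∧ ∃ A ⊆ B ×ˢ O, l * q ≤ 2 * A.card ∧ ∀ bo ∈ A, g (hq j i bo) = 0) :
    (univ.filter Y).card * 2 ^ (3 * n) ≤ 9 * (2 ^ 24) ^ Fintype.card (Sym2 (Hub n)) := by
  obtain ⟨e, he⟩ : ∃ e, e = (l * q + 1) / 2 := ⟨_, rfl⟩
  obtain ⟨M, hM⟩ : ∃ M, M = (2 ^ 24) ^ Fintype.card (Sym2 (Hub n)) := ⟨_, rfl⟩
  let T : Finset ((Fin 3 × Fin 3) × (Finset (Fin (2 ^ n)) × Finset (Fin (2 ^ n)))) :=
    (univ : Finset (Fin 3 × Fin 3)) ×ˢ
      (powersetCard q (univ : Finset (Fin (2 ^ n))) ×ˢ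
        powersetCard l (univ : Finset (Fin (2 ^ n))))
  let 𝓔 : Finset (Finset (Sym2 (Hub n))) := (T.biUnion (fun t =>
    ((t.2.2 ×ˢ t.2.1).powerset).image (fun A => A.image (hq t.1.1 t.1.2)))).filter
      (fun F => e ≤ F.card)
  have hT : T.card ≤ 9 * (2 ^ (n * q) * 2 ^ (10 * q * l)) := by
    simp only [T, card_product, card_univ, Fintype.card_prod, Fintype.card_fin,
      card_powersetCard]
    have h1 : (2 ^ n).choose q ≤ 2 ^ (n * q) := by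
      rw [pow_mul]
      exact Nat.choose_le_pow _ _
    calc 3 * 3 * ((2 ^ n).choose q * (2 ^ n).choose l)
        ≤ 3 * 3 * (2 ^ (n * q) * 2 ^ (10 * q * l)) :=
          Nat.mul_le_mul_left _ (Nat.mul_le_mul h1 (choose_le n q l hl))
      _ = 9 * (2 ^ (n * q) * 2 ^ (10 * q * l)) := by norm_num
  have hcard : 𝓔.card ≤ 9 * (2 ^ (n * q) * 2 ^ (10 * q * l)) * 2 ^ (l * q) := by
    refine (Finset.card_filter_le _ _).trans ?_
    refine (Finset.card_biUnion_le_card_mul T _ (2 ^ (l * q)) ?_).trans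
      (Nat.mul_le_mul_right _ hT)
    intro t ht
    refine Finset.card_image_le.trans ?_
    rw [card_powerset, card_product]
    simp only [T, mem_product, mem_powersetCard] at ht
    rw [ht.2.1.2, ht.2.2.2]
  have h := card_union_le Y 𝓔 e (fun F hF => (Finset.mem_filter.1 hF).2) (by
    intro g hg
    obtain ⟨i, j, hji, O, B, hO, hB, A, hA, hAcard, h0⟩ := hY g hg
    refine ⟨A.image (hq j i), ?_, ?_⟩
    · refine Finset.mem_filter.2 ⟨Finset.mem_biUnion.2 ⟨((j, i), (O, B)), ?_, ?_⟩, ?_⟩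
      · simp only [T, mem_product, mem_powersetCard]
        exact ⟨mem_univ _, ⟨subset_univ _, hO⟩, ⟨subset_univ _, hB⟩⟩
      · exact Finset.mem_image.2 ⟨A, Finset.mem_powerset.2 hA, rfl⟩
      · rw [Finset.card_image_of_injective _ (hq_inj hji)]
        omega
    · intro x hx
      obtain ⟨bo, hbo, rfl⟩ := Finset.mem_image.1 hx
      exact h0 bo hbo)
  rw [← hM] at h ⊢
  have h24 : 10 * q * l + l * q + n * q + 3 * n ≤ 24 * e := by
    have h1 : l * q ≤ 2 * e := by omega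
    have h2 : 4 * n * q ≤ l * q := Nat.mul_le_mul_right _ hl2
    have h3 : n * 1 ≤ n * q := Nat.mul_le_mul_left _ hq1
    have h4 : 4 * n * q = 4 * (n * q) := by ring
    have h5 : 10 * q * l = 10 * (l * q) := by ring
    omega
  have h5 : (univ.filter Y).card * 2 ^ (10 * q * l + l * q + n * q + 3 * n) ≤
      9 * (2 ^ (n * q) * 2 ^ (10 * q * l)) * 2 ^ (l * q) * M := by
    calc (univ.filter Y).card * 2 ^ (10 * q * l + l * q + n * q + 3 * n)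
        ≤ (univ.filter Y).card * 2 ^ (24 * e) :=
          Nat.mul_le_mul_left _ (Nat.pow_le_pow_right (by norm_num) h24)
      _ ≤ 𝓔.card * M := h
      _ ≤ _ := Nat.mul_le_mul_right _ hcard
  have hpos : 0 < 2 ^ (10 * q * l) * 2 ^ (l * q) * 2 ^ (n * q) := by positivity
  refine Nat.le_of_mul_le_mul_right ?_ hpos
  calc (univ.filter Y).card * 2 ^ (3 * n) * (2 ^ (10 * q * l) * 2 ^ (l * q) * 2 ^ (n * q))
      = (univ.filter Y).card * 2 ^ (10 * q * l + l * q + n * q + 3 * n) := by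
        rw [pow_add, pow_add, pow_add]; ring
    _ ≤ _ := h5
    _ = 9 * M * (2 ^ (10 * q * l) * 2 ^ (l * q) * 2 ^ (n * q)) := by ring

end GAtt

open GAtt in
open Classical in
/-- G4: `att`.  Let `q = #O`, `ℓ = 3 · 2^(n - 10 q) + 4 n + 1`, `F` a subset with exactly `ℓ` elements
of the star of `a` (which has at most `2^n` elements by `lin`).  For one of the two `j ≠ i` at least
`ℓ q / 2` pairs `(p, o)` satisfy `G (j, φ p j) (i, o)`, hub pairs distinct.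
`𝓔` for given `q`: at most `3 · 2 · 2^n · (2^n)^q · C(2^n, ℓ) · 2^(ℓ q)` sets, and
`C(2^n, ℓ) ≤ (2^n)^ℓ/ℓ! ≤ (3 · 2^n / ℓ)^ℓ ≤ 2^(10 q ℓ)` (`ℓ! ≥ (ℓ/3)^ℓ`).  Density
`≤ 6 · 2^(n(1+q) + 10qℓ + ℓq - 12 ℓ q) = 6 · 2^(n (1+q) - ℓ q) ≤ 6 · 2^(-2nq)`; sum over
`1 ≤ q ≤ 4n`. -/
theorem card_att_bad (n : ℕ) (hn : 2000 ≤ n) (S : LinSys n) :
    2 ^ 80 * (univ.filter (fun g : Sym2 (Hub n) → Fin (2 ^ 24) =>
      ∃ i a, ∃ O : Finset (Fin (2 ^ n)), 1 ≤ O.card ∧ O.card ≤ 4 * n ∧ ∃ F ⊆ S.Λ,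
        (∀ p ∈ F, S.φ p i = a) ∧
        (∀ p ∈ F, ∀ o ∈ O, ∃ j, j ≠ i ∧ GRel g (j, S.φ p j) (i, o)) ∧
        3 * 2 ^ (n - 10 * O.card) + 4 * n < F.card)).card ≤
      (2 ^ 24) ^ Fintype.card (Sym2 (Hub n)) := by
  obtain ⟨Y, hYdef⟩ : ∃ Y : ℕ → (Sym2 (Hub n) → Fin (2 ^ 24)) → Prop, Y = fun q g =>
      ∃ i a, ∃ O : Finset (Fin (2 ^ n)), O.card = q ∧ ∃ F ⊆ S.Λ,
        (∀ p ∈ F, S.φ p i = a) ∧
        (∀ p ∈ F, ∀ o ∈ O, ∃ j, j ≠ i ∧ GRel g (j, S.φ p j) (i, o)) ∧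
        3 * 2 ^ (n - 10 * q) + 4 * n < F.card := ⟨_, rfl⟩
  have hsub : (univ.filter (fun g : Sym2 (Hub n) → Fin (2 ^ 24) =>
      ∃ i a, ∃ O : Finset (Fin (2 ^ n)), 1 ≤ O.card ∧ O.card ≤ 4 * n ∧ ∃ F ⊆ S.Λ,
        (∀ p ∈ F, S.φ p i = a) ∧
        (∀ p ∈ F, ∀ o ∈ O, ∃ j, j ≠ i ∧ GRel g (j, S.φ p j) (i, o)) ∧
        3 * 2 ^ (n - 10 * O.card) + 4 * n < F.card)) ⊆
      (Icc 1 (4 * n)).biUnion (fun q => univ.filter (Y q)) := by
    intro g hg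
    obtain ⟨i, a, O, h1, h2, F, hF, h3, h4, h5⟩ := (mem_filter.1 hg).2
    refine mem_biUnion.2 ⟨O.card, mem_Icc.2 ⟨h1, h2⟩, mem_filter.2 ⟨mem_univ _, ?_⟩⟩
    rw [hYdef]
    exact ⟨i, a, O, rfl, F, hF, h3, h4, h5⟩
  obtain ⟨M, hM⟩ : ∃ M, M = (2 ^ 24) ^ Fintype.card (Sym2 (Hub n)) := ⟨_, rfl⟩
  have hq : ∀ q ∈ Icc 1 (4 * n), (univ.filter (Y q)).card * 2 ^ (3 * n) ≤ 9 * M := by
    intro q hq
    rw [mem_Icc] at hq
    rw [hM]
    refine card_q n q (3 * 2 ^ (n - 10 * q) + 4 * n + 1) hq.1 (by omega) (by omega) (Y q) ?_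
    intro g hg
    rw [hYdef] at hg
    obtain ⟨i, a, O, hO, F, hF, ha, hclose, hlarge⟩ := hg
    obtain ⟨J, hJ, hJcard⟩ := Finset.exists_subset_card_eq
      (show 3 * 2 ^ (n - 10 * q) + 4 * n + 1 ≤ F.card from hlarge)
    have hinj : ∀ j, j ≠ i → Set.InjOn (fun p => S.φ p j) (J : Set _) := by
      intro j hj p hp p' hp' hpp
      by_contra hne
      refine S.lin _ (hF (hJ hp)) _ (hF (hJ hp')) hne i j hj.symm ?_ hpp
      rw [ha _ (hJ hp), ha _ (hJ hp')]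
    let A' : Fin 3 → Finset ((Fin (2 ^ n) × Fin (2 ^ n)) × Fin (2 ^ n)) := fun j =>
      (J ×ˢ O).filter (fun po => g (GAtt.hq j i (S.φ po.1 j, po.2)) = 0)
    have hcov : J ×ˢ O ⊆ (univ.erase i).biUnion A' := by
      intro po hpo
      have hpo' := mem_product.1 hpo
      obtain ⟨j, hj, hG⟩ := hclose _ (hJ hpo'.1) _ hpo'.2
      exact mem_biUnion.2 ⟨j, mem_erase.2 ⟨hj, mem_univ _⟩, mem_filter.2 ⟨hpo, hG⟩⟩
    have hsum : (3 * 2 ^ (n - 10 * q) + 4 * n + 1) * q ≤ ∑ j ∈ univ.erase i, (A' j).card := by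
      have h1 := (Finset.card_le_card hcov).trans Finset.card_biUnion_le
      rwa [card_product, hJcard, hO] at h1
    have hD : (univ.erase i).card = 2 := by
      rw [card_erase_of_mem (mem_univ _), card_univ, Fintype.card_fin]
    obtain ⟨j, hj, hA⟩ : ∃ j ∈ univ.erase i,
        (3 * 2 ^ (n - 10 * q) + 4 * n + 1) * q ≤ 2 * (A' j).card := by
      by_contra hcon
      push Not at hcon
      have hne : (univ.erase i).Nonempty := by
        rw [← card_pos, hD]; norm_num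
      have h1 : ∑ j ∈ univ.erase i, 2 * (A' j).card <
          ∑ j ∈ univ.erase i, (3 * 2 ^ (n - 10 * q) + 4 * n + 1) * q :=
        Finset.sum_lt_sum_of_nonempty hne hcon
      rw [← Finset.mul_sum, sum_const, hD, smul_eq_mul] at h1
      omega
    have hji : j ≠ i := (mem_erase.1 hj).1
    refine ⟨i, j, hji, O, J.image (fun p => S.φ p j), hO, ?_,
      (A' j).image (fun po => (S.φ po.1 j, po.2)), ?_, ?_, ?_⟩
    · rw [Finset.card_image_of_injOn (hinj j hji), hJcard]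
    · intro bo hbo
      obtain ⟨po, hpo, rfl⟩ := mem_image.1 hbo
      have h1 := mem_product.1 (mem_filter.1 hpo).1
      exact mem_product.2 ⟨mem_image.2 ⟨po.1, h1.1, rfl⟩, h1.2⟩
    · rw [Finset.card_image_of_injOn]
      · exact hA
      · intro po hpo po' hpo' h
        rw [mem_coe, mem_filter, mem_product] at hpo hpo'
        rw [Prod.mk.injEq] at h
        exact Prod.ext (hinj j hji hpo.1.1 hpo'.1.1 h.1) h.2
    · intro bo hbo
      obtain ⟨po, hpo, rfl⟩ := mem_image.1 hbo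
      exact (mem_filter.1 hpo).2
  rw [← hM]
  have htot : (univ.filter (fun g : Sym2 (Hub n) → Fin (2 ^ 24) =>
      ∃ i a, ∃ O : Finset (Fin (2 ^ n)), 1 ≤ O.card ∧ O.card ≤ 4 * n ∧ ∃ F ⊆ S.Λ,
        (∀ p ∈ F, S.φ p i = a) ∧
        (∀ p ∈ F, ∀ o ∈ O, ∃ j, j ≠ i ∧ GRel g (j, S.φ p j) (i, o)) ∧
        3 * 2 ^ (n - 10 * O.card) + 4 * n < F.card)).card * 2 ^ (3 * n) ≤ 36 * n * M := by
    calc _ ≤ (∑ q ∈ Icc 1 (4 * n), (univ.filter (Y q)).card) * 2 ^ (3 * n) :=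
          Nat.mul_le_mul_right _ ((Finset.card_le_card hsub).trans Finset.card_biUnion_le)
      _ = ∑ q ∈ Icc 1 (4 * n), (univ.filter (Y q)).card * 2 ^ (3 * n) := by
          rw [Finset.sum_mul]
      _ ≤ ∑ q ∈ Icc 1 (4 * n), 9 * M := Finset.sum_le_sum hq
      _ = 36 * n * M := by
          rw [sum_const, Nat.card_Icc, smul_eq_mul, Nat.add_sub_cancel]
          ring
  obtain ⟨W, hW⟩ : ∃ W, W = (univ.filter (fun g : Sym2 (Hub n) → Fin (2 ^ 24) =>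
      ∃ i a, ∃ O : Finset (Fin (2 ^ n)), 1 ≤ O.card ∧ O.card ≤ 4 * n ∧ ∃ F ⊆ S.Λ,
        (∀ p ∈ F, S.φ p i = a) ∧
        (∀ p ∈ F, ∀ o ∈ O, ∃ j, j ≠ i ∧ GRel g (j, S.φ p j) (i, o)) ∧
        3 * 2 ^ (n - 10 * O.card) + 4 * n < F.card)).card := ⟨_, rfl⟩
  rw [← hW] at htot ⊢
  have hnum : 2 ^ 80 * (36 * n) ≤ 2 ^ (3 * n) := by
    have h1 : n < 2 ^ n := Nat.lt_two_pow_self
    calc 2 ^ 80 * (36 * n) ≤ 2 ^ 80 * (2 ^ 6 * 2 ^ n) := by
          apply Nat.mul_le_mul_left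
          apply Nat.mul_le_mul (by norm_num) h1.le
      _ = 2 ^ (80 + (6 + n)) := by rw [pow_add, pow_add]
      _ ≤ 2 ^ (3 * n) := Nat.pow_le_pow_right (by norm_num) (by omega)
  have hpos : 0 < 36 * n := by omega
  refine Nat.le_of_mul_le_mul_right ?_ hpos
  calc 2 ^ 80 * W * (36 * n) = W * (2 ^ 80 * (36 * n)) := by ring
    _ ≤ W * 2 ^ (3 * n) := Nat.mul_le_mul_left _ hnum
    _ ≤ 36 * n * M := htot
    _ = M * (36 * n) := by ring

end Pool.Agent.Lib.MP_e8016c_th
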