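import Mathlib
import Pool.Agent.Lib.MP_e8016c_th.GUnion

/-!
# Rows G2, G3: the common part
-/

namespace Pool.Agent.Lib.MP_e8016c_th

open Finset

/-- The hub pair of a pair of labels. -/
def hp {n : ℕ} (φ : (Fin (2 ^ n) × Fin (2 ^ n)) → Fin 3 → Fin (2 ^ n)) {v : ℕ}
    (f f' : Fin v → Fin (2 ^ n) × Fin (2 ^ n)) (i j : Fin 3) (ab : Fin v × Fin v) :
    Sym2 (Hub n) := s((i, φ (f ab.1) i), (j, φ (f' ab.2) j))

theorem hp_inj {n : ℕ} (φ : (Fin (2 ^ n) × Fin (2 ^ n)) → Fin 3 → Fin (2 ^ n)) {v : ℕ}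
    (f f' : Fin v → Fin (2 ^ n) × Fin (2 ^ n)) {i j : Fin 3} (hij : i ≠ j)
    (h1 : ∀ a b, φ (f a) i = φ (f b) i → a = b)
    (h2 : ∀ a b, φ (f' a) j = φ (f' b) j → a = b) : Function.Injective (hp φ f f' i j) := by
  rintro ⟨a, b⟩ ⟨a', b'⟩ h
  unfold hp at h
  rw [Sym2.eq_iff] at h
  rcases h with ⟨h3, h4⟩ | ⟨h3, h4⟩
  · rw [Prod.mk.injEq] at h3 h4
    rw [Prod.mk.injEq]
    exact ⟨h1 _ _ h3.2, h2 _ _ h4.2⟩
  · rw [Prod.mk.injEq] at h3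
    exact absurd h3.1 hij

theorem core_num {n : ℕ} (hn : 2000 ≤ n) :
    80 + (4 * n * (4 * n + 1) + 4 + (4 * n + 1) * (4 * n + 1)) ≤
      24 * ((4 * n + 1) * (4 * n) / 6) := by
  have h1 := Nat.div_add_mod ((4 * n + 1) * (4 * n)) 6
  have h2 : (4 * n + 1) * (4 * n) % 6 < 6 := Nat.mod_lt _ (by norm_num)
  set q := (4 * n + 1) * (4 * n) / 6 with hq
  have h3 : (4 * n + 1) * (4 * n) = 16 * (n * n) + 4 * n := by ring
  have h4 : 4 * n * (4 * n + 1) + 4 + (4 * n + 1) * (4 * n + 1) =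
      32 * (n * n) + 12 * n + 5 := by ring
  have h5 : 2000 * n ≤ n * n := Nat.mul_le_mul_right n hn
  rw [h4]
  omega

theorem core_bad (n : ℕ) (hn : 2000 ≤ n)
    (φ : (Fin (2 ^ n) × Fin (2 ^ n)) → Fin 3 → Fin (2 ^ n))
    (Y : (Sym2 (Hub n) → Fin (2 ^ 24)) → Prop) [hdec : DecidablePred Y]
    (hY : ∀ g, Y g → ∃ (f f' : Fin (4 * n + 1) → Fin (2 ^ n) × Fin (2 ^ n)) (i j : Fin 3)
      (A : Finset (Fin (4 * n + 1) × Fin (4 * n + 1))), Function.Injective (hp φ f f' i j) ∧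
      (4 * n + 1) * (4 * n) / 6 ≤ A.card ∧ ∀ ab ∈ A, g (hp φ f f' i j ab) = 0) :
    2 ^ 80 * (univ.filter Y).card ≤ (2 ^ 24) ^ Fintype.card (Sym2 (Hub n)) := by
  classical
  have hdd : (univ.filter Y) = @Finset.filter _ Y (fun a => Classical.propDecidable (Y a)) univ := by
    congr!
  rw [hdd]
  set e := (4 * n + 1) * (4 * n) / 6 with he
  let 𝓔 : Finset (Finset (Sym2 (Hub n))) :=
    ((univ : Finset (((Fin (4 * n + 1) → Fin (2 ^ n) × Fin (2 ^ n)) ×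
      (Fin (4 * n + 1) → Fin (2 ^ n) × Fin (2 ^ n))) × ((Fin 3 × Fin 3) ×
      Finset (Fin (4 * n + 1) × Fin (4 * n + 1))))).image
      (fun t => t.2.2.image (hp φ t.1.1 t.1.2 t.2.1.1 t.2.1.2))).filter (fun F => e ≤ F.card)
  have hcard : 𝓔.card ≤ 2 ^ (4 * n * (4 * n + 1) + 4 + (4 * n + 1) * (4 * n + 1)) := by
    refine (Finset.card_filter_le _ _).trans (Finset.card_image_le.trans ?_)
    rw [Finset.card_univ]
    simp only [Fintype.card_prod, Fintype.card_fun, Fintype.card_fin, Fintype.card_finset]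
    have h1 : (2 ^ n * 2 ^ n) ^ (4 * n + 1) * (2 ^ n * 2 ^ n) ^ (4 * n + 1) =
        2 ^ (4 * n * (4 * n + 1)) := by
      rw [← pow_add, ← pow_add, ← pow_mul]
      congr 1
      ring
    rw [h1, pow_add, pow_add]
    calc 2 ^ (4 * n * (4 * n + 1)) * (3 * 3 * 2 ^ ((4 * n + 1) * (4 * n + 1)))
        = 2 ^ (4 * n * (4 * n + 1)) * (3 * 3) * 2 ^ ((4 * n + 1) * (4 * n + 1)) := by ring
      _ ≤ 2 ^ (4 * n * (4 * n + 1)) * 2 ^ 4 * 2 ^ ((4 * n + 1) * (4 * n + 1)) := by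
          refine Nat.mul_le_mul_right _ (Nat.mul_le_mul_left _ ?_)
          norm_num
  have h := card_union_le Y 𝓔 e (fun F hF => (Finset.mem_filter.1 hF).2) (by
    intro g hg
    obtain ⟨f, f', i, j, A, hinj, hA, h0⟩ := hY g hg
    refine ⟨A.image (hp φ f f' i j), ?_, ?_⟩
    · refine Finset.mem_filter.2 ⟨Finset.mem_image.2 ⟨((f, f'), ((i, j), A)),
        Finset.mem_univ _, rfl⟩, ?_⟩
      rw [Finset.card_image_of_injective _ hinj]
      exact hA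
    · intro x hx
      obtain ⟨ab, hab, rfl⟩ := Finset.mem_image.1 hx
      exact h0 ab hab)
  have h2 : 2 ^ 80 * 𝓔.card ≤ 2 ^ (24 * e) :=
    calc 2 ^ 80 * 𝓔.card
        ≤ 2 ^ 80 * 2 ^ (4 * n * (4 * n + 1) + 4 + (4 * n + 1) * (4 * n + 1)) :=
          Nat.mul_le_mul_left _ hcard
      _ = 2 ^ (80 + (4 * n * (4 * n + 1) + 4 + (4 * n + 1) * (4 * n + 1))) :=
          (pow_add _ _ _).symm
      _ ≤ 2 ^ (24 * e) := Nat.pow_le_pow_right (by norm_num) (core_num hn)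
  have hpos : 0 < 2 ^ (24 * e) := Nat.pow_pos (by norm_num)
  refine Nat.le_of_mul_le_mul_right ?_ hpos
  calc 2 ^ 80 * (@Finset.filter _ Y (fun a => Classical.propDecidable (Y a)) univ).card * 2 ^ (24 * e)
      = 2 ^ 80 * ((@Finset.filter _ Y (fun a => Classical.propDecidable (Y a)) univ).card *
          2 ^ (24 * e)) := by ring
    _ ≤ 2 ^ 80 * (𝓔.card * (2 ^ 24) ^ Fintype.card (Sym2 (Hub n))) := Nat.mul_le_mul_left _ h
    _ = (2 ^ 80 * 𝓔.card) * (2 ^ 24) ^ Fintype.card (Sym2 (Hub n)) := by ring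
    _ ≤ 2 ^ (24 * e) * (2 ^ 24) ^ Fintype.card (Sym2 (Hub n)) := Nat.mul_le_mul_right _ h2
    _ = (2 ^ 24) ^ Fintype.card (Sym2 (Hub n)) * 2 ^ (24 * e) := by ring

end Pool.Agent.Lib.MP_e8016c_th
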