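import Mathlib
import Pool.Agent.Lib.MP_e8016c_th.GCore

/-!
# Row G3: the random relation `G` on the hubs
-/

namespace Pool.Agent.Lib.MP_e8016c_th

open Finset

open Classical in
/-- G3: `two`.  Let `ℓ = 4n + 1`; subsets `F`, `F'` of two stars of class `i` with exactly `ℓ`
elements (`φ · j`, `φ · l` are injective on `F`, `F'` by `lin`).  For one of the two choices of
`(j, l)` at least `ℓ²/2` pairs `(p, p') ∈ F × F'` satisfy `G (j, φ p j) (l, φ p' l)`, and the hub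
pairs are distinct.  `𝓔`: at most `3 · 2 · (4^n)^(2ℓ) · 2^(ℓ²)` sets (the stars are determined by
`F`, `F'`).  Density `≤ 6 · 2^(4nℓ + ℓ² - 12 ℓ²) ≤ 2^(-200)`. -/
theorem card_two_bad (n : ℕ) (hn : 2000 ≤ n) (S : LinSys n) :
    2 ^ 80 * (univ.filter (fun g : Sym2 (Hub n) → Fin (2 ^ 24) =>
      ∃ i a a', ∃ F ⊆ S.Λ, ∃ F' ⊆ S.Λ, (∀ p ∈ F, S.φ p i = a) ∧ (∀ p ∈ F', S.φ p i = a') ∧
        (∀ p ∈ F, ∀ p' ∈ F', ∃ j l, j ≠ i ∧ l ≠ i ∧ j ≠ l ∧ GRel g (j, S.φ p j) (l, S.φ p' l)) ∧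
        4 * n < F.card ∧ 4 * n < F'.card)).card ≤ (2 ^ 24) ^ Fintype.card (Sym2 (Hub n)) := by
  refine core_bad n hn S.φ _ fun g hg => ?_
  obtain ⟨i, a0, a1, F, hF, F', hF', hFa, hFa', hclose, hlarge, hlarge'⟩ := hg
  obtain ⟨J, hJ, hcard⟩ := Finset.exists_subset_card_eq (show 4 * n + 1 ≤ F.card from hlarge)
  obtain ⟨J', hJ', hcard'⟩ := Finset.exists_subset_card_eq (show 4 * n + 1 ≤ F'.card from hlarge')
  let f0 : Fin (4 * n + 1) ≃ J := (J.equivFinOfCardEq hcard).symm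
  let f : Fin (4 * n + 1) → Fin (2 ^ n) × Fin (2 ^ n) := fun a => (f0 a).1
  let f0' : Fin (4 * n + 1) ≃ J' := (J'.equivFinOfCardEq hcard').symm
  let f' : Fin (4 * n + 1) → Fin (2 ^ n) × Fin (2 ^ n) := fun a => (f0' a).1
  have hf : ∀ a b, f a = f b → a = b := fun a b h => f0.injective (Subtype.ext h)
  have hf' : ∀ a b, f' a = f' b → a = b := fun a b h => f0'.injective (Subtype.ext h)
  have hfF : ∀ a, f a ∈ F := fun a => hJ (f0 a).2
  have hfF' : ∀ a, f' a ∈ F' := fun a => hJ' (f0' a).2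
  have hfi : ∀ j, j ≠ i → ∀ a b, S.φ (f a) j = S.φ (f b) j → a = b := by
    intro j hj a b h
    by_contra hab
    refine S.lin _ (hF (hfF a)) _ (hF (hfF b)) (fun h' => hab (hf _ _ h')) i j hj.symm ?_ h
    rw [hFa _ (hfF a), hFa _ (hfF b)]
  have hfi' : ∀ j, j ≠ i → ∀ a b, S.φ (f' a) j = S.φ (f' b) j → a = b := by
    intro j hj a b h
    by_contra hab
    refine S.lin _ (hF' (hfF' a)) _ (hF' (hfF' b)) (fun h' => hab (hf' _ _ h')) i j hj.symm ?_ h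
    rw [hFa' _ (hfF' a), hFa' _ (hfF' b)]
  let A : Fin 3 × Fin 3 → Finset (Fin (4 * n + 1) × Fin (4 * n + 1)) := fun jl =>
    univ.filter fun ab => g (hp S.φ f f' jl.1 jl.2 ab) = 0
  let D : Finset (Fin 3 × Fin 3) := univ.filter fun jl => jl.1 ≠ i ∧ jl.2 ≠ i ∧ jl.1 ≠ jl.2
  have hD : D.card ≤ 6 := by
    have h1 : ∀ i : Fin 3, (univ.filter fun jl : Fin 3 × Fin 3 =>
        jl.1 ≠ i ∧ jl.2 ≠ i ∧ jl.1 ≠ jl.2).card ≤ 6 := by decide
    convert h1 i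
  have hcov : (univ : Finset (Fin (4 * n + 1) × Fin (4 * n + 1))) ⊆ D.biUnion A := by
    rintro ⟨a, b⟩ _
    obtain ⟨j, l, hj, hl, hjl, hG⟩ := hclose _ (hfF a) _ (hfF' b)
    refine Finset.mem_biUnion.2 ⟨(j, l), ?_, ?_⟩
    · exact Finset.mem_filter.2 ⟨Finset.mem_univ _, hj, hl, hjl⟩
    · exact Finset.mem_filter.2 ⟨Finset.mem_univ _, hG⟩
  have hsum : (4 * n + 1) * (4 * n + 1) ≤ ∑ jl ∈ D, (A jl).card := by
    have h1 := (Finset.card_le_card hcov).trans Finset.card_biUnion_le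
    rwa [Finset.card_univ, Fintype.card_prod, Fintype.card_fin] at h1
  obtain ⟨jl, hjl, hA⟩ : ∃ jl ∈ D, (4 * n + 1) * (4 * n) / 6 ≤ (A jl).card := by
    by_contra hcon
    push Not at hcon
    have h1 : ∑ jl ∈ D, (A jl).card ≤ D.card * ((4 * n + 1) * (4 * n) / 6) := by
      refine (Finset.sum_le_card_nsmul _ _ _ fun jl hjl => (hcon jl hjl).le).trans ?_
      exact le_of_eq (smul_eq_mul _ _)
    have h2 := Nat.mul_div_le ((4 * n + 1) * (4 * n)) 6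
    have h3 := Nat.mul_le_mul_right ((4 * n + 1) * (4 * n) / 6) hD
    have h4 : (4 * n + 1) * (4 * n + 1) = (4 * n + 1) * (4 * n) + (4 * n + 1) := by ring
    omega
  obtain ⟨-, hj, hl, hne⟩ := Finset.mem_filter.1 hjl
  refine ⟨f, f', jl.1, jl.2, A jl, hp_inj _ _ _ hne (hfi _ hj) (hfi' _ hl), hA,
    fun ab hab => ?_⟩
  exact (Finset.mem_filter.1 hab).2

end Pool.Agent.Lib.MP_e8016c_th
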