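import Mathlib
import Pool.Agent.Lib.MP_e8016c_th.Defs
import Pool.Agent.Lib.MP_e8016c_th.Coins

/-!
# Rows P1, P2: counting third hubs `ψ : Fin P × Fin P → Fin P`

P1 (`card_dense_le`): the number of `ψ` for which there are `A`, `B`, `C ⊆ Fin P` with `α`, `β`,
`γ` elements and `m` labels in `A × B` with third hub in `C` is at most
`C(P,α) C(P,β) C(P,γ) C(αβ,m) γ^m / P^m` times the number of all `ψ` (union bound and
`coins_indep` with `X := True`, `F := J`, `T := C`).
P2: numerical consequences for `P = 2 ^ n`.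
-/

namespace Pool.Agent.Lib.MP_e8016c_th

open Finset

/-- There are many labels with hubs in given small sets. -/
def Dense (P α β γ m : ℕ) (ψ : Fin P × Fin P → Fin P) : Prop :=
  ∃ A B C : Finset (Fin P), ∃ J : Finset (Fin P × Fin P), A.card = α ∧ B.card = β ∧ C.card = γ ∧
    J.card = m ∧ J ⊆ A ×ˢ B ∧ ∀ p ∈ J, ψ p ∈ C

open Classical in
/-- P1 -/
theorem card_dense_le (P α β γ m : ℕ) :
    (univ.filter (fun ψ : Fin P × Fin P → Fin P => Dense P α β γ m ψ)).card * P ^ m ≤
      (P.choose α * P.choose β * P.choose γ * (α * β).choose m * γ ^ m) * P ^ (P * P) := by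
  set S : Finset (Finset (Fin P) × Finset (Fin P) × Finset (Fin P)) :=
    powersetCard α univ ×ˢ (powersetCard β univ ×ˢ powersetCard γ univ) with hS
  let T : Finset (Fin P) × Finset (Fin P) × Finset (Fin P) →
      Finset (Fin P × Fin P → Fin P) := fun x =>
    (powersetCard m (x.1 ×ˢ x.2.1)).biUnion
      (fun J => univ.filter (fun ψ : Fin P × Fin P → Fin P => ∀ p ∈ J, ψ p ∈ x.2.2))
  have hsub : univ.filter (fun ψ : Fin P × Fin P → Fin P => Dense P α β γ m ψ) ⊆
      S.biUnion T := by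
    intro ψ hψ
    obtain ⟨A, B, C, J, hA, hB, hC, hJ, hJAB, hψ⟩ := (mem_filter.mp hψ).2
    rw [mem_biUnion]
    refine ⟨(A, B, C), ?_, ?_⟩
    · simp only [hS, mem_product, mem_powersetCard, subset_univ, true_and]
      exact ⟨hA, hB, hC⟩
    · rw [mem_biUnion]
      exact ⟨J, mem_powersetCard.mpr ⟨hJAB, hJ⟩, mem_filter.mpr ⟨mem_univ _, hψ⟩⟩
  have hJ : ∀ x ∈ S, ∀ J ∈ powersetCard m (x.1 ×ˢ x.2.1),
      (univ.filter (fun ψ : Fin P × Fin P → Fin P => ∀ p ∈ J, ψ p ∈ x.2.2)).card * P ^ m =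
        γ ^ m * P ^ (P * P) := by
    intro x hx J hJ
    have h1 := coins_indep (E := Fin P × Fin P) (Q := P) (fun _ => True) J
      (fun _ _ _ => Iff.rfl) x.2.2
    rw [(mem_powersetCard.mp hJ).2] at h1
    simp only [hS, mem_product, mem_powersetCard, subset_univ, true_and] at hx
    rw [hx.2.2] at h1
    simp only [true_and, filter_true, card_univ, Fintype.card_fun, Fintype.card_prod,
      Fintype.card_fin] at h1
    rw [h1, mul_comm]
  have hT : ∀ x ∈ S, (T x).card * P ^ m ≤ (α * β).choose m * (γ ^ m * P ^ (P * P)) := by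
    intro x hx
    calc (T x).card * P ^ m ≤ (∑ J ∈ powersetCard m (x.1 ×ˢ x.2.1),
          (univ.filter (fun ψ : Fin P × Fin P → Fin P => ∀ p ∈ J, ψ p ∈ x.2.2)).card) * P ^ m :=
        Nat.mul_le_mul_right _ card_biUnion_le
      _ = ∑ J ∈ powersetCard m (x.1 ×ˢ x.2.1), γ ^ m * P ^ (P * P) := by
        rw [sum_mul]
        exact sum_congr rfl (hJ x hx)
      _ = (α * β).choose m * (γ ^ m * P ^ (P * P)) := by
        simp only [hS, mem_product, mem_powersetCard, subset_univ, true_and] at hx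
        rw [sum_const, card_powersetCard, card_product, hx.1, hx.2.1, smul_eq_mul]
  calc (univ.filter (fun ψ : Fin P × Fin P → Fin P => Dense P α β γ m ψ)).card * P ^ m
      ≤ (S.biUnion T).card * P ^ m := Nat.mul_le_mul_right _ (card_le_card hsub)
    _ ≤ (∑ x ∈ S, (T x).card) * P ^ m := Nat.mul_le_mul_right _ card_biUnion_le
    _ = ∑ x ∈ S, (T x).card * P ^ m := by rw [sum_mul]
    _ ≤ ∑ x ∈ S, (α * β).choose m * (γ ^ m * P ^ (P * P)) := sum_le_sum hT
    _ = (P.choose α * P.choose β * P.choose γ * (α * β).choose m * γ ^ m) * P ^ (P * P) := by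
      rw [sum_const, hS, card_product, card_product, card_powersetCard, card_powersetCard,
        card_powersetCard, card_univ, Fintype.card_fin, smul_eq_mul]
      ring

end Pool.Agent.Lib.MP_e8016c_th
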