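import Mathlib
import Pool.Agent.Lib.MP_e8016c_th.PsiDense

/-!
# Row P2: numerical consequences of `card_dense_le`
-/

namespace Pool.Agent.Lib.MP_e8016c_th

open Finset

/-- `h! ≥ (h/3)^h`. -/
theorem pow_self_le (h : ℕ) : h ^ h ≤ 3 ^ h * h.factorial := by
  have h1 := Real.pow_div_factorial_le_exp (x := (h : ℝ)) (Nat.cast_nonneg h) h
  have h2 : Real.exp (h : ℝ) ≤ 3 ^ h := by
    rw [← Real.exp_one_pow]
    exact pow_le_pow_left₀ (Real.exp_pos 1).le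
      (by have := Real.exp_one_lt_d9; linarith) h
  have h3 : (0 : ℝ) < (h.factorial : ℝ) := by exact_mod_cast Nat.factorial_pos h
  rw [div_le_iff₀ h3] at h1
  have h4 : ((h : ℝ)) ^ h ≤ 3 ^ h * (h.factorial : ℝ) :=
    h1.trans (mul_le_mul_of_nonneg_right h2 h3.le)
  exact_mod_cast h4

theorem choose_mul_fact_le (a b : ℕ) : a.choose b * b.factorial ≤ a ^ b := by
  rw [mul_comm, ← Nat.descFactorial_eq_factorial_mul_choose]
  exact Nat.descFactorial_le_pow _ _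

theorem lin_le_two_pow (k : ℕ) (hk : 12 ≤ k) : 160 * (k + 1) ≤ 2 ^ k := by
  induction k, hk using Nat.le_induction with
  | base => norm_num
  | succ k hk ih =>
    rw [pow_succ]
    omega

theorem le_two_pow_div {n : ℕ} (hn : 2000 ≤ n) : n ≤ 2 ^ (n / 160) := by
  have h1 := lin_le_two_pow (n / 160) (by omega)
  have h2 : n ≤ 160 * (n / 160 + 1) := by omega
  exact h2.trans h1

theorem num_a {n : ℕ} (hn : 2000 ≤ n) : (100 * n ^ 3) ^ 12 ≤ 2 ^ (n / 2) := by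
  have h1 := le_two_pow_div hn
  calc (100 * n ^ 3) ^ 12 = 100 ^ 12 * n ^ 36 := by ring
    _ ≤ 2 ^ 80 * (2 ^ (n / 160)) ^ 36 := Nat.mul_le_mul (by norm_num) (Nat.pow_le_pow_left h1 36)
    _ = 2 ^ (80 + n / 160 * 36) := by rw [← pow_mul, ← pow_add]
    _ ≤ 2 ^ (n / 2) := Nat.pow_le_pow_right (by norm_num) (by omega)

theorem num_b {n : ℕ} (hn : 2000 ≤ n) : 16 * (100 * n ^ 3) ≤ 2 ^ (n / 2) := by
  have h1 := le_two_pow_div hn
  calc 16 * (100 * n ^ 3) = 1600 * n ^ 3 := by ring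
    _ ≤ 2 ^ 11 * (2 ^ (n / 160)) ^ 3 := Nat.mul_le_mul (by norm_num) (Nat.pow_le_pow_left h1 3)
    _ = 2 ^ (11 + n / 160 * 3) := by rw [← pow_mul, ← pow_add]
    _ ≤ 2 ^ (n / 2) := Nat.pow_le_pow_right (by norm_num) (by omega)

open Classical in
/-- One value of `h`. -/
theorem small_one {n h : ℕ} (hn : 2000 ≤ n) (h1 : 1 ≤ h) (h2 : h ≤ 100 * n ^ 3) :
    (univ.filter (fun ψ : Fin (2 ^ n) × Fin (2 ^ n) → Fin (2 ^ n) =>
      Dense (2 ^ n) h h h (4 * h) ψ)).card * 2 ^ (n / 2) ≤ (2 ^ n) ^ (2 ^ n * 2 ^ n) := by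
  have h3 := card_dense_le (2 ^ n) h h h (4 * h)
  set D := (univ.filter (fun ψ : Fin (2 ^ n) × Fin (2 ^ n) → Fin (2 ^ n) =>
      Dense (2 ^ n) h h h (4 * h) ψ)).card
  set P := 2 ^ n with hP
  set N := P ^ (P * P)
  set M := 2 ^ (n / 2) with hM
  have hP0 : 0 < P := by positivity
  have hM0 : 0 < M := by positivity
  have hMP : M * M ≤ P := by
    rw [hM, hP, ← pow_add]
    exact Nat.pow_le_pow_right (by norm_num) (by omega)
  have h4 : h ^ 12 ≤ M := (Nat.pow_le_pow_left h2 12).trans (num_a hn)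
  have h5 : D * P ^ h * P ^ (3 * h) ≤ M ^ h * N * P ^ (3 * h) := by
    calc D * P ^ h * P ^ (3 * h) = D * P ^ (4 * h) := by ring
      _ ≤ (P.choose h * P.choose h * P.choose h * (h * h).choose (4 * h) * h ^ (4 * h)) * N := h3
      _ ≤ (P ^ h * P ^ h * P ^ h * (h * h) ^ (4 * h) * h ^ (4 * h)) * N := by
        gcongr <;> exact Nat.choose_le_pow _ _
      _ = (h ^ 12) ^ h * N * P ^ (3 * h) := by ring
      _ ≤ M ^ h * N * P ^ (3 * h) := by gcongr
  have h6 : D * P ^ h ≤ M ^ h * N := Nat.le_of_mul_le_mul_right h5 (by positivity)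
  have h7 : D * M ^ h * M ^ h ≤ N * M ^ h := by
    calc D * M ^ h * M ^ h = D * (M * M) ^ h := by ring
      _ ≤ D * P ^ h := by gcongr
      _ ≤ M ^ h * N := h6
      _ = N * M ^ h := by ring
  have h8 : D * M ^ h ≤ N := Nat.le_of_mul_le_mul_right h7 (by positivity)
  calc D * M ≤ D * M ^ h := by
        gcongr
        exact Nat.le_self_pow (by omega) M
    _ ≤ N := h8

open Classical in
/-- P2a: the events for `small` (`1 ≤ h ≤ 100 n³`, all three hub sets of size `h`, `4h` labels) have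
total density at most `1/16`.
`P^{3h} (h²)^{4h} (h/P)^{4h} = (h^{12}/P)^h ≤ (2^{-n/2})^h`. -/
theorem card_small_bad (n : ℕ) (hn : 2000 ≤ n) :
    16 * (univ.filter (fun ψ : Fin (2 ^ n) × Fin (2 ^ n) → Fin (2 ^ n) =>
      ∃ h, 1 ≤ h ∧ h ≤ 100 * n ^ 3 ∧ Dense (2 ^ n) h h h (4 * h) ψ)).card ≤
      (2 ^ n) ^ (2 ^ n * 2 ^ n) := by
  set N := (2 ^ n) ^ (2 ^ n * 2 ^ n)
  set B := univ.filter (fun ψ : Fin (2 ^ n) × Fin (2 ^ n) → Fin (2 ^ n) =>
      ∃ h, 1 ≤ h ∧ h ≤ 100 * n ^ 3 ∧ Dense (2 ^ n) h h h (4 * h) ψ) with hB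
  have hsub : B ⊆ (Icc 1 (100 * n ^ 3)).biUnion (fun h =>
      univ.filter (fun ψ : Fin (2 ^ n) × Fin (2 ^ n) → Fin (2 ^ n) =>
        Dense (2 ^ n) h h h (4 * h) ψ)) := by
    intro ψ hψ
    obtain ⟨h, h1, h2, h3⟩ := (mem_filter.mp hψ).2
    exact mem_biUnion.mpr ⟨h, mem_Icc.mpr ⟨h1, h2⟩, mem_filter.mpr ⟨mem_univ _, h3⟩⟩
  have h1 : B.card * 2 ^ (n / 2) ≤ (100 * n ^ 3) * N := by
    calc B.card * 2 ^ (n / 2) ≤ (∑ h ∈ Icc 1 (100 * n ^ 3),
          (univ.filter (fun ψ : Fin (2 ^ n) × Fin (2 ^ n) → Fin (2 ^ n) =>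
            Dense (2 ^ n) h h h (4 * h) ψ)).card) * 2 ^ (n / 2) :=
        Nat.mul_le_mul_right _ ((card_le_card hsub).trans card_biUnion_le)
      _ ≤ ∑ h ∈ Icc 1 (100 * n ^ 3), N := by
        rw [sum_mul]
        exact sum_le_sum fun h hh => small_one hn (mem_Icc.mp hh).1 (mem_Icc.mp hh).2
      _ = (100 * n ^ 3) * N := by
        rw [sum_const, Nat.card_Icc, smul_eq_mul, Nat.add_sub_cancel]
  have h2 := num_b hn
  have h3 : 0 < 100 * n ^ 3 := by positivity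
  have h4 : (16 * B.card) * (100 * n ^ 3) ≤ N * (100 * n ^ 3) := by
    calc (16 * B.card) * (100 * n ^ 3) = B.card * (16 * (100 * n ^ 3)) := by ring
      _ ≤ B.card * 2 ^ (n / 2) := by gcongr
      _ ≤ (100 * n ^ 3) * N := h1
      _ = N * (100 * n ^ 3) := by ring
  exact Nat.le_of_mul_le_mul_right h4 h3

/-- The arithmetic of one event for `few`. -/
theorem few_arith {P q h D N a b c : ℕ} (hP : 0 < P) (hh : 1 ≤ h)
    (hqh : 4 * q ^ 2 * h ≤ P) (hPq : P ^ q ≤ 2 ^ h)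
    (hD : D * P ^ (4 * h) ≤ a * b * c * N) (ha : a ≤ P ^ q)
    (hb : b * (h.factorial * h.factorial) ≤ P ^ (2 * h))
    (hc : c * (4 * h).factorial ≤ (q * h ^ 2) ^ (4 * h)) : D * 2 ^ h ≤ N := by
  -- multiply by the factorials
  have h1 : D * P ^ (4 * h) * (h.factorial * h.factorial * (4 * h).factorial) ≤
      P ^ q * P ^ (2 * h) * (q * h ^ 2) ^ (4 * h) * N := by
    calc D * P ^ (4 * h) * (h.factorial * h.factorial * (4 * h).factorial)
        ≤ a * b * c * N * (h.factorial * h.factorial * (4 * h).factorial) :=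
          Nat.mul_le_mul_right _ hD
      _ = a * (b * (h.factorial * h.factorial)) * (c * (4 * h).factorial) * N := by ring
      _ ≤ P ^ q * P ^ (2 * h) * (q * h ^ 2) ^ (4 * h) * N := by gcongr
  have h2 : h ^ h * h ^ h * (4 * h) ^ (4 * h) ≤
      3 ^ (6 * h) * (h.factorial * h.factorial * (4 * h).factorial) := by
    calc h ^ h * h ^ h * (4 * h) ^ (4 * h) ≤ (3 ^ h * h.factorial) * (3 ^ h * h.factorial) *
          (3 ^ (4 * h) * (4 * h).factorial) := by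
          gcongr <;> exact pow_self_le _
      _ = 3 ^ (6 * h) * (h.factorial * h.factorial * (4 * h).factorial) := by ring
  have h3 : D * P ^ (2 * h) * 256 ^ h * (P ^ (2 * h) * h ^ (6 * h)) ≤
      P ^ q * q ^ (4 * h) * h ^ (2 * h) * 729 ^ h * N * (P ^ (2 * h) * h ^ (6 * h)) := by
    calc D * P ^ (2 * h) * 256 ^ h * (P ^ (2 * h) * h ^ (6 * h))
        = D * P ^ (4 * h) * (h ^ h * h ^ h * (4 * h) ^ (4 * h)) := by
          rw [mul_pow 4 h (4 * h), pow_mul 4 4 h, show (4 : ℕ) ^ 4 = 256 by norm_num]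
          ring
      _ ≤ D * P ^ (4 * h) * (3 ^ (6 * h) * (h.factorial * h.factorial * (4 * h).factorial)) := by
          gcongr
      _ = 3 ^ (6 * h) *
          (D * P ^ (4 * h) * (h.factorial * h.factorial * (4 * h).factorial)) := by ring
      _ ≤ 3 ^ (6 * h) * (P ^ q * P ^ (2 * h) * (q * h ^ 2) ^ (4 * h) * N) := by gcongr
      _ = P ^ q * q ^ (4 * h) * h ^ (2 * h) * 729 ^ h * N * (P ^ (2 * h) * h ^ (6 * h)) := by
          rw [pow_mul 3 6 h, show (3 : ℕ) ^ 6 = 729 by norm_num, mul_pow q (h ^ 2) (4 * h)]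
          ring
  have h4 : D * P ^ (2 * h) * 256 ^ h ≤ P ^ q * q ^ (4 * h) * h ^ (2 * h) * 729 ^ h * N :=
    Nat.le_of_mul_le_mul_right h3 (by positivity)
  have h5 : 16 ^ h * q ^ (4 * h) * h ^ (2 * h) ≤ P ^ (2 * h) := by
    calc 16 ^ h * q ^ (4 * h) * h ^ (2 * h) = (4 * q ^ 2 * h) ^ (2 * h) := by
          rw [mul_pow, mul_pow, pow_mul 4 2 h, show (4 : ℕ) ^ 2 = 16 by norm_num]
          ring
      _ ≤ P ^ (2 * h) := by gcongr
  have h6 : D * 4096 ^ h * P ^ (2 * h) ≤ P ^ q * 729 ^ h * N * P ^ (2 * h) := by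
    calc D * 4096 ^ h * P ^ (2 * h) = 16 ^ h * (D * P ^ (2 * h) * 256 ^ h) := by
          rw [show (4096 : ℕ) = 16 * 256 by norm_num, mul_pow]
          ring
      _ ≤ 16 ^ h * (P ^ q * q ^ (4 * h) * h ^ (2 * h) * 729 ^ h * N) := by gcongr
      _ = (16 ^ h * q ^ (4 * h) * h ^ (2 * h)) * (P ^ q * 729 ^ h * N) := by ring
      _ ≤ P ^ (2 * h) * (P ^ q * 729 ^ h * N) := by gcongr
      _ = P ^ q * 729 ^ h * N * P ^ (2 * h) := by ring
  have h7 : D * 4096 ^ h ≤ P ^ q * 729 ^ h * N := Nat.le_of_mul_le_mul_right h6 (by positivity)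
  have h8 : D * 2 ^ h * (2 ^ h * 729 ^ h) ≤ N * (2 ^ h * 729 ^ h) := by
    calc D * 2 ^ h * (2 ^ h * 729 ^ h) = D * (2 * 2 * 729) ^ h := by
          rw [mul_pow, mul_pow]
          ring
      _ ≤ D * 4096 ^ h := by
          gcongr
          norm_num
      _ ≤ P ^ q * 729 ^ h * N := h7
      _ ≤ 2 ^ h * 729 ^ h * N := by gcongr
      _ = N * (2 ^ h * 729 ^ h) := by ring
  exact Nat.le_of_mul_le_mul_right h8 (by positivity)

theorem num_c {n : ℕ} (hn : 2000 ≤ n) :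
    16 * (4 * n * (2 ^ n + 1) * 3) ≤ 2 ^ (100 * n ^ 3) := by
  have h1 : n ≤ 2 ^ n := Nat.lt_two_pow_self.le
  have h2 : 1 ≤ 2 ^ n := Nat.one_le_two_pow
  calc 16 * (4 * n * (2 ^ n + 1) * 3) ≤ 16 * (4 * 2 ^ n * (2 ^ n + 2 ^ n) * 3) := by gcongr
    _ = 384 * (2 ^ n * 2 ^ n) := by ring
    _ ≤ 2 ^ 9 * (2 ^ n * 2 ^ n) := by
        gcongr
        norm_num
    _ = 2 ^ (9 + (n + n)) := by rw [pow_add, pow_add]
    _ ≤ 2 ^ (100 * n ^ 3) := by
        refine Nat.pow_le_pow_right (by norm_num) ?_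
        have h3 : n ≤ n ^ 3 := Nat.le_self_pow (by norm_num) n
        omega

open Classical in
/-- P2b: the events for `few`: exactly one of the three sets has `q` elements, the two others `h`,
`4h` labels; total density at most `1/16`.
`P^q (P^h/h!)² (q h²/P)^{4h} / (4h)! ≤ 2^{nq} [9 (81/256) q⁴ h²/P²]^h ≤ 2^{nq} 4^{-h} ≤ 2^{-h}`,
using `h! ≥ (h/3)^h`, `4 q² h ≤ P`, `n q ≤ h`; sum over `q ≤ 4n`, `h ≥ 100 n³`, three cases. -/
theorem card_few_bad (n : ℕ) (hn : 2000 ≤ n) :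
    16 * (univ.filter (fun ψ : Fin (2 ^ n) × Fin (2 ^ n) → Fin (2 ^ n) =>
      ∃ q h, 1 ≤ q ∧ q ≤ 4 * n ∧ n * q ≤ h ∧ 100 * n ^ 3 ≤ h ∧ 4 * q ^ 2 * h ≤ 2 ^ n ∧
        (Dense (2 ^ n) q h h (4 * h) ψ ∨ Dense (2 ^ n) h q h (4 * h) ψ ∨
          Dense (2 ^ n) h h q (4 * h) ψ))).card ≤
      (2 ^ n) ^ (2 ^ n * 2 ^ n) := by
  let Ds : ℕ → ℕ → ℕ → ℕ → Finset (Fin (2 ^ n) × Fin (2 ^ n) → Fin (2 ^ n)) := fun α β γ m =>
    univ.filter (fun ψ : Fin (2 ^ n) × Fin (2 ^ n) → Fin (2 ^ n) => Dense (2 ^ n) α β γ m ψ)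
  set N := (2 ^ n) ^ (2 ^ n * 2 ^ n) with hN
  set B := univ.filter (fun ψ : Fin (2 ^ n) × Fin (2 ^ n) → Fin (2 ^ n) =>
      ∃ q h, 1 ≤ q ∧ q ≤ 4 * n ∧ n * q ≤ h ∧ 100 * n ^ 3 ≤ h ∧ 4 * q ^ 2 * h ≤ 2 ^ n ∧
        (Dense (2 ^ n) q h h (4 * h) ψ ∨ Dense (2 ^ n) h q h (4 * h) ψ ∨
          Dense (2 ^ n) h h q (4 * h) ψ)) with hB
  let I : Finset (ℕ × ℕ) := (Icc 1 (4 * n) ×ˢ range (2 ^ n + 1)).filter
    (fun x => n * x.1 ≤ x.2 ∧ 100 * n ^ 3 ≤ x.2 ∧ 4 * x.1 ^ 2 * x.2 ≤ 2 ^ n)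
  have hsub : B ⊆ I.biUnion (fun x => Ds x.1 x.2 x.2 (4 * x.2) ∪
      (Ds x.2 x.1 x.2 (4 * x.2) ∪ Ds x.2 x.2 x.1 (4 * x.2))) := by
    intro ψ hψ
    obtain ⟨q, h, h1, h2, h3, h4, h5, h6⟩ := (mem_filter.mp hψ).2
    refine mem_biUnion.mpr ⟨(q, h), ?_, ?_⟩
    · refine mem_filter.mpr ⟨mem_product.mpr ⟨mem_Icc.mpr ⟨h1, h2⟩, mem_range.mpr ?_⟩, h3, h4, h5⟩
      have h7 : h ≤ 4 * q ^ 2 * h := Nat.le_mul_of_pos_left h (by positivity)
      change h < 2 ^ n + 1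
      omega
    · simp only [mem_union, Ds, mem_filter, mem_univ, true_and]
      exact h6
  have hone : ∀ x ∈ I, (Ds x.1 x.2 x.2 (4 * x.2) ∪
      (Ds x.2 x.1 x.2 (4 * x.2) ∪ Ds x.2 x.2 x.1 (4 * x.2))).card * 2 ^ (100 * n ^ 3) ≤ 3 * N := by
    rintro ⟨q, h⟩ hx
    obtain ⟨hx1, h3, h4, h5⟩ := mem_filter.mp hx
    obtain ⟨hq1, hq2⟩ := mem_Icc.mp (mem_product.mp hx1).1
    dsimp only at h3 h4 h5 hq1 hq2 ⊢
    have hn3 : 1 ≤ n ^ 3 := Nat.one_le_pow _ _ (by omega)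
    have hh : 1 ≤ h := by omega
    have hPq : (2 ^ n) ^ q ≤ 2 ^ h := by
      rw [← pow_mul]
      exact Nat.pow_le_pow_right (by norm_num) h3
    have hP0 : 0 < 2 ^ n := by positivity
    have hfac : (2 ^ n).choose h * (2 ^ n).choose h * (h.factorial * h.factorial) ≤
        (2 ^ n) ^ (2 * h) := by
      calc (2 ^ n).choose h * (2 ^ n).choose h * (h.factorial * h.factorial)
          = ((2 ^ n).choose h * h.factorial) * ((2 ^ n).choose h * h.factorial) := by ring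
        _ ≤ (2 ^ n) ^ h * (2 ^ n) ^ h :=
          Nat.mul_le_mul (choose_mul_fact_le _ _) (choose_mul_fact_le _ _)
        _ = (2 ^ n) ^ (2 * h) := by ring
    have hc1 : ((q * h).choose (4 * h) * h ^ (4 * h)) * (4 * h).factorial ≤
        (q * h ^ 2) ^ (4 * h) := by
      calc ((q * h).choose (4 * h) * h ^ (4 * h)) * (4 * h).factorial
          = ((q * h).choose (4 * h) * (4 * h).factorial) * h ^ (4 * h) := by ring
        _ ≤ (q * h) ^ (4 * h) * h ^ (4 * h) := Nat.mul_le_mul_right _ (choose_mul_fact_le _ _)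
        _ = (q * h ^ 2) ^ (4 * h) := by
          rw [← mul_pow]
          congr 1
          ring
    have hc2 : ((h * h).choose (4 * h) * q ^ (4 * h)) * (4 * h).factorial ≤
        (q * h ^ 2) ^ (4 * h) := by
      calc ((h * h).choose (4 * h) * q ^ (4 * h)) * (4 * h).factorial
          = ((h * h).choose (4 * h) * (4 * h).factorial) * q ^ (4 * h) := by ring
        _ ≤ (h * h) ^ (4 * h) * q ^ (4 * h) := Nat.mul_le_mul_right _ (choose_mul_fact_le _ _)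
        _ = (q * h ^ 2) ^ (4 * h) := by
          rw [← mul_pow]
          congr 1
          ring
    have hpow : 2 ^ (100 * n ^ 3) ≤ 2 ^ h := Nat.pow_le_pow_right (by norm_num) h4
    have e1 : (Ds q h h (4 * h)).card * 2 ^ (100 * n ^ 3) ≤ N := by
      have h6 := card_dense_le (2 ^ n) q h h (4 * h)
      have h7 := few_arith (D := (Ds q h h (4 * h)).card) (N := N) (a := (2 ^ n).choose q)
        (b := (2 ^ n).choose h * (2 ^ n).choose h)
        (c := (q * h).choose (4 * h) * h ^ (4 * h)) hP0 hh h5 hPq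
        (h6.trans (le_of_eq (by ring))) (Nat.choose_le_pow _ _) hfac hc1
      exact (Nat.mul_le_mul_left _ hpow).trans h7
    have e2 : (Ds h q h (4 * h)).card * 2 ^ (100 * n ^ 3) ≤ N := by
      have h6 := card_dense_le (2 ^ n) h q h (4 * h)
      have h7 := few_arith (D := (Ds h q h (4 * h)).card) (N := N) (a := (2 ^ n).choose q)
        (b := (2 ^ n).choose h * (2 ^ n).choose h)
        (c := (q * h).choose (4 * h) * h ^ (4 * h)) hP0 hh h5 hPq
        (h6.trans (le_of_eq (by rw [mul_comm h q]; ring))) (Nat.choose_le_pow _ _) hfac hc1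
      exact (Nat.mul_le_mul_left _ hpow).trans h7
    have e3 : (Ds h h q (4 * h)).card * 2 ^ (100 * n ^ 3) ≤ N := by
      have h6 := card_dense_le (2 ^ n) h h q (4 * h)
      have h7 := few_arith (D := (Ds h h q (4 * h)).card) (N := N) (a := (2 ^ n).choose q)
        (b := (2 ^ n).choose h * (2 ^ n).choose h)
        (c := (h * h).choose (4 * h) * q ^ (4 * h)) hP0 hh h5 hPq
        (h6.trans (le_of_eq (by ring))) (Nat.choose_le_pow _ _) hfac hc2
      exact (Nat.mul_le_mul_left _ hpow).trans h7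
    calc (Ds q h h (4 * h) ∪ (Ds h q h (4 * h) ∪ Ds h h q (4 * h))).card * 2 ^ (100 * n ^ 3)
        ≤ ((Ds q h h (4 * h)).card + ((Ds h q h (4 * h)).card + (Ds h h q (4 * h)).card)) *
          2 ^ (100 * n ^ 3) :=
          Nat.mul_le_mul_right _ ((card_union_le _ _).trans
            (Nat.add_le_add_left (card_union_le _ _) _))
      _ = (Ds q h h (4 * h)).card * 2 ^ (100 * n ^ 3) +
          ((Ds h q h (4 * h)).card * 2 ^ (100 * n ^ 3) +
            (Ds h h q (4 * h)).card * 2 ^ (100 * n ^ 3)) := by ring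
      _ ≤ N + (N + N) := Nat.add_le_add e1 (Nat.add_le_add e2 e3)
      _ = 3 * N := by ring
  have hIcard : I.card ≤ 4 * n * (2 ^ n + 1) := by
    calc I.card ≤ (Icc 1 (4 * n) ×ˢ range (2 ^ n + 1)).card := card_filter_le _ _
      _ = 4 * n * (2 ^ n + 1) := by
        rw [card_product, Nat.card_Icc, card_range, Nat.add_sub_cancel]
  have h1 : B.card * 2 ^ (100 * n ^ 3) ≤ (4 * n * (2 ^ n + 1) * 3) * N := by
    calc B.card * 2 ^ (100 * n ^ 3) ≤ (∑ x ∈ I, (Ds x.1 x.2 x.2 (4 * x.2) ∪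
          (Ds x.2 x.1 x.2 (4 * x.2) ∪ Ds x.2 x.2 x.1 (4 * x.2))).card) * 2 ^ (100 * n ^ 3) :=
        Nat.mul_le_mul_right _ ((card_le_card hsub).trans card_biUnion_le)
      _ ≤ ∑ x ∈ I, 3 * N := by
        rw [sum_mul]
        exact sum_le_sum hone
      _ = I.card * (3 * N) := by rw [sum_const, smul_eq_mul]
      _ ≤ (4 * n * (2 ^ n + 1)) * (3 * N) := Nat.mul_le_mul_right _ hIcard
      _ = (4 * n * (2 ^ n + 1) * 3) * N := by ring
  have h2 := num_c hn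
  have h3 : 0 < 4 * n * (2 ^ n + 1) * 3 := by positivity
  have h4 : (16 * B.card) * (4 * n * (2 ^ n + 1) * 3) ≤ N * (4 * n * (2 ^ n + 1) * 3) := by
    calc (16 * B.card) * (4 * n * (2 ^ n + 1) * 3)
        = B.card * (16 * (4 * n * (2 ^ n + 1) * 3)) := by ring
      _ ≤ B.card * 2 ^ (100 * n ^ 3) := Nat.mul_le_mul_left _ h2
      _ ≤ (4 * n * (2 ^ n + 1) * 3) * N := h1
      _ = N * (4 * n * (2 ^ n + 1) * 3) := by ring
  exact Nat.le_of_mul_le_mul_right h4 h3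

end Pool.Agent.Lib.MP_e8016c_th
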