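import Mathlib
import Pool.Agent.Lib.MP_e8016c_th.PsiCount

/-!
# Row P3: existence of the linear triple system

`φ p = ![p.1, p.2, ψ p]`.  `Λ₀ = {p : p.1, p.2 < 2^(n-2)}`, `P = 2^n`.  `Λ` = labels `p ∈ Λ₀`
without conflict: no `p' ∈ Λ₀`, `p' ≠ p`, with `ψ p' = ψ p` and (`p'.1 = p.1` or `p'.2 = p.2`).
Averaging: for fixed `p` there are at most `2 · 2^(n-2) = P/2` such `p'`, each in conflict for a
`1/P` fraction of the `ψ`, so `p ∈ Λ` for at least half of the `ψ`; hence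
`Σ_ψ #Λ(ψ) ≥ (#Λ₀ / 2) #Ψ`.  The bad `ψ` (`card_small_bad`, `card_few_bad`: together at most `1/8`
of all) contribute at most `#Λ₀ #Ψ / 8`, so some good `ψ` has `#Λ ≥ (3/8) #Λ₀ = 3 P²/128 ≥ P²/64`.
For this `ψ`: `lin` is clear; `small`, `few`: a set `J ⊆ Λ` with `J.card ≥ 4h` and small images
has a subset of size `4h`, and the images can be enlarged to sets of size exactly `h`, `q`.
-/

namespace Pool.Agent.Lib.MP_e8016c_th

open Finset

namespace PsiAux

/-- the number of maps with equal values at two given places -/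
theorem card_eq_le {P : ℕ} (p p' : Fin P × Fin P) (hp : p' ≠ p) :
    (univ.filter (fun ψ : Fin P × Fin P → Fin P => ψ p' = ψ p)).card * P ≤ P ^ (P * P) := by
  classical
  have h1 : (univ.filter (fun ψ : Fin P × Fin P → Fin P => ψ p' = ψ p)).card * P =
      ((univ.filter (fun ψ : Fin P × Fin P → Fin P => ψ p' = ψ p)) ×ˢ
        (univ : Finset (Fin P))).card := by
    rw [card_product]; simp
  have h2 : P ^ (P * P) = (univ : Finset (Fin P × Fin P → Fin P)).card := by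
    rw [card_univ]; simp
  rw [h1, h2]
  refine card_le_card_of_injOn (fun z => Function.update z.1 p' z.2) (fun _ _ => by simp) ?_
  rintro ⟨ψ, c⟩ hz ⟨ψ', c'⟩ hz' heq
  simp only [coe_product, coe_univ, Set.mem_prod, mem_coe, mem_filter, mem_univ, true_and,
    Set.mem_univ, and_true] at hz hz'
  simp only at heq
  have hval : ∀ x, Function.update ψ p' c x = Function.update ψ' p' c' x := fun x => by rw [heq]
  have hc : c = c' := by simpa using hval p'
  have hψ : ∀ x, x ≠ p' → ψ x = ψ' x := fun x hx => by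
    have := hval x
    rwa [Function.update_of_ne hx, Function.update_of_ne hx] at this
  have : ψ = ψ' := by
    funext x
    by_cases hx : x = p'
    · rw [hx, hz, hz', hψ p (Ne.symm hp)]
    · exact hψ x hx
  rw [this, hc]

/-- the small square of labels -/
def baseSq (n : ℕ) : Finset (Fin (2 ^ n) × Fin (2 ^ n)) :=
  univ.filter (fun p => (p.1 : ℕ) < 2 ^ (n - 2) ∧ (p.2 : ℕ) < 2 ^ (n - 2))

theorem card_lt {n : ℕ} : (univ.filter (fun a : Fin (2 ^ n) => (a : ℕ) < 2 ^ (n - 2))).card =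
    2 ^ (n - 2) := by
  have hle : 2 ^ (n - 2) ≤ 2 ^ n := Nat.pow_le_pow_right (by norm_num) (Nat.sub_le _ _)
  have : (univ.filter (fun a : Fin (2 ^ n) => (a : ℕ) < 2 ^ (n - 2))) =
      (univ : Finset (Fin (2 ^ (n - 2)))).map (Fin.castLEEmb hle) := by
    ext a
    simp only [mem_filter, mem_univ, true_and, mem_map, Fin.castLEEmb_apply]
    constructor
    · intro h; exact ⟨⟨a, h⟩, by ext; simp⟩
    · rintro ⟨b, rfl⟩; simp
  rw [this]; simp

theorem card_baseSq (n : ℕ) : (baseSq n).card = 2 ^ (n - 2) * 2 ^ (n - 2) := by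
  have : baseSq n = (univ.filter (fun a : Fin (2 ^ n) => (a : ℕ) < 2 ^ (n - 2))) ×ˢ
      (univ.filter (fun a : Fin (2 ^ n) => (a : ℕ) < 2 ^ (n - 2))) := by
    ext p; simp [baseSq]
  rw [this, card_product, card_lt]

/-- conflict between two labels -/
def Conf {n : ℕ} (ψ : Fin (2 ^ n) × Fin (2 ^ n) → Fin (2 ^ n))
    (p p' : Fin (2 ^ n) × Fin (2 ^ n)) : Prop :=
  p' ≠ p ∧ ψ p' = ψ p ∧ (p'.1 = p.1 ∨ p'.2 = p.2)

open Classical in
/-- labels without conflict -/
noncomputable def lam {n : ℕ} (ψ : Fin (2 ^ n) × Fin (2 ^ n) → Fin (2 ^ n)) :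
    Finset (Fin (2 ^ n) × Fin (2 ^ n)) :=
  (baseSq n).filter (fun p => ∀ p' ∈ baseSq n, ¬ Conf ψ p p')

open Classical in
/-- the possible partners of `p` -/
theorem card_partners {n : ℕ} (hn : 2 ≤ n) (p : Fin (2 ^ n) × Fin (2 ^ n)) :
    2 * ((baseSq n).filter (fun p' => p'.1 = p.1 ∨ p'.2 = p.2)).card ≤ 2 ^ n := by
  have h1 : ((baseSq n).filter (fun p' => p'.1 = p.1)).card ≤ 2 ^ (n - 2) := by
    rw [← card_lt (n := n)]
    refine card_le_card_of_injOn (fun q => q.2) ?_ ?_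
    · intro q hq
      simp only [baseSq, coe_filter, mem_filter, mem_univ, true_and, Set.mem_ofPred_eq] at hq ⊢
      exact hq.1.2
    · intro q hq q' hq' h
      simp only [baseSq, coe_filter, mem_filter, mem_univ, true_and, Set.mem_ofPred_eq] at hq hq'
      exact Prod.ext (hq.2.trans hq'.2.symm) h
  have h2 : ((baseSq n).filter (fun p' => p'.2 = p.2)).card ≤ 2 ^ (n - 2) := by
    rw [← card_lt (n := n)]
    refine card_le_card_of_injOn (fun q => q.1) ?_ ?_
    · intro q hq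
      simp only [baseSq, coe_filter, mem_filter, mem_univ, true_and, Set.mem_ofPred_eq] at hq ⊢
      exact hq.1.1
    · intro q hq q' hq' h
      simp only [baseSq, coe_filter, mem_filter, mem_univ, true_and, Set.mem_ofPred_eq] at hq hq'
      exact Prod.ext h (hq.2.trans hq'.2.symm)
  have h3 : ((baseSq n).filter (fun p' => p'.1 = p.1 ∨ p'.2 = p.2)).card ≤
      2 ^ (n - 2) + 2 ^ (n - 2) := by
    rw [filter_or]
    exact (card_union_le _ _).trans (Nat.add_le_add h1 h2)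
  have h4 : 2 ^ n = 4 * 2 ^ (n - 2) := by
    obtain ⟨m, rfl⟩ := Nat.exists_eq_add_of_le hn
    have : 2 + m - 2 = m := by omega
    rw [this, pow_add]; norm_num
  omega

open Classical in
/-- every label has a conflict for at most half of the maps -/
theorem card_conf {n : ℕ} (hn : 2 ≤ n) (p : Fin (2 ^ n) × Fin (2 ^ n)) :
    2 * (univ.filter (fun ψ : Fin (2 ^ n) × Fin (2 ^ n) → Fin (2 ^ n) =>
      ∃ p' ∈ baseSq n, Conf ψ p p')).card ≤ (2 ^ n) ^ (2 ^ n * 2 ^ n) := by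
  set A := (baseSq n).filter (fun p' => p'.1 = p.1 ∨ p'.2 = p.2) with hA
  have h1 : (univ.filter (fun ψ : Fin (2 ^ n) × Fin (2 ^ n) → Fin (2 ^ n) =>
      ∃ p' ∈ baseSq n, Conf ψ p p')) ⊆ (A.filter (fun p' => p' ≠ p)).biUnion
        (fun p' => univ.filter (fun ψ => ψ p' = ψ p)) := by
    intro ψ hψ
    simp only [mem_filter, mem_univ, true_and] at hψ
    obtain ⟨p', hp', hne, he, hor⟩ := hψ
    simp only [mem_biUnion, mem_filter, mem_univ, true_and, hA]
    exact ⟨p', ⟨⟨hp', hor⟩, hne⟩, he⟩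
  have h2 : (univ.filter (fun ψ : Fin (2 ^ n) × Fin (2 ^ n) → Fin (2 ^ n) =>
      ∃ p' ∈ baseSq n, Conf ψ p p')).card * 2 ^ n ≤ A.card * (2 ^ n) ^ (2 ^ n * 2 ^ n) := by
    calc _ ≤ (∑ p' ∈ A.filter (fun p' => p' ≠ p),
          (univ.filter (fun ψ : Fin (2 ^ n) × Fin (2 ^ n) → Fin (2 ^ n) => ψ p' = ψ p)).card) *
            2 ^ n := Nat.mul_le_mul_right _ ((card_le_card h1).trans card_biUnion_le)
      _ = ∑ p' ∈ A.filter (fun p' => p' ≠ p),
          (univ.filter (fun ψ : Fin (2 ^ n) × Fin (2 ^ n) → Fin (2 ^ n) => ψ p' = ψ p)).card *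
            2 ^ n := by rw [sum_mul]
      _ ≤ ∑ p' ∈ A.filter (fun p' => p' ≠ p), (2 ^ n) ^ (2 ^ n * 2 ^ n) := by
          refine sum_le_sum fun p' hp' => ?_
          exact card_eq_le p p' (mem_filter.1 hp').2
      _ = (A.filter (fun p' => p' ≠ p)).card * (2 ^ n) ^ (2 ^ n * 2 ^ n) := by
          rw [sum_const, smul_eq_mul]
      _ ≤ _ := Nat.mul_le_mul_right _ (card_le_card (filter_subset _ _))
  have h3 := card_partners hn p
  rw [← hA] at h3
  have hpos : 0 < 2 ^ n := by positivity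
  refine Nat.le_of_mul_le_mul_right ?_ hpos
  calc _ = 2 * ((univ.filter (fun ψ : Fin (2 ^ n) × Fin (2 ^ n) → Fin (2 ^ n) =>
      ∃ p' ∈ baseSq n, Conf ψ p p')).card * 2 ^ n) := by ring
    _ ≤ 2 * (A.card * (2 ^ n) ^ (2 ^ n * 2 ^ n)) := Nat.mul_le_mul_left _ h2
    _ = (2 * A.card) * (2 ^ n) ^ (2 ^ n * 2 ^ n) := by ring
    _ ≤ 2 ^ n * (2 ^ n) ^ (2 ^ n * 2 ^ n) := Nat.mul_le_mul_right _ h3
    _ = _ := by ring

open Classical in
/-- the average of `#Λ(ψ)` -/
theorem sum_lam {n : ℕ} (hn : 2 ≤ n) :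
    (baseSq n).card * (2 ^ n) ^ (2 ^ n * 2 ^ n) ≤
      2 * ∑ ψ : Fin (2 ^ n) × Fin (2 ^ n) → Fin (2 ^ n), (lam ψ).card := by
  have h1 : ∑ ψ : Fin (2 ^ n) × Fin (2 ^ n) → Fin (2 ^ n), (lam ψ).card =
      ∑ p ∈ baseSq n, (univ.filter (fun ψ : Fin (2 ^ n) × Fin (2 ^ n) → Fin (2 ^ n) =>
        ∀ p' ∈ baseSq n, ¬ Conf ψ p p')).card := by
    simp only [lam, card_filter]
    rw [sum_comm]
  rw [h1, mul_sum]
  have h2 : (baseSq n).card * (2 ^ n) ^ (2 ^ n * 2 ^ n) =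
      ∑ p ∈ baseSq n, (2 ^ n) ^ (2 ^ n * 2 ^ n) := by rw [sum_const, smul_eq_mul]
  rw [h2]
  refine sum_le_sum fun p _ => ?_
  have h3 := card_conf hn p
  have h4 : (univ.filter (fun ψ : Fin (2 ^ n) × Fin (2 ^ n) → Fin (2 ^ n) =>
        ∀ p' ∈ baseSq n, ¬ Conf ψ p p')).card + (univ.filter
        (fun ψ : Fin (2 ^ n) × Fin (2 ^ n) → Fin (2 ^ n) =>
          ∃ p' ∈ baseSq n, Conf ψ p p')).card = (2 ^ n) ^ (2 ^ n * 2 ^ n) := by
    have h5 := card_filter_add_card_filter_not (s := (univ : Finset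
      (Fin (2 ^ n) × Fin (2 ^ n) → Fin (2 ^ n)))) (fun ψ => ∀ p' ∈ baseSq n, ¬ Conf ψ p p')
    have h6 : (univ : Finset (Fin (2 ^ n) × Fin (2 ^ n) → Fin (2 ^ n))).card =
        (2 ^ n) ^ (2 ^ n * 2 ^ n) := by rw [card_univ]; simp
    rw [h6] at h5
    rw [← h5]
    congr 2
    ext ψ
    simp
  omega

theorem cube_le (n : ℕ) (hn : 2000 ≤ n) : 100 * n ^ 3 ≤ 2 ^ n := by
  induction n, hn using Nat.le_induction with
  | base =>
    calc 100 * 2000 ^ 3 ≤ 2 ^ 40 := by norm_num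
      _ ≤ 2 ^ 2000 := Nat.pow_le_pow_right (by norm_num) (by norm_num)
  | succ m hm ih =>
    have h : (m + 1) ^ 3 ≤ 2 * m ^ 3 := by nlinarith [mul_pos (show 0 < m by omega) (show 0 < m by omega)]
    calc 100 * (m + 1) ^ 3 ≤ 100 * (2 * m ^ 3) := Nat.mul_le_mul_left _ h
      _ = 2 * (100 * m ^ 3) := by ring
      _ ≤ 2 * 2 ^ m := Nat.mul_le_mul_left _ ih
      _ = 2 ^ (m + 1) := by ring

/-- a set of labels with small images gives a dense configuration -/
theorem dense_of {n α β γ m : ℕ} (ψ : Fin (2 ^ n) × Fin (2 ^ n) → Fin (2 ^ n))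
    (hα : α ≤ 2 ^ n) (hβ : β ≤ 2 ^ n) (hγ : γ ≤ 2 ^ n)
    (J : Finset (Fin (2 ^ n) × Fin (2 ^ n))) (h0 : (J.image (fun p => p.1)).card ≤ α)
    (h1 : (J.image (fun p => p.2)).card ≤ β) (h2 : (J.image (fun p => ψ p)).card ≤ γ)
    (hm : m ≤ J.card) : Dense (2 ^ n) α β γ m ψ := by
  obtain ⟨J', hJ', hJc⟩ := exists_subset_card_eq hm
  obtain ⟨A, hA, -, hAc⟩ := exists_subsuperset_card_eq (subset_univ (J.image (fun p => p.1))) h0
    (by simpa using hα)
  obtain ⟨B, hB, -, hBc⟩ := exists_subsuperset_card_eq (subset_univ (J.image (fun p => p.2))) h1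
    (by simpa using hβ)
  obtain ⟨C, hC, -, hCc⟩ := exists_subsuperset_card_eq (subset_univ (J.image (fun p => ψ p))) h2
    (by simpa using hγ)
  refine ⟨A, B, C, J', hAc, hBc, hCc, hJc, fun p hp => ?_, fun p hp => ?_⟩
  · rw [mem_product]
    exact ⟨hA (mem_image_of_mem _ (hJ' hp)), hB (mem_image_of_mem _ (hJ' hp))⟩
  · exact hC (mem_image_of_mem _ (hJ' hp))

end PsiAux

open PsiAux

open Classical in
theorem exists_linSys (n : ℕ) (hn : 2000 ≤ n) : Nonempty (LinSys n) := by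
  -- the bad maps
  set B1 := univ.filter (fun ψ : Fin (2 ^ n) × Fin (2 ^ n) → Fin (2 ^ n) =>
      ∃ h, 1 ≤ h ∧ h ≤ 100 * n ^ 3 ∧ Dense (2 ^ n) h h h (4 * h) ψ) with hB1
  set B2 := univ.filter (fun ψ : Fin (2 ^ n) × Fin (2 ^ n) → Fin (2 ^ n) =>
      ∃ q h, 1 ≤ q ∧ q ≤ 4 * n ∧ n * q ≤ h ∧ 100 * n ^ 3 ≤ h ∧ 4 * q ^ 2 * h ≤ 2 ^ n ∧
        (Dense (2 ^ n) q h h (4 * h) ψ ∨ Dense (2 ^ n) h q h (4 * h) ψ ∨
          Dense (2 ^ n) h h q (4 * h) ψ)) with hB2
  have hb1 : 16 * B1.card ≤ (2 ^ n) ^ (2 ^ n * 2 ^ n) := card_small_bad n hn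
  have hb2 : 16 * B2.card ≤ (2 ^ n) ^ (2 ^ n * 2 ^ n) := card_few_bad n hn
  have hn2 : 2 ≤ n := by omega
  have hsum := sum_lam hn2
  have hsq : 16 * (baseSq n).card = 4 ^ n := by
    rw [card_baseSq]
    obtain ⟨m, rfl⟩ := Nat.exists_eq_add_of_le hn2
    have : 2 + m - 2 = m := by omega
    rw [this, pow_add, ← mul_pow]
    norm_num
  -- a good map with many labels
  obtain ⟨ψ, hψ1, hψ2, hψ⟩ : ∃ ψ : Fin (2 ^ n) × Fin (2 ^ n) → Fin (2 ^ n), ψ ∉ B1 ∧ ψ ∉ B2 ∧
      4 ^ n ≤ 2 ^ 6 * (lam ψ).card := by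
    by_contra hcon
    push Not at hcon
    have hle : ∀ ψ : Fin (2 ^ n) × Fin (2 ^ n) → Fin (2 ^ n), 64 * (lam ψ).card ≤
        4 ^ n + (if ψ ∈ B1 ∪ B2 then 4 * 4 ^ n else 0) := by
      intro ψ
      split_ifs with h
      · have : (lam ψ).card ≤ (baseSq n).card := card_le_card (filter_subset _ _)
        omega
      · rw [mem_union, not_or] at h
        have := hcon ψ h.1 h.2
        norm_num at this ⊢
        omega
    have h1 := sum_le_sum (fun ψ (_ : ψ ∈ (univ : Finset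
      (Fin (2 ^ n) × Fin (2 ^ n) → Fin (2 ^ n)))) => hle ψ)
    rw [← mul_sum, sum_add_distrib, sum_const, smul_eq_mul, ← sum_filter, sum_const, smul_eq_mul]
      at h1
    have h2 : (univ : Finset (Fin (2 ^ n) × Fin (2 ^ n) → Fin (2 ^ n))).card =
        (2 ^ n) ^ (2 ^ n * 2 ^ n) := by rw [card_univ]; simp
    have h3 : (univ.filter (fun ψ => ψ ∈ B1 ∪ B2)).card ≤ B1.card + B2.card := by
      rw [filter_mem_eq_inter, univ_inter]
      exact card_union_le _ _
    rw [h2] at h1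
    set S := ∑ ψ : Fin (2 ^ n) × Fin (2 ^ n) → Fin (2 ^ n), (lam ψ).card with hS
    set W := (2 ^ n) ^ (2 ^ n * 2 ^ n) with hW
    set U := (univ.filter (fun ψ => ψ ∈ B1 ∪ B2)).card with hU
    set Q := 4 ^ n with hQ
    have hWpos : 0 < W := by positivity
    have hQpos : 0 < Q := by positivity
    have h4 : 8 * U ≤ W := by omega
    have h5 : 8 * U * Q ≤ W * Q := Nat.mul_le_mul_right _ h4
    have h6 : 16 * ((baseSq n).card * W) = Q * W := by rw [← mul_assoc, hsq]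
    have h7 : 0 < W * Q := Nat.mul_pos hWpos hQpos
    nlinarith
  -- the system
  have hmem : ∀ p, p ∈ lam ψ → p ∈ baseSq n ∧ ∀ p' ∈ baseSq n, ¬ Conf ψ p p' := fun p hp => by
    simpa [lam] using hp
  have hcube := cube_le n hn
  refine ⟨⟨fun p => ![p.1, p.2, ψ p], lam ψ, hψ, ?_, ?_, ?_⟩⟩
  · intro p hp p' hp' hne i j hij hi hj
    have hp1 := hmem p hp
    have hp2 := hmem p' hp'
    have hno := hp1.2 p' hp2.1
    have h01 : p.1 = p'.1 → p.2 = p'.2 → False := fun h1 h2 => hne (Prod.ext h1 h2)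
    have h02 : p.1 = p'.1 → ψ p = ψ p' → False := fun h1 h2 =>
      hno ⟨Ne.symm hne, h2.symm, Or.inl h1.symm⟩
    have h12 : p.2 = p'.2 → ψ p = ψ p' → False := fun h1 h2 =>
      hno ⟨Ne.symm hne, h2.symm, Or.inr h1.symm⟩
    fin_cases i <;> fin_cases j <;> simp at hij hi hj
    · exact h01 hi hj
    · exact h02 hi hj
    · exact h01 hj hi
    · exact h12 hi hj
    · exact h02 hj hi
    · exact h12 hj hi
  · intro h hh1 hh2 J _ himg
    by_contra hcon
    push Not at hcon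
    have hhP : h ≤ 2 ^ n := hh2.trans hcube
    refine hψ1 ?_
    rw [hB1, mem_filter]
    refine ⟨mem_univ _, h, hh1, hh2, dense_of ψ hhP hhP hhP J ?_ ?_ ?_ hcon⟩
    · simpa using himg 0
    · simpa using himg 1
    · simpa using himg 2
  · intro i q h hq1 hq2 hnq hh hqh J _ hi hj
    by_contra hcon
    push Not at hcon
    have hhP : h ≤ 2 ^ n := by
      refine le_trans ?_ hqh
      have : 1 ≤ 4 * q ^ 2 := by nlinarith [Nat.one_le_pow 2 q (by omega)]
      calc h = 1 * h := (one_mul h).symm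
        _ ≤ 4 * q ^ 2 * h := Nat.mul_le_mul_right _ this
    have hqP : q ≤ 2 ^ n := by
      refine le_trans ?_ hhP
      refine le_trans ?_ hnq
      calc q = 1 * q := (one_mul q).symm
        _ ≤ n * q := Nat.mul_le_mul_right _ (by omega)
    refine hψ2 ?_
    rw [hB2, mem_filter]
    refine ⟨mem_univ _, q, h, hq1, hq2, hnq, hh, hqh, ?_⟩
    fin_cases i
    · refine Or.inl (dense_of ψ hqP hhP hhP J ?_ ?_ ?_ hcon)
      · simpa using hi
      · simpa using hj 1 (by decide)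
      · simpa using hj 2 (by decide)
    · refine Or.inr (Or.inl (dense_of ψ hhP hqP hhP J ?_ ?_ ?_ hcon))
      · simpa using hj 0 (by decide)
      · simpa using hi
      · simpa using hj 2 (by decide)
    · refine Or.inr (Or.inr (dense_of ψ hhP hhP hqP J ?_ ?_ ?_ hcon))
      · simpa using hj 0 (by decide)
      · simpa using hj 1 (by decide)
      · simpa using hi

end Pool.Agent.Lib.MP_e8016c_th
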