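import Mathlib
import Pool.Agent.Lib.MP_e8016c_th.GCount
import Pool.Agent.Lib.MP_e8016c_th.Psi

/-!
# Row G5: existence of the label system

For a `LinSys` and coins `g` let `Λ(g)` be the set of `p ∈ Λ` whose three hub pairs are in `GRel g`.
Each `p` is in `Λ(g)` for exactly a `2^(-72)` fraction of the `g` (`coins_indep`, three distinct
elements of `Sym2`), so `Σ_g #Λ(g) = #Λ 2^(-72) #Ω`.  The bad `g` are at most a `3 · 2^(-80)`
fraction, so some good `g` has `#Λ(g) ≥ 2^(-73) #Λ`.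
-/

namespace Pool.Agent.Lib.MP_e8016c_th

open Finset

namespace GRandAux

/-- The three hub pairs of a label. -/
def trip {n : ℕ} (x y z : Fin (2 ^ n)) : Finset (Sym2 (Hub n)) :=
  {s((0, x), (1, y)), s((0, x), (2, z)), s((1, y), (2, z))}

lemma trip_card {n : ℕ} (x y z : Fin (2 ^ n)) : (trip x y z).card = 3 := by
  unfold trip
  rw [Finset.card_eq_three]
  refine ⟨_, _, _, ?_, ?_, ?_, rfl⟩ <;>
  · rw [Ne, Sym2.eq_iff]
    simp

lemma trip_iff {n : ℕ} (g : Sym2 (Hub n) → Fin (2 ^ 24)) (w : Fin 3 → Fin (2 ^ n)) :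
    (∀ i j, i ≠ j → GRel g (i, w i) (j, w j)) ↔
      True ∧ ∀ e ∈ trip (w 0) (w 1) (w 2), g e ∈ ({0} : Finset (Fin (2 ^ 24))) := by
  unfold trip GRel
  constructor
  · intro h
    refine ⟨trivial, fun e he => ?_⟩
    rw [Finset.mem_singleton]
    simp only [Finset.mem_insert, Finset.mem_singleton] at he
    rcases he with rfl | rfl | rfl
    · exact h 0 1 (by decide)
    · exact h 0 2 (by decide)
    · exact h 1 2 (by decide)
  · rintro ⟨-, h⟩ i j hij
    have h01 := Finset.mem_singleton.1 (h s((0, w 0), (1, w 1)) (by simp))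
    have h02 := Finset.mem_singleton.1 (h s((0, w 0), (2, w 2)) (by simp))
    have h12 := Finset.mem_singleton.1 (h s((1, w 1), (2, w 2)) (by simp))
    have h10 := h01
    have h20 := h02
    have h21 := h12
    rw [Sym2.eq_swap] at h10 h20 h21
    fin_cases i <;> fin_cases j <;> first | exact absurd rfl hij | assumption

open Classical in
lemma count {n : ℕ} (w : Fin 3 → Fin (2 ^ n)) :
    (univ.filter (fun g : Sym2 (Hub n) → Fin (2 ^ 24) =>
      ∀ i j, i ≠ j → GRel g (i, w i) (j, w j))).card * 2 ^ 72 =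
      (2 ^ 24) ^ Fintype.card (Sym2 (Hub n)) := by
  have h := coins_indep (Q := 2 ^ 24) (fun _ : Sym2 (Hub n) → Fin (2 ^ 24) => True)
    (trip (w 0) (w 1) (w 2)) (fun _ _ _ => Iff.rfl) {0}
  rw [trip_card] at h
  have e : (univ.filter (fun g : Sym2 (Hub n) → Fin (2 ^ 24) =>
      ∀ i j, i ≠ j → GRel g (i, w i) (j, w j))) = univ.filter (fun g => True ∧
        ∀ e ∈ trip (w 0) (w 1) (w 2), g e ∈ ({0} : Finset (Fin (2 ^ 24)))) := by
    refine Finset.filter_congr fun g _ => trip_iff g w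
  rw [e]
  have h2 : ((2 : ℕ) ^ 24) ^ 3 = 2 ^ 72 := by norm_num
  rw [h2] at h
  have h3 : (univ.filter (fun g : Sym2 (Hub n) → Fin (2 ^ 24) => True ∧
        ∀ e ∈ trip (w 0) (w 1) (w 2), g e ∈ ({0} : Finset (Fin (2 ^ 24))))).card * 2 ^ 72 =
      (univ.filter (fun g : Sym2 (Hub n) → Fin (2 ^ 24) => True)).card *
        ({0} : Finset (Fin (2 ^ 24))).card ^ 3 := by
    convert h
  rw [h3]
  simp

end GRandAux

open Classical in
theorem exists_labSys (n : ℕ) (hn : 2000 ≤ n) : Nonempty (LabSys n) := by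
  obtain ⟨S⟩ := exists_linSys n hn
  set W : ℕ := (2 ^ 24) ^ Fintype.card (Sym2 (Hub n)) with hW
  have hWpos : 0 < W := by positivity
  have hB1 := card_mat_bad n hn S
  have hB2 := card_two_bad n hn S
  have hB3 := card_att_bad n hn S
  rw [← hW] at hB1 hB2 hB3
  set B1 : Finset (Sym2 (Hub n) → Fin (2 ^ 24)) := univ.filter (fun g =>
      ∃ J ⊆ S.Λ, (∀ p ∈ J, ∀ p' ∈ J, p ≠ p' → ∀ i, S.φ p i ≠ S.φ p' i) ∧
        (∀ p ∈ J, ∀ p' ∈ J, p ≠ p' → ∃ i j, i ≠ j ∧ GRel g (i, S.φ p i) (j, S.φ p' j)) ∧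
        4 * n < J.card) with hB1d
  set B2 : Finset (Sym2 (Hub n) → Fin (2 ^ 24)) := univ.filter (fun g =>
      ∃ i a a', ∃ F ⊆ S.Λ, ∃ F' ⊆ S.Λ, (∀ p ∈ F, S.φ p i = a) ∧ (∀ p ∈ F', S.φ p i = a') ∧
        (∀ p ∈ F, ∀ p' ∈ F', ∃ j l, j ≠ i ∧ l ≠ i ∧ j ≠ l ∧ GRel g (j, S.φ p j) (l, S.φ p' l)) ∧
        4 * n < F.card ∧ 4 * n < F'.card) with hB2d
  set B3 : Finset (Sym2 (Hub n) → Fin (2 ^ 24)) := univ.filter (fun g =>
      ∃ i a, ∃ O : Finset (Fin (2 ^ n)), 1 ≤ O.card ∧ O.card ≤ 4 * n ∧ ∃ F ⊆ S.Λ,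
        (∀ p ∈ F, S.φ p i = a) ∧
        (∀ p ∈ F, ∀ o ∈ O, ∃ j, j ≠ i ∧ GRel g (j, S.φ p j) (i, o)) ∧
        3 * 2 ^ (n - 10 * O.card) + 4 * n < F.card) with hB3d
  set L : ℕ := S.Λ.card with hL
  have hLpos : 0 < L := by
    have h1 := S.card_Λ
    rcases Nat.eq_zero_or_pos L with h | h
    · rw [← hL, h, mul_zero] at h1
      have : 0 < 4 ^ n := by positivity
      omega
    · exact h
  set lab : (Sym2 (Hub n) → Fin (2 ^ 24)) → Finset (Fin (2 ^ n) × Fin (2 ^ n)) := fun g =>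
    S.Λ.filter (fun p => ∀ i j, i ≠ j → GRel g (i, S.φ p i) (j, S.φ p j)) with hlab
  have hsub : ∀ g, lab g ⊆ S.Λ := fun g => Finset.filter_subset _ _
  -- the average
  have hsum : (∑ g, (lab g).card) * 2 ^ 72 = L * W := by
    have h1 : ∑ g, (lab g).card = ∑ p ∈ S.Λ, (univ.filter
        (fun g : Sym2 (Hub n) → Fin (2 ^ 24) =>
          ∀ i j, i ≠ j → GRel g (i, S.φ p i) (j, S.φ p j))).card := by
      simp only [hlab, Finset.card_filter]
      exact Finset.sum_comm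
    rw [h1, Finset.sum_mul, Finset.sum_congr rfl fun p _ => GRandAux.count (S.φ p),
      Finset.sum_const, smul_eq_mul]
  -- a good choice
  obtain ⟨g, hg1, hg2, hg3, hgL⟩ : ∃ g, g ∉ B1 ∧ g ∉ B2 ∧ g ∉ B3 ∧ L ≤ 2 ^ 73 * (lab g).card := by
    by_contra hcon
    push Not at hcon
    set B := B1 ∪ B2 ∪ B3 with hB
    have hBc : 2 ^ 80 * B.card ≤ 3 * W := by
      have h1 : B.card ≤ B1.card + B2.card + B3.card :=
        (Finset.card_union_le _ _).trans (Nat.add_le_add_right (Finset.card_union_le _ _) _)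
      calc 2 ^ 80 * B.card ≤ 2 ^ 80 * (B1.card + B2.card + B3.card) := Nat.mul_le_mul_left _ h1
        _ = 2 ^ 80 * B1.card + 2 ^ 80 * B2.card + 2 ^ 80 * B3.card := by ring
        _ ≤ 3 * W := by linarith
    have hsplit : ∑ g, (lab g).card = ∑ g ∈ B, (lab g).card + ∑ g ∈ Bᶜ, (lab g).card :=
      (Finset.sum_add_sum_compl _ _).symm
    have hb1 : ∑ g ∈ B, (lab g).card ≤ B.card * L := by
      rw [← smul_eq_mul, ← Finset.sum_const]
      exact Finset.sum_le_sum fun g _ => Finset.card_le_card (hsub g)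
    have hb2 : 2 ^ 73 * ∑ g ∈ Bᶜ, (lab g).card ≤ W * L := by
      rw [Finset.mul_sum]
      have h1 : ∑ g ∈ Bᶜ, 2 ^ 73 * (lab g).card ≤ ∑ g ∈ Bᶜ, L := by
        refine Finset.sum_le_sum fun g hg => ?_
        rw [Finset.mem_compl, hB, Finset.mem_union, Finset.mem_union, not_or, not_or] at hg
        exact (hcon g hg.1.1 hg.1.2 hg.2).le
      refine h1.trans ?_
      rw [Finset.sum_const, smul_eq_mul]
      refine Nat.mul_le_mul_right _ ?_
      have h2 : (univ : Finset (Sym2 (Hub n) → Fin (2 ^ 24))).card = W := by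
        rw [Finset.card_univ, Fintype.card_fun, Fintype.card_fin]
      rw [← h2]
      exact Finset.card_le_card (Finset.subset_univ _)
    have hLW : 0 < L * W := Nat.mul_pos hLpos hWpos
    have e1 : 2 ^ 80 * ∑ g, (lab g).card = 256 * (L * W) := by
      rw [← hsum]
      ring
    have e2 : 2 ^ 80 * ∑ g ∈ B, (lab g).card ≤ 3 * (L * W) := by
      calc 2 ^ 80 * ∑ g ∈ B, (lab g).card ≤ 2 ^ 80 * (B.card * L) := Nat.mul_le_mul_left _ hb1
        _ = (2 ^ 80 * B.card) * L := by ring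
        _ ≤ (3 * W) * L := Nat.mul_le_mul_right _ hBc
        _ = 3 * (L * W) := by ring
    have e3 : 2 ^ 80 * ∑ g ∈ Bᶜ, (lab g).card ≤ 128 * (L * W) := by
      calc 2 ^ 80 * ∑ g ∈ Bᶜ, (lab g).card = 128 * (2 ^ 73 * ∑ g ∈ Bᶜ, (lab g).card) := by ring
        _ ≤ 128 * (W * L) := Nat.mul_le_mul_left _ hb2
        _ = 128 * (L * W) := by ring
    rw [hsplit, Nat.mul_add] at e1
    omega
  refine ⟨⟨S.φ, lab g, GRel g, ?_, ?_, ?_, ?_, ?_, ?_, ?_, ?_, ?_⟩⟩
  · intro x y h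
    unfold GRel at h ⊢
    rwa [Sym2.eq_swap]
  · have h1 := S.card_Λ
    rw [← hL] at h1
    calc 4 ^ n ≤ 2 ^ 6 * L := h1
      _ ≤ 2 ^ 6 * (2 ^ 73 * (lab g).card) := Nat.mul_le_mul_left _ hgL
      _ = 2 ^ 79 * (lab g).card := by ring
  · intro p hp
    exact (Finset.mem_filter.1 hp).2
  · intro p hp p' hp'
    exact S.lin p (hsub g hp) p' (hsub g hp')
  · intro h h1 h2 J hJ
    exact S.small h h1 h2 J (hJ.trans (hsub g))
  · intro i q h h1 h2 h3 h4 h5 J hJ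
    exact S.few i q h h1 h2 h3 h4 h5 J (hJ.trans (hsub g))
  · intro J hJ h1 h2
    by_contra hc
    exact hg1 (Finset.mem_filter.2 ⟨Finset.mem_univ _, J, hJ.trans (hsub g), h1, h2, by omega⟩)
  · intro i a a' F hF F' hF' h1 h2 h3
    by_contra hc
    push Not at hc
    exact hg2 (Finset.mem_filter.2 ⟨Finset.mem_univ _, i, a, a', F, hF.trans (hsub g), F',
      hF'.trans (hsub g), h1, h2, h3, hc.1, hc.2⟩)
  · intro i a O hO1 hO2 F hF h1 h2
    by_contra hc
    exact hg3 (Finset.mem_filter.2 ⟨Finset.mem_univ _, i, a, O, hO1, hO2, F, hF.trans (hsub g),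
      h1, h2, by omega⟩)

end Pool.Agent.Lib.MP_e8016c_th
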