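import Mathlib
import Pool.Agent.Lib.MP_e8016c_th.Defs

/-!
# Row S1
-/

namespace Pool.Agent.Lib.MP_e8016c_th

open Finset

/-- pairwise `G`-close -/
def PClose {n : ℕ} (S : LabSys n) (Q : Finset (Fin (2 ^ n) × Fin (2 ^ n))) : Prop :=
  ∀ p ∈ Q, ∀ p' ∈ Q, p ≠ p' → ∃ i j, i ≠ j ∧ S.G (i, S.φ p i) (j, S.φ p' j)

open Classical in
/-- S1 -/
theorem exists_class {n : ℕ} (S : LabSys n) (Q : Finset (Fin (2 ^ n) × Fin (2 ^ n)))
    (hQ : Q ⊆ S.Λ) (hcl : PClose S Q) :
    ∃ i : Fin 3, ∃ Q' ⊆ Q, Q.card ≤ 3 * Q'.card ∧ (Q'.image (fun p => S.φ p i)).card ≤ 4 * n := by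
  -- a maximal hub-disjoint subset
  obtain ⟨M, hM, hmax⟩ := Finset.exists_max_image
    (Q.powerset.filter (fun M => ∀ p ∈ M, ∀ p' ∈ M, p ≠ p' → ∀ i, S.φ p i ≠ S.φ p' i))
    Finset.card ⟨∅, by simp⟩
  rw [Finset.mem_filter, Finset.mem_powerset] at hM
  obtain ⟨hMQ, hdis⟩ := hM
  have hMc : M.card ≤ 4 * n := S.mat M (hMQ.trans hQ) hdis
    (fun p hp p' hp' hne => hcl p (hMQ hp) p' (hMQ hp') hne)
  -- every label shares a hub with a member of `M`
  have hshare : ∀ p ∈ Q, ∃ i, S.φ p i ∈ M.image (fun q => S.φ q i) := by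
    intro p hp
    by_contra hcon
    push Not at hcon
    have hpM : p ∉ M := fun h => hcon 0 (Finset.mem_image_of_mem _ h)
    have h1 := hmax (insert p M) (by
      rw [Finset.mem_filter, Finset.mem_powerset]
      refine ⟨Finset.insert_subset hp hMQ, ?_⟩
      intro a ha b hb hab i
      rw [Finset.mem_insert] at ha hb
      rcases ha with rfl | ha
      · rcases hb with rfl | hb
        · exact absurd rfl hab
        · intro h
          exact hcon i (Finset.mem_image.2 ⟨b, hb, h.symm⟩)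
      · rcases hb with rfl | hb
        · intro h
          exact hcon i (Finset.mem_image.2 ⟨a, ha, h⟩)
        · exact hdis a ha b hb hab i)
    rw [Finset.card_insert_of_notMem hpM] at h1
    omega
  let A : Fin 3 → Finset (Fin (2 ^ n) × Fin (2 ^ n)) := fun i =>
    Q.filter (fun p => S.φ p i ∈ M.image (fun q => S.φ q i))
  have hunion : Q.card ≤ ∑ i, (A i).card := by
    refine (Finset.card_le_card (t := Finset.univ.biUnion A) fun p hp => ?_).trans
      Finset.card_biUnion_le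
    obtain ⟨i, hi⟩ := hshare p hp
    exact Finset.mem_biUnion.2 ⟨i, Finset.mem_univ _, Finset.mem_filter.2 ⟨hp, hi⟩⟩
  obtain ⟨i, hi⟩ : ∃ i, Q.card ≤ 3 * (A i).card := by
    by_contra hcon
    push Not at hcon
    rw [Fin.sum_univ_three] at hunion
    have h0 := hcon 0
    have h1 := hcon 1
    have h2 := hcon 2
    omega
  refine ⟨i, A i, Finset.filter_subset _ _, hi, ?_⟩
  refine (Finset.card_le_card (t := M.image (fun q => S.φ q i)) ?_).trans
    (Finset.card_image_le.trans hMc)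
  intro a ha
  obtain ⟨p, hp, rfl⟩ := Finset.mem_image.1 ha
  exact (Finset.mem_filter.1 hp).2

end Pool.Agent.Lib.MP_e8016c_th
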