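import Mathlib
import Pool.Agent.Lib.MP_e8016c_th.StrongClass

/-!
# Row S2 (see `StrongClass.lean` for the proof sketch)
-/

namespace Pool.Agent.Lib.MP_e8016c_th

open Finset

/-- In a tournament some vertex has large out-degree. -/
theorem exists_out {α : Type*} [DecidableEq α] (W : Finset α) (T : α → α → Prop)
    [DecidableRel T] (hT : ∀ a ∈ W, ∀ b ∈ W, a ≠ b → T a b ∨ T b a) (hW : W.Nonempty) :
    ∃ a ∈ W, W.card - 1 ≤ 2 * ((W.erase a).filter (fun b => T a b)).card := by
  by_contra hcon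
  push Not at hcon
  -- ordered pairs
  have h1 : (W.offDiag).card ≤ ∑ a ∈ W, 2 * ((W.erase a).filter (fun b => T a b)).card := by
    have h2 : (W.offDiag).card ≤ ((W.offDiag).filter (fun q => T q.1 q.2)).card +
        ((W.offDiag).filter (fun q => T q.2 q.1)).card := by
      refine le_trans (card_le_card ?_) (card_union_le _ _)
      intro q hq
      have hq' := mem_offDiag.1 hq
      rcases hT _ hq'.1 _ hq'.2.1 hq'.2.2 with h | h
      · exact mem_union_left _ (mem_filter.2 ⟨hq, h⟩)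
      · exact mem_union_right _ (mem_filter.2 ⟨hq, h⟩)
    have h3 : ((W.offDiag).filter (fun q => T q.2 q.1)).card =
        ((W.offDiag).filter (fun q => T q.1 q.2)).card := by
      refine card_bij' (fun q _ => (q.2, q.1)) (fun q _ => (q.2, q.1)) ?_ ?_ ?_ ?_
      · rintro ⟨a, b⟩ hq
        rw [mem_filter, mem_offDiag] at hq ⊢
        exact ⟨⟨hq.1.2.1, hq.1.1, hq.1.2.2.symm⟩, hq.2⟩
      · rintro ⟨a, b⟩ hq
        rw [mem_filter, mem_offDiag] at hq ⊢
        exact ⟨⟨hq.1.2.1, hq.1.1, hq.1.2.2.symm⟩, hq.2⟩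
      · intro q _; rfl
      · intro q _; rfl
    have h4 : ((W.offDiag).filter (fun q => T q.1 q.2)).card =
        ∑ a ∈ W, ((W.erase a).filter (fun b => T a b)).card := by
      rw [card_eq_sum_card_fiberwise (f := fun q => q.1) (t := W)]
      · apply sum_congr rfl
        intro a ha
        refine card_bij' (fun q _ => q.2) (fun b _ => (a, b)) ?_ ?_ ?_ ?_
        · rintro ⟨x, y⟩ hq
          rw [mem_filter, mem_filter, mem_offDiag] at hq
          obtain ⟨⟨⟨hx, hy, hxy⟩, hT'⟩, hxa⟩ := hq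
          simp only at hxa hx hy hxy hT'
          subst hxa
          exact mem_filter.2 ⟨mem_erase.2 ⟨hxy.symm, hy⟩, hT'⟩
        · intro b hb
          rw [mem_filter, mem_erase] at hb
          rw [mem_filter, mem_filter, mem_offDiag]
          exact ⟨⟨⟨ha, hb.1.2, hb.1.1.symm⟩, hb.2⟩, rfl⟩
        · rintro ⟨x, y⟩ hq
          rw [mem_filter] at hq
          have : x = a := hq.2
          rw [this]
        · intro b _; rfl
      · intro q hq
        have := (mem_offDiag.1 (mem_filter.1 hq).1).1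
        exact this
    rw [← mul_sum, ← h4]
    omega
  have h5 : ∑ a ∈ W, 2 * ((W.erase a).filter (fun b => T a b)).card < ∑ _a ∈ W, (W.card - 1) :=
    sum_lt_sum_of_nonempty hW hcon
  rw [sum_const, smul_eq_mul] at h5
  rw [offDiag_card] at h1
  have h6 : W.card * (W.card - 1) = W.card * W.card - W.card := by
    rw [Nat.mul_sub, Nat.mul_one]
  omega

open Classical in
/-- S2 -/
theorem peel {n : ℕ} (hn : 2000 ≤ n) (S : LabSys n) (Q : Finset (Fin (2 ^ n) × Fin (2 ^ n)))
    (hQ : Q ⊆ S.Λ) (hcl : PClose S Q) (i : Fin 3)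
    (hW : (Q.image (fun p => S.φ p i)).card ≤ 4 * n) (r : ℕ) (hr : 1 ≤ r) :
    ∃ Q' ⊆ Q, (Q'.image (fun p => S.φ p i)).card ≤ 2 * r ∧
      Q.card ≤ Q'.card + 50 * n ^ 3 + 7 * 2 ^ (n - 10 * r) := by
  set W := Q.image (fun p => S.φ p i) with hWdef
  set star : Fin (2 ^ n) → Finset (Fin (2 ^ n) × Fin (2 ^ n)) :=
    fun a => Q.filter (fun p => S.φ p i = a) with hstar
  have hstarQ : ∀ a, star a ⊆ Q := fun a => filter_subset _ _
  let att : (Fin (2 ^ n) × Fin (2 ^ n)) → Fin (2 ^ n) → Prop :=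
    fun p a' => ∃ j, j ≠ i ∧ S.G (j, S.φ p j) (i, a')
  let un : Fin (2 ^ n) → Fin (2 ^ n) → Finset (Fin (2 ^ n) × Fin (2 ^ n)) :=
    fun a a' => (star a).filter (fun p => ¬ att p a')
  have hunQ : ∀ a a', un a a' ⊆ Q := fun a a' => (filter_subset _ _).trans (hstarQ a)
  -- Lemma A
  have hA : ∀ a a', a ≠ a' → (un a a').card ≤ 4 * n ∨ (un a' a).card ≤ 4 * n := by
    intro a a' haa'
    apply S.two i a a' (un a a') ((hunQ a a').trans hQ) (un a' a) ((hunQ a' a).trans hQ)
    · intro p hp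
      exact (mem_filter.1 (mem_filter.1 hp).1).2
    · intro p hp
      exact (mem_filter.1 (mem_filter.1 hp).1).2
    · intro p hp p' hp'
      have hpi : S.φ p i = a := (mem_filter.1 (mem_filter.1 hp).1).2
      have hpi' : S.φ p' i = a' := (mem_filter.1 (mem_filter.1 hp').1).2
      have hne : p ≠ p' := by
        rintro rfl
        exact haa' (hpi.symm.trans hpi')
      obtain ⟨i₁, j₁, hij, hG⟩ := hcl p (hunQ _ _ hp) p' (hunQ _ _ hp') hne
      have hj₁ : j₁ ≠ i := by
        rintro rfl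
        apply (mem_filter.1 hp).2
        exact ⟨i₁, hij, by rw [← hpi']; exact hG⟩
      have hi₁ : i₁ ≠ i := by
        rintro rfl
        apply (mem_filter.1 hp').2
        exact ⟨j₁, hij.symm, by rw [← hpi]; exact S.symmG _ _ hG⟩
      exact ⟨i₁, j₁, hi₁, hj₁, hij, hG⟩
  -- Lemma B
  have hB : ∀ a, ∀ O : Finset (Fin (2 ^ n)), 1 ≤ O.card → O.card ≤ 4 * n →
      (∀ o ∈ O, (un a o).card ≤ 4 * n) →
      (star a).card ≤ O.card * (4 * n) + (3 * 2 ^ (n - 10 * O.card) + 4 * n) := by
    intro a O hO1 hO2 hO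
    have hcov : star a ⊆ O.biUnion (fun o => un a o) ∪
        (star a).filter (fun p => ∀ o ∈ O, att p o) := by
      intro p hp
      by_cases h : ∀ o ∈ O, att p o
      · exact mem_union_right _ (mem_filter.2 ⟨hp, h⟩)
      · push Not at h
        obtain ⟨o, ho, hno⟩ := h
        exact mem_union_left _ (mem_biUnion.2 ⟨o, ho, mem_filter.2 ⟨hp, hno⟩⟩)
    refine (card_le_card hcov).trans ((card_union_le _ _).trans (Nat.add_le_add ?_ ?_))
    · exact card_biUnion_le_card_mul _ _ _ hO
    · apply S.att i a O hO1 hO2 _ ((filter_subset _ _).trans ((hstarQ a).trans hQ))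
      · intro p hp
        exact (mem_filter.1 (mem_filter.1 hp).1).2
      · intro p hp o ho
        exact (mem_filter.1 hp).2 o ho
  -- the peeling
  have hpeel : ∀ m : ℕ, 2 * r ≤ m → ∀ W' ⊆ W, W'.card = m → ∃ W'' ⊆ W', W''.card ≤ 2 * r ∧
      ∑ a ∈ W', (star a).card + 4 * 2 ^ (n - 5 * m) ≤
        ∑ a ∈ W'', (star a).card + 7 * 2 ^ (n - 10 * r) + m * (8 * n ^ 2 + 4 * n + 4) := by
    intro m hm
    induction m, hm using Nat.le_induction with
    | base =>
      intro W' _ hW'c
      refine ⟨W', Subset.refl _, hW'c.le, ?_⟩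
      have : 5 * (2 * r) = 10 * r := by ring
      rw [this]
      omega
    | succ m hm ih =>
      intro W' hW'W hW'c
      have hne : W'.Nonempty := by rw [← card_pos, hW'c]; omega
      obtain ⟨a, ha, hacard⟩ := exists_out W' (fun a b => (un a b).card ≤ 4 * n)
        (fun a _ b _ hab => hA a b hab) hne
      rw [hW'c, Nat.add_sub_cancel] at hacard
      have hm4 : m + 1 ≤ 4 * n := by
        rw [← hW'c]; exact (card_le_card hW'W).trans hW
      obtain ⟨O, hO, hOc⟩ := exists_subset_card_eq (s := (W'.erase a).filter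
        (fun b => (un a b).card ≤ 4 * n)) (n := (m + 1) / 2) (by omega)
      have hstar_a := hB a O (by rw [hOc]; omega) (by rw [hOc]; omega)
        (fun o ho => (mem_filter.1 (hO ho)).2)
      obtain ⟨W'', hW'', hW''c, hsum⟩ := ih (W'.erase a) ((erase_subset _ _).trans hW'W)
        (by rw [card_erase_of_mem ha, hW'c, Nat.add_sub_cancel])
      refine ⟨W'', hW''.trans (erase_subset _ _), hW''c, ?_⟩
      rw [← add_sum_erase _ _ ha]
      rw [hOc] at hstar_a
      have e1 : (m + 1) / 2 * (4 * n) ≤ 8 * n ^ 2 := by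
        calc (m + 1) / 2 * (4 * n) ≤ (2 * n) * (4 * n) := Nat.mul_le_mul_right _ (by omega)
          _ = 8 * n ^ 2 := by ring
      have e2 : 2 ^ (n - 10 * ((m + 1) / 2)) ≤ 2 ^ (n - 5 * m) :=
        Nat.pow_le_pow_right (by norm_num) (by omega)
      have e3 : 4 * 2 ^ (n - 5 * (m + 1)) ≤ 2 ^ (n - 5 * m) + 4 := by
        by_cases h : 5 * (m + 1) ≤ n
        · have : n - 5 * m = (n - 5 * (m + 1)) + 5 := by omega
          rw [this, pow_add]
          omega
        · have : n - 5 * (m + 1) = 0 := by omega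
          rw [this]
          omega
      have e4 : (m + 1) * (8 * n ^ 2 + 4 * n + 4) =
          m * (8 * n ^ 2 + 4 * n + 4) + (8 * n ^ 2 + 4 * n + 4) := by ring
      rw [e4]
      omega
  have hcardsum : ∀ W' : Finset (Fin (2 ^ n)),
      (Q.filter (fun p => S.φ p i ∈ W')).card = ∑ a ∈ W', (star a).card := by
    intro W'
    have hfib := card_eq_sum_card_fiberwise (f := fun p => S.φ p i)
      (s := Q.filter (fun p => S.φ p i ∈ W')) (t := W')
      (fun p hp => (mem_filter.1 (mem_coe.1 hp)).2)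
    rw [hfib]
    apply sum_congr rfl
    intro a ha
    congr 1
    ext p
    simp only [hstar, mem_filter]
    constructor
    · rintro ⟨⟨h1, _⟩, h3⟩
      exact ⟨h1, h3⟩
    · rintro ⟨h1, h3⟩
      exact ⟨⟨h1, h3 ▸ ha⟩, h3⟩
  have hQW : Q.filter (fun p => S.φ p i ∈ W) = Q := by
    apply filter_true_of_mem
    intro p hp
    exact mem_image_of_mem _ hp
  by_cases hcase : 2 * r ≤ W.card
  · obtain ⟨W'', hW''W, hW''c, hsum⟩ := hpeel W.card hcase W (Subset.refl _) rfl
    refine ⟨Q.filter (fun p => S.φ p i ∈ W''), filter_subset _ _, ?_, ?_⟩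
    · refine (card_le_card ?_).trans hW''c
      intro a ha
      obtain ⟨p, hp, rfl⟩ := mem_image.1 ha
      exact (mem_filter.1 hp).2
    · rw [hcardsum W'', ← hQW, hcardsum W]
      have e5 : W.card * (8 * n ^ 2 + 4 * n + 4) ≤ 50 * n ^ 3 := by
        calc W.card * (8 * n ^ 2 + 4 * n + 4) ≤ (4 * n) * (8 * n ^ 2 + 4 * n + 4) :=
              Nat.mul_le_mul_right _ hW
          _ = 32 * n ^ 3 + 16 * n ^ 2 + 16 * n := by ring
          _ ≤ 50 * n ^ 3 := by nlinarith [Nat.zero_le n, hn, Nat.zero_le (n ^ 2)]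
      omega
  · refine ⟨Q, Subset.refl _, by rw [← hWdef]; omega, by omega⟩

end Pool.Agent.Lib.MP_e8016c_th
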