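import Mathlib
import Pool.Agent.Lib.MP_e8016c_th.StrongPeel

/-!
# Row S3: strong cliques span many hubs
-/

namespace Pool.Agent.Lib.MP_e8016c_th

open Finset

theorem S3_num (r : ℕ) : 224 * (r + 2) ^ 2 ≤ 2 ^ (10 * (r + 1)) := by
  induction r with
  | zero => norm_num
  | succ r ih =>
    have h1 : 2 ^ (10 * (r + 1 + 1)) = 1024 * 2 ^ (10 * (r + 1)) := by
      rw [show 10 * (r + 1 + 1) = 10 + 10 * (r + 1) by ring, pow_add]
      norm_num
    rw [h1]
    have h3 : (r + 1 + 2) ^ 2 ≤ (2 * (r + 2)) ^ 2 := Nat.pow_le_pow_left (by omega) 2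
    have h4 : (2 * (r + 2)) ^ 2 = 4 * (r + 2) ^ 2 := by ring
    have h2 : 224 * (r + 1 + 2) ^ 2 ≤ 1024 * (224 * (r + 2) ^ 2) := by omega
    exact h2.trans (Nat.mul_le_mul_left _ ih)

open Classical in
theorem S3_main {n : ℕ} (hn : 2000 ≤ n) (S : LabSys n)
    (Q : Finset (Fin (2 ^ n) × Fin (2 ^ n))) (hQ : Q ⊆ S.Λ) (hcl : PClose S Q) (i : Fin 3)
    (hW : (Q.image (fun p => S.φ p i)).card ≤ 4 * n) (T : ℕ)
    (hT : ∀ j, (Q.image (fun p => S.φ p j)).card ≤ T) : Q.card ≤ 5 * T := by
  rcases Nat.eq_zero_or_pos Q.card with h0 | h0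
  · rw [h0]; exact Nat.zero_le _
  have hn3 : 4 * n ≤ 100 * n ^ 3 := by nlinarith [Nat.one_le_iff_ne_zero.2 (show n ≠ 0 by omega), pow_pos (show 0 < n by omega) 2]
  have himg : ∀ j, 1 ≤ (Q.image (fun p => S.φ p j)).card := fun j =>
    Finset.card_pos.2 ((Finset.card_pos.1 h0).image _)
  -- the maximal number of hubs of a class different from `i`
  set h : ℕ := (Finset.univ.erase i).sup (fun j => (Q.image (fun p => S.φ p j)).card) with hh
  have hle : ∀ j, j ≠ i → (Q.image (fun p => S.φ p j)).card ≤ h := fun j hj =>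
    Finset.le_sup (f := fun j => (Q.image (fun p => S.φ p j)).card)
      (Finset.mem_erase.2 ⟨hj, Finset.mem_univ _⟩)
  have hhT : h ≤ T := Finset.sup_le fun j _ => hT j
  rcases Nat.lt_or_ge (100 * n ^ 3) h with hbig | hsm
  swap
  · -- few hubs
    have h1 : 1 ≤ max h (Q.image (fun p => S.φ p i)).card := le_trans (himg i) (le_max_right _ _)
    have h2 : max h (Q.image (fun p => S.φ p i)).card ≤ 100 * n ^ 3 :=
      max_le hsm (hW.trans hn3)
    have h3 := S.small _ h1 h2 Q hQ (fun j => by
      by_cases hj : j = i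
      · rw [hj]; exact le_max_right _ _
      · exact (hle j hj).trans (le_max_left _ _))
    have h4 : max h (Q.image (fun p => S.φ p i)).card ≤ T := max_le hhT (hT i)
    omega
  · -- many hubs
    have hn1 : 1 ≤ n ^ 3 := Nat.one_le_pow _ _ (by omega)
    have h14 : 100 ≤ h := by omega
    have hex : ∃ r, 1 ≤ r ∧ 14 * 2 ^ n ≤ h * 2 ^ (10 * r) := ⟨n, by omega, by
      have : 2 ^ n ≤ 2 ^ (10 * n) := Nat.pow_le_pow_right (by norm_num) (by omega)
      exact Nat.mul_le_mul (by omega) this⟩
    set r := Nat.find hex with hr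
    obtain ⟨hr1, hr2⟩ := Nat.find_spec hex
    rw [← hr] at hr1 hr2
    have hrn : r ≤ n := Nat.find_min' hex ⟨by omega, by
      have : 2 ^ n ≤ 2 ^ (10 * n) := Nat.pow_le_pow_right (by norm_num) (by omega)
      exact Nat.mul_le_mul (by omega) this⟩
    obtain ⟨Q', hQ', hc1, hc2⟩ := peel hn S Q hQ hcl i hW r hr1
    have hpow : 14 * 2 ^ (n - 10 * r) ≤ h := by
      rcases Nat.lt_or_ge n (10 * r) with h1 | h1
      · rw [show n - 10 * r = 0 by omega]
        omega
      · have h2 : 2 ^ n = 2 ^ (n - 10 * r) * 2 ^ (10 * r) := by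
          rw [← pow_add]
          congr 1
          omega
        rw [h2, ← mul_assoc] at hr2
        exact Nat.le_of_mul_le_mul_right hr2 (by positivity)
    have hQc : Q.card ≤ Q'.card + h := by omega
    have hle' : ∀ j, j ≠ i → (Q'.image (fun p => S.φ p j)).card ≤ h := fun j hj =>
      (Finset.card_le_card (Finset.image_subset_image hQ')).trans (hle j hj)
    have hmain : Q'.card ≤ 4 * h := by
      rcases Nat.lt_or_ge r 2 with hr3 | hr3
      · -- at most two stars
        have hr4 : r = 1 := by omega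
        obtain ⟨j, hj⟩ : ∃ j : Fin 3, j ≠ i := by
          have : ∀ i : Fin 3, ∃ j : Fin 3, j ≠ i := by decide
          exact this i
        have h1 : Q'.card ≤ h * (Q'.image (fun p => S.φ p i)).card := by
          refine Finset.card_le_mul_card_image Q' h fun a _ => ?_
          have h2 : ((Q'.filter (fun p => S.φ p i = a)).image (fun p => S.φ p j)).card =
              (Q'.filter (fun p => S.φ p i = a)).card := by
            refine Finset.card_image_of_injOn fun p hp p' hp' hpp => ?_
            by_contra hne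
            have hp1 := Finset.mem_filter.1 (Finset.mem_coe.1 hp)
            have hp2 := Finset.mem_filter.1 (Finset.mem_coe.1 hp')
            exact S.lin p (hQ (hQ' hp1.1)) p' (hQ (hQ' hp2.1)) hne i j (fun h => hj h.symm)
              (hp1.2.trans hp2.2.symm) hpp
          rw [← h2]
          exact (Finset.card_le_card (Finset.image_subset_image
            (Finset.filter_subset _ _))).trans (hle' j hj)
        rw [hr4] at hc1
        calc Q'.card ≤ h * (Q'.image (fun p => S.φ p i)).card := h1
          _ ≤ h * 2 := Nat.mul_le_mul_left _ (by omega)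
          _ ≤ 4 * h := by omega
      · obtain ⟨t, ht⟩ : ∃ t, r = t + 2 := ⟨r - 2, by omega⟩
        have h1 : h * 2 ^ (10 * (t + 1)) < 14 * 2 ^ n := by
          by_contra hcon
          push Not at hcon
          have := Nat.find_min hex (m := t + 1) (by omega)
          exact this ⟨by omega, hcon⟩
        have h2 := S3_num t
        have h3 : 4 * (2 * r) ^ 2 * h ≤ 2 ^ n := by
          rw [ht]
          have h4 : 14 * (4 * (2 * (t + 2)) ^ 2 * h) ≤ h * 2 ^ (10 * (t + 1)) := by
            calc 14 * (4 * (2 * (t + 2)) ^ 2 * h) = h * (224 * (t + 2) ^ 2) := by ring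
              _ ≤ h * 2 ^ (10 * (t + 1)) := Nat.mul_le_mul_left _ h2
          omega
        have h5 : n * (2 * r) ≤ h := by
          have h6 : n * (2 * r) ≤ n * (2 * n) := Nat.mul_le_mul_left _ (by omega)
          have h7 : n * (2 * n) ≤ 100 * n ^ 3 := by nlinarith [pow_pos (show 0 < n by omega) 2]
          omega
        exact (S.few i (2 * r) h (by omega) (by omega) h5 hbig.le h3 Q' (hQ'.trans hQ) hc1
          hle').le
    omega

open Classical in
/-- S3 -/
theorem strong_card {n : ℕ} (hn : 2000 ≤ n) (S : LabSys n)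
    (Q : Finset (Fin (2 ^ n) × Fin (2 ^ n))) (hQ : Q ⊆ S.Λ) (hcl : PClose S Q) :
    Q.card ≤ 18 * ∑ i, (Q.image (fun p => S.φ p i)).card := by
  obtain ⟨i, Q', hQ', h1, h2⟩ := exists_class S Q hQ hcl
  have h3 := S3_main hn S Q' (hQ'.trans hQ)
    (fun p hp p' hp' hne => hcl p (hQ' hp) p' (hQ' hp') hne) i h2
    (∑ i, (Q.image (fun p => S.φ p i)).card) (fun j =>
      (Finset.card_le_card (Finset.image_subset_image hQ')).trans
        (Finset.single_le_sum (f := fun i => (Q.image (fun p => S.φ p i)).card)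
          (fun _ _ => Nat.zero_le _) (Finset.mem_univ j)))
  omega

end Pool.Agent.Lib.MP_e8016c_th
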