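import Mathlib
import Pool.Agent.Lib.MP_e8016c_th.Strong
import Pool.Agent.Lib.MP_e8016c_th.GRand

/-!
# Row L1: the label graph

`Γ` on `{p // p ∈ S.Λ}`: distinct labels sharing a hub.  `Close` distinct labels are `G`-close (if
they share hub `i`, then with any `j ≠ i` the pair `(i, φ x i) = (i, φ y i)`, `(j, φ y j)` is in `G`
by `edge`; otherwise the middle label `z` shares hub `i` with `x` and hub `j ≠ i` with `y`).
Good sets: clusters are pairwise `G`-close, so `strong_card` applies, and different clusters have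
disjoint hub sets; induction on `L.card` (remove one cluster) gives `#L ≤ 18 Σ_i #φ_i(L) ≤
54 · 2^n`.
-/

namespace Pool.Agent.Lib.MP_e8016c_th

open Finset

namespace LabelsAux

variable {n : ℕ} (S : LabSys n)

/-- distinct labels sharing a hub -/
def labGraph : SimpleGraph {p // p ∈ S.Λ} where
  Adj x y := x ≠ y ∧ ∃ i, S.φ x.1 i = S.φ y.1 i
  symm := ⟨fun x y h => ⟨h.1.symm, h.2.imp fun _ hi => hi.symm⟩⟩
  loopless := ⟨fun x h => h.1 rfl⟩

theorem adj_iff (x y : {p // p ∈ S.Λ}) :
    (labGraph S).Adj x y ↔ x ≠ y ∧ ∃ i, S.φ x.1 i = S.φ y.1 i := Iff.rfl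

theorem share {p p' : Fin (2 ^ n) × Fin (2 ^ n)} (hp' : p' ∈ S.Λ) {i : Fin 3}
    (h : S.φ p i = S.φ p' i) : ∃ i j, i ≠ j ∧ S.G (i, S.φ p i) (j, S.φ p' j) := by
  obtain ⟨j, hj⟩ : ∃ j : Fin 3, i ≠ j := by
    refine ⟨i + 1, ?_⟩
    fin_cases i <;> decide
  exact ⟨i, j, hj, by rw [h]; exact S.edge p' hp' i j hj⟩

theorem gclose_of_close {x y : {p // p ∈ S.Λ}} (hne : x ≠ y) (h : Close (labGraph S) x y) :
    ∃ i j, i ≠ j ∧ S.G (i, S.φ x.1 i) (j, S.φ y.1 j) := by
  obtain ⟨z, hzx, hzy⟩ := h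
  rcases hzx with rfl | hzx
  · rcases hzy with rfl | hzy
    · exact absurd rfl hne
    · obtain ⟨-, i, hi⟩ := (adj_iff S _ _).1 hzy
      exact share S y.2 hi
  · obtain ⟨-, i, hi⟩ := (adj_iff S _ _).1 hzx
    rcases hzy with rfl | hzy
    · exact share S z.2 hi.symm
    · obtain ⟨-, j, hj⟩ := (adj_iff S _ _).1 hzy
      by_cases hij : i = j
      · subst hij
        exact share S y.2 (hi.symm.trans hj)
      · refine ⟨i, j, hij, ?_⟩
        rw [← hi, ← hj]
        exact S.edge z.1 z.2 i j hij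

open Classical in
theorem card_le (hn : 2000 ≤ n) (E : {p // p ∈ S.Λ} → {p // p ∈ S.Λ} → Prop)
    (L : Finset {p // p ∈ S.Λ}) (h1 : ∀ x ∈ L, E x x) (h2 : ∀ x ∈ L, ∀ y ∈ L, E x y → E y x)
    (h3 : ∀ x ∈ L, ∀ y ∈ L, ∀ z ∈ L, E x y → E y z → E x z)
    (h4 : ∀ x ∈ L, ∀ y ∈ L, E x y → Close (labGraph S) x y)
    (h5 : ∀ x ∈ L, ∀ y ∈ L, ¬ E x y → ¬ Near (labGraph S) x y) :
    L.card ≤ 18 * ∑ i, (L.image (fun p => S.φ p.1 i)).card := by
  induction L using Finset.strongInduction with
  | H L ih =>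
    rcases L.eq_empty_or_nonempty with rfl | ⟨x, hx⟩
    · simp
    set K := L.filter (fun y => E x y) with hK
    set L' := L.filter (fun y => ¬ E x y) with hL'
    have hKL : K ⊆ L := filter_subset _ _
    have hL'L : L' ⊆ L := filter_subset _ _
    have hxK : x ∈ K := mem_filter.2 ⟨hx, h1 x hx⟩
    have hss : L' ⊂ L := by
      refine (ssubset_iff_of_subset hL'L).2 ⟨x, hx, fun h => ?_⟩
      exact (mem_filter.1 h).2 (h1 x hx)
    have hI := ih L' hss (fun x hx => h1 x (hL'L hx))
      (fun x hx y hy => h2 x (hL'L hx) y (hL'L hy))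
      (fun x hx y hy z hz => h3 x (hL'L hx) y (hL'L hy) z (hL'L hz))
      (fun x hx y hy => h4 x (hL'L hx) y (hL'L hy))
      (fun x hx y hy => h5 x (hL'L hx) y (hL'L hy))
    have hKE : ∀ y ∈ K, ∀ z ∈ K, E y z := fun y hy z hz => by
      have hy' := mem_filter.1 hy
      have hz' := mem_filter.1 hz
      exact h3 y hy'.1 x hx z hz'.1 (h2 x hx y hy'.1 hy'.2) hz'.2
    -- the cluster
    have hQ : (K.map (Function.Embedding.subtype _)).card ≤
        18 * ∑ i, ((K.map (Function.Embedding.subtype _)).image (fun p => S.φ p i)).card := by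
      refine strong_card hn S _ ?_ ?_
      · intro p hp
        obtain ⟨y, -, rfl⟩ := mem_map.1 hp
        exact y.2
      · intro p hp p' hp' hne
        obtain ⟨y, hy, rfl⟩ := mem_map.1 hp
        obtain ⟨z, hz, rfl⟩ := mem_map.1 hp'
        have hyz : y ≠ z := fun h => hne (by rw [h])
        exact gclose_of_close S hyz (h4 y (hKL hy) z (hKL hz) (hKE y hy z hz))
    rw [card_map] at hQ
    have himg : ∀ i, ((K.map (Function.Embedding.subtype _)).image (fun p => S.φ p i)) =
        K.image (fun p => S.φ p.1 i) := by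
      intro i
      rw [map_eq_image, image_image]
      rfl
    simp only [himg] at hQ
    -- disjoint hubs
    have hdis : ∀ i, (K.image (fun p => S.φ p.1 i)).card + (L'.image (fun p => S.φ p.1 i)).card ≤
        (L.image (fun p => S.φ p.1 i)).card := by
      intro i
      rw [← card_union_of_disjoint]
      · refine card_le_card (union_subset (image_subset_image hKL) (image_subset_image hL'L))
      · rw [disjoint_left]
        intro a ha hb
        obtain ⟨y, hy, rfl⟩ := mem_image.1 ha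
        obtain ⟨z, hz, hzy⟩ := mem_image.1 hb
        have hy' := mem_filter.1 hy
        have hz' := mem_filter.1 hz
        have hnE : ¬ E y z := fun h => hz'.2 (h3 x hx y hy'.1 z hz'.1 hy'.2 h)
        refine h5 y hy'.1 z hz'.1 hnE ?_
        by_cases hyz : y = z
        · exact Or.inl hyz
        · exact Or.inr ((adj_iff S _ _).2 ⟨hyz, i, hzy.symm⟩)
    have hcard : L.card = K.card + L'.card := by
      rw [hK, hL', card_filter_add_card_filter_not]
    have hsum : ∑ i, (K.image (fun p => S.φ p.1 i)).card +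
        ∑ i, (L'.image (fun p => S.φ p.1 i)).card ≤ ∑ i, (L.image (fun p => S.φ p.1 i)).card := by
      rw [← sum_add_distrib]
      exact sum_le_sum fun i _ => hdis i
    omega

end LabelsAux

open LabelsAux in
theorem exists_labels (n : ℕ) (hn : 2000 ≤ n) :
    ∃ (Λ : Type) (_ : Fintype Λ) (Γ : SimpleGraph Λ), 4 ^ n ≤ 2 ^ 79 * Fintype.card Λ ∧
      ∀ L : Finset Λ, Good Γ L → L.card ≤ 54 * 2 ^ n := by
  classical
  obtain ⟨S⟩ := exists_labSys n hn
  refine ⟨{p // p ∈ S.Λ}, inferInstance, labGraph S, ?_, ?_⟩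
  · rw [Fintype.card_coe]
    exact S.card_Λ
  · rintro L ⟨E, h1, h2, h3, h4, h5⟩
    have h := card_le S hn E L h1 h2 h3 h4 h5
    have h6 : ∀ i, (L.image (fun p => S.φ p.1 i)).card ≤ 2 ^ n := fun i => by
      simpa using card_le_univ (L.image (fun p => S.φ p.1 i))
    have h7 : ∑ i, (L.image (fun p => S.φ p.1 i)).card ≤ ∑ i : Fin 3, 2 ^ n :=
      sum_le_sum fun i _ => h6 i
    simp only [sum_const, card_univ, Fintype.card_fin, smul_eq_mul] at h7
    omega

end Pool.Agent.Lib.MP_e8016c_th
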