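import Mathlib
import Pool.Agent.Lib.MP_e8016c.Lower

/-!
# Row O1: from a recolouring property to Ramsey equivalence

Copy of `one_side` and `ramseyEquiv_of_small` of `Lib/MP_e8016c/Lower.lean` with the lemma `recolor`
replaced by the hypothesis `hrec`, `g = D + 1`.
-/

namespace Pool.Agent.Lib.MP_e8016c

open SimpleGraph Finset

open Classical in
/-- One-sided version of the lower bound. -/
theorem one_side_of_recolor (k g D : ℕ) (hk4 : 4 ≤ k) (hgD : g = D + 1)
    (hnum : 2 * k + 2 * g + 1 ≤ (k - 1) * (k - 1))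
    (hrec : ∀ (V : Type) [Fintype V] (R B : SimpleGraph V), R.CliqueFree k →
      (∀ v, Set.ncard {w | B.Adj v w} ≤ D) →
      ∃ Red : SimpleGraph V, Red ≤ R ⊔ B ∧ Red.CliqueFree k ∧
        ((R ⊔ B) \ Red).CliqueFree (k - 2)) {V : Type} [Fintype V] (G R : SimpleGraph V)
    (hG : Arrows G (K k)) (hnR : ¬ KStar k g ⊑ R) (hnB : ¬ KStar k g ⊑ G \ R)
    (S : Finset V) (hS : (G \ R).IsNClique k S) : False := by
  have hdegB : ∀ v, v ∉ S → (univ.filter (fun w => w ∉ S ∧ (G \ R).Adj v w)).card < g := by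
    intro v hv
    by_contra hcon
    push Not at hcon
    obtain ⟨W, hW, hWc⟩ := exists_subset_card_eq hcon
    exact hnB (kStar_isContained hS hv hWc (fun w hw => (mem_filter.1 (hW hw)).2))
  by_cases hRfree : R.CliqueFree k
  swap
  · -- both colours contain a `K_k`
    have hex : ∃ S' : Finset V, R.IsNClique k S' := by
      unfold CliqueFree at hRfree
      push Not at hRfree
      exact hRfree
    obtain ⟨S', hS'⟩ := hex
    have hdegR : ∀ v, v ∉ S' → (univ.filter (fun w => w ∉ S' ∧ R.Adj v w)).card < g := by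
      intro v hv
      by_contra hcon
      push Not at hcon
      obtain ⟨W, hW, hWc⟩ := exists_subset_card_eq hcon
      exact hnR (kStar_isContained hS' hv hWc (fun w hw => (mem_filter.1 (hW hw)).2))
    obtain ⟨col, hcol, hprop⟩ := greedy G (S ∪ S') (2 * k) (2 * g) (2 * k + 2 * g + 1)
      (by
        refine (card_union_le _ _).trans ?_
        rw [(isNClique_iff _).1 hS |>.2, (isNClique_iff _).1 hS' |>.2]
        omega)
      (by
        intro v hv
        rw [mem_union, not_or] at hv
        have h1 := hdegB v hv.1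
        have h2 := hdegR v hv.2
        have h3 : univ.filter (fun w => w ∉ S ∪ S' ∧ G.Adj v w) ⊆
            univ.filter (fun w => w ∉ S ∧ (G \ R).Adj v w) ∪
            univ.filter (fun w => w ∉ S' ∧ R.Adj v w) := by
          intro w hw
          rw [mem_filter, mem_union, not_or] at hw
          by_cases hR : R.Adj v w
          · exact mem_union_right _ (mem_filter.2 ⟨mem_univ _, hw.2.1.2, hR⟩)
          · exact mem_union_left _ (mem_filter.2 ⟨mem_univ _, hw.2.1.1, by
              rw [sdiff_adj]; exact ⟨hw.2.2, hR⟩⟩)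
        have h4 := (card_le_card h3).trans (card_union_le _ _)
        omega) (by omega)
    exact not_arrows_of_coloring G k (by omega) col (fun v => (hcol v).trans_le hnum) hprop hG
  · -- only blue contains a `K_k`
    let R' : SimpleGraph V :=
      { Adj := fun u v => R.Adj u v ∧ u ∉ S ∧ v ∉ S
        symm := ⟨fun u v h => ⟨h.1.symm, h.2.2, h.2.1⟩⟩
        loopless := ⟨fun u h => R.loopless.irrefl u h.1⟩ }
    let B' : SimpleGraph V :=
      { Adj := fun u v => (G \ R).Adj u v ∧ u ∉ S ∧ v ∉ S
        symm := ⟨fun u v h => ⟨h.1.symm, h.2.2, h.2.1⟩⟩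
        loopless := ⟨fun u h => (G \ R).loopless.irrefl u h.1⟩ }
    have hR'free : R'.CliqueFree k := hRfree.anti (fun u v h => h.1)
    have hB'deg : ∀ v, Set.ncard {w | B'.Adj v w} ≤ D := by
      intro v
      by_cases hv : v ∈ S
      · have : {w | B'.Adj v w} = ∅ := by
          ext w
          simp only [Set.mem_ofPred_eq, Set.mem_empty_iff_false, iff_false]
          exact fun h => h.2.1 hv
        rw [this]
        simp
      · have h1 := hdegB v hv
        have h2 : {w | B'.Adj v w} ⊆ ((univ.filter (fun w => w ∉ S ∧ (G \ R).Adj v w) :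
            Finset V) : Set V) := by
          intro w hw
          simp only [coe_filter, mem_univ, true_and, Set.mem_ofPred_eq]
          exact ⟨hw.2.2, hw.1⟩
        have h3 := Set.ncard_le_ncard h2 (finite_toSet _)
        rw [Set.ncard_coe_finset] at h3
        omega
    obtain ⟨Red, hRed, hRedfree, hBluefree⟩ := hrec V R' B' hR'free hB'deg
    rw [isNClique_iff] at hS
    obtain ⟨s₁, hs₁, s₂, hs₂, hs₁₂⟩ : ∃ s₁ ∈ S, ∃ s₂ ∈ S, s₁ ≠ s₂ := by
      have : 1 < S.card := by rw [hS.2]; omega
      obtain ⟨a, b, ha, hb, hab⟩ := one_lt_card_iff.1 this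
      exact ⟨a, ha, b, hb, hab⟩
    let F : SimpleGraph V :=
      { Adj := fun u v => G.Adj u v ∧ ((u ∈ S ∧ v ∈ S ∧ ¬ (u = s₁ ∧ v = s₂) ∧ ¬ (u = s₂ ∧ v = s₁)) ∨
          (u ∉ S ∧ v ∉ S ∧ Red.Adj u v))
        symm := ⟨fun u v h => by
          refine ⟨h.1.symm, ?_⟩
          rcases h.2 with ⟨h1, h2, h3, h4⟩ | ⟨h1, h2, h3⟩
          · exact Or.inl ⟨h2, h1, fun h => h4 ⟨h.2, h.1⟩, fun h => h3 ⟨h.2, h.1⟩⟩
          · exact Or.inr ⟨h2, h1, h3.symm⟩⟩
        loopless := ⟨fun u h => G.loopless.irrefl u h.1⟩ }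
    have hFfree : F.CliqueFree k := by
      intro Q hQ
      rw [isNClique_iff] at hQ
      by_cases hQS : ∃ u ∈ Q, u ∈ S
      · obtain ⟨u, hu, huS⟩ := hQS
        have hsub : Q ⊆ S := by
          intro v hv
          by_cases huv : u = v
          · exact huv ▸ huS
          · rcases (hQ.1 hu hv huv).2 with h | h
            · exact h.2.1
            · exact absurd huS h.1
        have hQeq : Q = S := eq_of_subset_of_card_le hsub (by rw [hQ.2, hS.2])
        subst hQeq
        rcases (hQ.1 hs₁ hs₂ hs₁₂).2 with h | h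
        · exact h.2.2.1 ⟨rfl, rfl⟩
        · exact h.1 hs₁
      · push Not at hQS
        refine hRedfree Q ⟨?_, hQ.2⟩
        intro u hu v hv huv
        rcases (hQ.1 hu hv huv).2 with h | h
        · exact absurd h.1 (hQS u hu)
        · exact h.2.2
    have hBfree : (G \ F).CliqueFree k := by
      intro Q hQ
      rw [isNClique_iff] at hQ
      have hQS : (Q ∩ S).card ≤ 2 := by
        have h1 : Q ∩ S ⊆ {s₁, s₂} ∨ (Q ∩ S).card ≤ 1 := by
          by_cases hc : (Q ∩ S).card ≤ 1
          · exact Or.inr hc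
          · left
            push Not at hc
            intro u hu
            obtain ⟨v, hv, hvu⟩ := exists_mem_ne hc u
            rw [mem_inter] at hu hv
            have h1 := hQ.1 hu.1 hv.1 hvu.symm
            rw [sdiff_adj] at h1
            by_contra hcon
            rw [mem_insert, mem_singleton, not_or] at hcon
            exact h1.2 ⟨h1.1, Or.inl ⟨hu.2, hv.2, fun h => hcon.1 h.1, fun h => hcon.2 h.1⟩⟩
        rcases h1 with h1 | h1
        · exact (card_le_card h1).trans card_le_two
        · omega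
      have hQout : k - 2 ≤ (Q \ S).card := by
        have := card_inter_add_card_sdiff Q S
        omega
      obtain ⟨Q', hQ', hQ'c⟩ := exists_subset_card_eq hQout
      refine hBluefree Q' ⟨?_, hQ'c⟩
      intro u hu v hv huv
      have hu' := mem_sdiff.1 (hQ' hu)
      have hv' := mem_sdiff.1 (hQ' hv)
      have h1 := hQ.1 hu'.1 hv'.1 huv
      rw [sdiff_adj] at h1
      rw [sdiff_adj]
      refine ⟨?_, fun h => h1.2 ⟨h1.1, Or.inr ⟨hu'.2, hv'.2, h⟩⟩⟩
      by_cases hR : R.Adj u v
      · exact Or.inl ⟨hR, hu'.2, hv'.2⟩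
      · exact Or.inr ⟨by rw [sdiff_adj]; exact ⟨h1.1, hR⟩, hu'.2, hv'.2⟩
    rcases hG F (fun u v h => h.1) with h | h
    · exact (K_isContained_iff F k).1 h hFfree
    · exact (K_isContained_iff (G \ F) k).1 h hBfree

theorem ramseyEquiv_of_recolor (k D : ℕ) (hk : 4 ≤ k)
    (hnum : 2 * k + 2 * (D + 1) + 1 ≤ (k - 1) * (k - 1))
    (hrec : ∀ (V : Type) [Fintype V] (R B : SimpleGraph V), R.CliqueFree k →
      (∀ v, Set.ncard {w | B.Adj v w} ≤ D) →
      ∃ Red : SimpleGraph V, Red ≤ R ⊔ B ∧ Red.CliqueFree k ∧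
        ((R ⊔ B) \ Red).CliqueFree (k - 2)) :
    RamseyEquiv (K k) (KStar k (D + 1)) := by
  classical
  intro V _ G
  have := Fintype.ofFinite V
  constructor
  swap
  · exact fun hG => arrows_of_isContained (K_le_KStar k _) hG
  intro hG R hR
  by_contra hcon
  rw [not_or] at hcon
  have hclique : ∀ H : SimpleGraph V, K k ⊑ H → ∃ S : Finset V, H.IsNClique k S := by
    intro H hH
    have h1 := (K_isContained_iff H k).1 hH
    unfold CliqueFree at h1
    push Not at h1
    exact h1
  rcases hG R hR with h | h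
  · obtain ⟨S, hS⟩ := hclique _ h
    have hGR : G \ (G \ R) = R := by
      rw [sdiff_sdiff_right_self, inf_eq_right.2 hR]
    exact one_side_of_recolor k (D + 1) D hk rfl hnum hrec G (G \ R) hG hcon.2
      (by rw [hGR]; exact hcon.1) S (by rw [hGR]; exact hS)
  · obtain ⟨S, hS⟩ := hclique _ h
    exact one_side_of_recolor k (D + 1) D hk rfl hnum hrec G R hG hcon.1 hcon.2 S hS

end Pool.Agent.Lib.MP_e8016c
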