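import Mathlib

/-!
# Row C1: an abstract form of Rosenfeld's counting argument (replaces the local lemma)

PROOF.  For `U : Finset V` let `val U` be the number of `c : Ω` with `¬ bad T c` for all `T ⊆ U`.
Claim (strong induction on `U.card`, as `numValid_step` in `Lib/MP_e8016c/Labelling.lean`): if
`x ∉ U` then `val U ≤ 2 * val (insert x U)`.  By induction hypothesis `val (U \ X) ≤ 2 ^ X.card *
val U` for `X ⊆ U`.  A `c` which is good for `U` but not for `insert x U` has `bad S c` for some
`S ⊆ insert x U` with `x ∈ S`; it is good for `U \ S` and `bad S c`, so their number is at most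
`p S * val (U \ S) ≤ p S * 2 ^ (S.card - 1) * val U`.  Sum over `S`: at most `val U / 2`.
Hence `val univ ≥ 2 ^ (- card V) * val ∅ > 0` (`val ∅`: note `bad ∅` never holds by `hempty`).
-/

namespace Pool.Agent.Lib.MP_e8016c_th

open Finset

open Classical in
theorem rosenfeld {V : Type*} [Fintype V] [DecidableEq V] {Ω : Type*} [Fintype Ω] [Nonempty Ω]
    (bad : Finset V → Ω → Prop) (p : Finset V → ℝ) (hp : ∀ S, 0 ≤ p S)
    (hempty : ∀ c, ¬ bad ∅ c)
    (hind : ∀ S U : Finset V, Disjoint S U →
      ((univ.filter (fun c : Ω => (∀ T ⊆ U, ¬ bad T c) ∧ bad S c)).card : ℝ) ≤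
        p S * ((univ.filter (fun c : Ω => ∀ T ⊆ U, ¬ bad T c)).card : ℝ))
    (hsum : ∀ x : V, ∑ S ∈ (univ : Finset (Finset V)).filter (fun S => x ∈ S),
      2 ^ S.card * p S ≤ 1) :
    ∃ c : Ω, ∀ S, ¬ bad S c := by
  set val : Finset V → ℝ :=
    fun U => ((univ.filter (fun c : Ω => ∀ T ⊆ U, ¬ bad T c)).card : ℝ) with hval
  have hval0 : ∀ U, 0 ≤ val U := fun U => by simp only [hval]; positivity
  have key : ∀ n : ℕ, ∀ U : Finset V, U.card = n → ∀ x, x ∉ U →
      val U ≤ 2 * val (insert x U) := by
    intro n
    induction n using Nat.strong_induction_on with
    | _ n ih =>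
      intro U hU x hx
      have hsub : ∀ X : Finset V, X ⊆ U → val (U \ X) ≤ 2 ^ X.card * val U := by
        intro X
        induction X using Finset.induction_on with
        | empty => intro _; simp
        | insert a X ha ihX =>
          intro hX
          have haU : a ∈ U := hX (mem_insert_self _ _)
          have hXU : X ⊆ U := (subset_insert _ _).trans hX
          have e : insert a (U \ insert a X) = U \ X := by
            ext y
            simp only [mem_insert, mem_sdiff, not_or]
            constructor
            · rintro (rfl | ⟨h1, h2, h3⟩)
              · exact ⟨haU, ha⟩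
              · exact ⟨h1, h3⟩
            · rintro ⟨h1, h2⟩
              by_cases hy : y = a
              · exact Or.inl hy
              · exact Or.inr ⟨h1, hy, h2⟩
          have hc : (U \ insert a X).card < n := by
            rw [← hU]
            apply Finset.card_lt_card
            refine ⟨sdiff_subset, fun h => ?_⟩
            have := h haU
            simp at this
          have h1 := ih _ hc (U \ insert a X) rfl a (by simp)
          rw [e] at h1
          calc val (U \ insert a X) ≤ 2 * val (U \ X) := h1
            _ ≤ 2 * (2 ^ X.card * val U) := by gcongr; exact ihX hXU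
            _ = 2 ^ (insert a X).card * val U := by rw [card_insert_of_notMem ha]; ring
      -- the main inequality
      have hcover : univ.filter (fun c : Ω => ∀ T ⊆ U, ¬ bad T c) ⊆
          univ.filter (fun c : Ω => ∀ T ⊆ insert x U, ¬ bad T c) ∪
          ((univ : Finset (Finset V)).filter (fun S => x ∈ S)).biUnion
            (fun S => univ.filter (fun c : Ω => (∀ T ⊆ U \ S, ¬ bad T c) ∧ bad S c ∧
              S ⊆ insert x U)) := by
        intro c hc
        simp only [mem_filter, mem_univ, true_and, mem_union, mem_biUnion] at hc ⊢
        by_cases h : ∀ T ⊆ insert x U, ¬ bad T c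
        · exact Or.inl h
        · right
          push Not at h
          obtain ⟨S, hS, hb⟩ := h
          have hxS : x ∈ S := by
            by_contra hxS
            apply hc S _ hb
            intro y hy
            rcases mem_insert.mp (hS hy) with h | h
            · exact absurd (h ▸ hy) hxS
            · exact h
          exact ⟨S, hxS, fun T hT => hc T (hT.trans sdiff_subset), hb, hS⟩
      have hterm : ∀ S ∈ (univ : Finset (Finset V)).filter (fun S => x ∈ S),
          ((univ.filter (fun c : Ω => (∀ T ⊆ U \ S, ¬ bad T c) ∧ bad S c ∧
              S ⊆ insert x U)).card : ℝ) ≤ (2 ^ S.card * p S) * (val U / 2) := by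
        intro S hS
        have hxS : x ∈ S := by simpa using hS
        by_cases hSU : S ⊆ insert x U
        · have h1 : ((univ.filter (fun c : Ω => (∀ T ⊆ U \ S, ¬ bad T c) ∧ bad S c ∧
              S ⊆ insert x U)).card : ℝ) ≤
              ((univ.filter (fun c : Ω => (∀ T ⊆ U \ S, ¬ bad T c) ∧ bad S c)).card : ℝ) := by
            norm_cast
            apply Finset.card_le_card
            intro c hc
            simp only [mem_filter, mem_univ, true_and] at hc ⊢
            exact ⟨hc.1, hc.2.1⟩
          have h2 := hind S (U \ S) disjoint_sdiff
          have h3 : U \ S = U \ S.erase x := by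
            ext y
            simp only [mem_sdiff, mem_erase, not_and]
            constructor
            · rintro ⟨a, b⟩
              exact ⟨a, fun _ => b⟩
            · rintro ⟨a, b⟩
              refine ⟨a, b ?_⟩
              rintro rfl
              exact hx a
          have h4 : val (U \ S) ≤ 2 ^ (S.erase x).card * val U := by
            rw [h3]
            apply hsub
            intro y hy
            have hy' := mem_erase.mp hy
            rcases mem_insert.mp (hSU hy'.2) with h | h
            · exact absurd h hy'.1
            · exact h
          have h5 : S.card = (S.erase x).card + 1 := by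
            rw [card_erase_of_mem hxS]
            have : 0 < S.card := card_pos.mpr ⟨x, hxS⟩
            omega
          calc _ ≤ _ := h1
            _ ≤ p S * val (U \ S) := h2
            _ ≤ p S * (2 ^ (S.erase x).card * val U) := by
                exact mul_le_mul_of_nonneg_left h4 (hp S)
            _ = (2 ^ S.card * p S) * (val U / 2) := by rw [h5, pow_succ]; ring
        · have h0 : univ.filter (fun c : Ω => (∀ T ⊆ U \ S, ¬ bad T c) ∧ bad S c ∧
              S ⊆ insert x U) = ∅ := by
            rw [Finset.filter_eq_empty_iff]
            rintro c - ⟨-, -, h⟩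
            exact hSU h
          rw [h0]
          simp only [card_empty, Nat.cast_zero]
          exact mul_nonneg (mul_nonneg (by positivity) (hp S)) (by have := hval0 U; positivity)
      have hcard : val U ≤ val (insert x U) +
          ∑ S ∈ (univ : Finset (Finset V)).filter (fun S => x ∈ S),
            ((univ.filter (fun c : Ω => (∀ T ⊆ U \ S, ¬ bad T c) ∧ bad S c ∧
              S ⊆ insert x U)).card : ℝ) := by
        simp only [hval]
        exact_mod_cast (Finset.card_le_card hcover).trans
          ((Finset.card_union_le _ _).trans (Nat.add_le_add_left Finset.card_biUnion_le _))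
      have h6 : ∑ S ∈ (univ : Finset (Finset V)).filter (fun S => x ∈ S),
            ((univ.filter (fun c : Ω => (∀ T ⊆ U \ S, ¬ bad T c) ∧ bad S c ∧
              S ⊆ insert x U)).card : ℝ) ≤ val U / 2 := by
        calc _ ≤ ∑ S ∈ (univ : Finset (Finset V)).filter (fun S => x ∈ S),
              (2 ^ S.card * p S) * (val U / 2) := Finset.sum_le_sum hterm
          _ = (∑ S ∈ (univ : Finset (Finset V)).filter (fun S => x ∈ S),
              (2 ^ S.card * p S)) * (val U / 2) := by rw [Finset.sum_mul]
          _ ≤ 1 * (val U / 2) := by
              apply mul_le_mul_of_nonneg_right (hsum x)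
              have := hval0 U
              positivity
          _ = val U / 2 := one_mul _
      linarith
  have hpos : ∀ U : Finset V, 0 < val U := by
    intro U
    induction U using Finset.induction_on with
    | empty =>
      have : (univ.filter (fun c : Ω => ∀ T ⊆ (∅ : Finset V), ¬ bad T c)).Nonempty := by
        obtain ⟨c⟩ := ‹Nonempty Ω›
        refine ⟨c, ?_⟩
        simp only [mem_filter, mem_univ, true_and]
        intro T hT
        rw [Finset.subset_empty.mp hT]
        exact hempty c
      simp only [hval]
      exact_mod_cast Finset.card_pos.mpr this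
    | insert a U ha ih =>
      have := key _ U rfl a ha
      linarith
  have h := hpos univ
  simp only [hval] at h
  have h' : 0 < (univ.filter (fun c : Ω => ∀ T ⊆ (univ : Finset V), ¬ bad T c)).card := by
    exact_mod_cast h
  obtain ⟨c, hc⟩ := Finset.card_pos.mp h'
  simp only [mem_filter, mem_univ, true_and] at hc
  exact ⟨c, fun S => hc S (subset_univ S)⟩

end Pool.Agent.Lib.MP_e8016c_th
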