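import Mathlib
import Pool.Agent.Lib.MP_e8016c_th.Rosenfeld
import Pool.Agent.Lib.MP_e8016c_th.Coins
import Pool.Agent.Lib.MP_e8016c_th.ConnCount

/-!
# Row C4: the random graph of heads

PROOF.  `Ω = Sym2 V → Fin Q`, `H.Adj u v ↔ u ≠ v ∧ c s(u, v) = 0`.
`bad S c` := (`S` nonempty, `S.card ≤ k`, `ConnIn C S`, `2 A |S| ≤ Σ_{v ∈ S} deg_S v`, and
`c s(u,v) = 0` for all `u v ∈ S` with `C.Adj u v`) ∨ (`S.card = k`, `S` an `N`-clique and
`c s(u,v) ≠ 0` for all `u ≠ v ∈ S`).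
Probabilities (`coins_indep`): first kind: the edge set of `C` in `S` has at least `A |S|` elements
(`Sym2`), so `≤ Q ^ (-A |S|)`; second kind: `(1 - 1/Q) ^ (k(k-1)/2)`.
`p S` := `(if first then Q ^ (-A|S|) else 0) + (if second then (1-1/Q)^(k(k-1)/2) else 0)`.
Sum (`rosenfeld.hsum`): sets `S ∋ x` of the first kind with `|S| = j`, `2 ≤ j ≤ k` (for `j = 1` the
degree sum is `0 < 2A`): at most `(j Δ)^(j-1) ≤ (k Δ)^(j-1)`, contribution
`≤ 2 Q^(-A) (2 k Δ Q^(-A))^(j-1) ≤ 4^(-(j-1))`, in total `≤ 1/3`.  Second kind: at most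
`Δ^(k-1) ≤ Δ^k` sets (`S.erase x` is a `(k-1)`-subset of the `N`-neighbourhood of `x`),
contribution `≤ (2Δ)^k (1-1/Q)^(k(k-1)/2) ≤ 1/2` by `h2`.
-/

namespace Pool.Agent.Lib.MP_e8016c_th

open Finset

namespace Heads

open Classical in
/-- the edges of `C` inside `S` -/
noncomputable def E1 {V : Type*} [DecidableEq V] (C : SimpleGraph V) (S : Finset V) :
    Finset (Sym2 V) :=
  ((S ×ˢ S).filter (fun q => C.Adj q.1 q.2)).image (fun q => s(q.1, q.2))

open Classical in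
theorem sum_deg_le {V : Type*} [DecidableEq V] (C : SimpleGraph V) (S : Finset V) :
    ∑ v ∈ S, (S.filter (fun w => C.Adj v w)).card ≤ 2 * (E1 C S).card := by
  have h1 : ∑ v ∈ S, (S.filter (fun w => C.Adj v w)).card =
      ((S ×ˢ S).filter (fun q => C.Adj q.1 q.2)).card := by
    simp only [Finset.card_filter, Finset.sum_product]
  rw [h1]
  apply Finset.card_le_mul_card_image
  intro e he
  obtain ⟨⟨u, v⟩, hq, rfl⟩ := Finset.mem_image.mp he
  have : ((S ×ˢ S).filter (fun q => C.Adj q.1 q.2)).filter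
      (fun q => s(q.1, q.2) = s((u, v).1, (u, v).2)) ⊆ {(u, v), (v, u)} := by
    intro q hq
    simp only [mem_filter, Sym2.eq_iff] at hq
    simp only [mem_insert, mem_singleton]
    rcases hq.2 with ⟨a, b⟩ | ⟨a, b⟩
    · exact Or.inl (Prod.ext a b)
    · exact Or.inr (Prod.ext a b)
  exact (Finset.card_le_card this).trans Finset.card_le_two

open Classical in
theorem mem_E1 {V : Type*} [DecidableEq V] (C : SimpleGraph V) (S : Finset V) {e : Sym2 V}
    (he : e ∈ E1 C S) : ∃ u ∈ S, ∃ v ∈ S, C.Adj u v ∧ e = s(u, v) := by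
  obtain ⟨⟨u, v⟩, hq, rfl⟩ := Finset.mem_image.mp he
  simp only [mem_filter, mem_product] at hq
  exact ⟨u, hq.1.1, v, hq.1.2, hq.2, rfl⟩

/-- all pairs inside `S` -/
def E2 {V : Type*} [DecidableEq V] (S : Finset V) : Finset (Sym2 V) :=
  S.offDiag.image (fun q => s(q.1, q.2))

theorem card_E2 {V : Type*} [DecidableEq V] (S : Finset V) :
    (E2 S).card = S.card * (S.card - 1) / 2 := by
  have h := Sym2.card_image_offDiag S
  rw [Nat.choose_two_right] at h
  exact h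

theorem mem_E2 {V : Type*} [DecidableEq V] (S : Finset V) {e : Sym2 V}
    (he : e ∈ E2 S) : ∃ u ∈ S, ∃ v ∈ S, u ≠ v ∧ e = s(u, v) := by
  obtain ⟨⟨u, v⟩, hq, rfl⟩ := Finset.mem_image.mp he
  simp only [mem_offDiag] at hq
  exact ⟨u, hq.1, v, hq.2.1, hq.2.2, rfl⟩

open Classical in
/-- combinatorial part of the first kind -/
def P1 {V : Type*} [DecidableEq V] (C : SimpleGraph V) (k A : ℕ) (S : Finset V) : Prop :=
  S.Nonempty ∧ S.card ≤ k ∧ ConnIn C S ∧
    2 * A * S.card ≤ ∑ v ∈ S, (S.filter (fun w => C.Adj v w)).card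

/-- combinatorial part of the second kind -/
def P2 {V : Type*} (N : SimpleGraph V) (k : ℕ) (S : Finset V) : Prop :=
  S.card = k ∧ ∀ u ∈ S, ∀ v ∈ S, u ≠ v → N.Adj u v

/-- bad events -/
def Bad {V : Type*} [DecidableEq V] (N C : SimpleGraph V) (k A : ℕ) {Q : ℕ} (z : Fin Q)
    (S : Finset V) (c : Sym2 V → Fin Q) : Prop :=
  (P1 C k A S ∧ ∀ u ∈ S, ∀ v ∈ S, C.Adj u v → c s(u, v) = z) ∨
    (P2 N k S ∧ ∀ u ∈ S, ∀ v ∈ S, u ≠ v → c s(u, v) ≠ z)

open Classical in
/-- probability of the first kind -/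
noncomputable def p1 {V : Type*} [DecidableEq V] (C : SimpleGraph V) (k A Q : ℕ)
    (S : Finset V) : ℝ :=
  if P1 C k A S then 1 / (Q : ℝ) ^ (A * S.card) else 0

open Classical in
/-- probability of the second kind -/
noncomputable def p2 {V : Type*} (N : SimpleGraph V) (k Q : ℕ) (S : Finset V) : ℝ :=
  if P2 N k S then ((Q - 1 : ℕ) : ℝ) ^ (k * (k - 1) / 2) / (Q : ℝ) ^ (k * (k - 1) / 2) else 0

theorem p1_nonneg {V : Type*} [DecidableEq V] (C : SimpleGraph V) (k A Q : ℕ) (S : Finset V) :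
    0 ≤ p1 C k A Q S := by
  unfold p1
  split_ifs
  · positivity
  · exact le_rfl

theorem p2_nonneg {V : Type*} (N : SimpleGraph V) (k Q : ℕ) (S : Finset V) :
    0 ≤ p2 N k Q S := by
  unfold p2
  split_ifs
  · positivity
  · exact le_rfl

theorem bad_congr {V : Type*} [DecidableEq V] (N C : SimpleGraph V) (k A : ℕ) {Q : ℕ}
    (z : Fin Q) (T : Finset V) (c c' : Sym2 V → Fin Q)
    (h : ∀ u ∈ T, ∀ v ∈ T, c s(u, v) = c' s(u, v)) (hb : Bad N C k A z T c) :
    Bad N C k A z T c' := by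
  rcases hb with ⟨a, b⟩ | ⟨a, b⟩
  · exact Or.inl ⟨a, fun u hu v hv huv => by rw [← h u hu v hv]; exact b u hu v hv huv⟩
  · exact Or.inr ⟨a, fun u hu v hv huv => by rw [← h u hu v hv]; exact b u hu v hv huv⟩

theorem good_congr {V : Type*} [DecidableEq V] (N C : SimpleGraph V) (k A : ℕ) {Q : ℕ}
    (z : Fin Q) (S U : Finset V) (hSU : Disjoint S U) (F : Finset (Sym2 V))
    (hF : ∀ e ∈ F, ∀ v ∈ e, v ∈ S) (c c' : Sym2 V → Fin Q) (h : ∀ e, e ∉ F → c e = c' e)
    (hg : ∀ T ⊆ U, ¬ Bad N C k A z T c) : ∀ T ⊆ U, ¬ Bad N C k A z T c' := by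
  intro T hT hb
  refine hg T hT (bad_congr N C k A z T c' c ?_ hb)
  intro u hu v hv
  symm
  apply h
  intro he
  have hus : u ∈ S := hF _ he u (Sym2.mem_mk_left u v)
  exact (Finset.disjoint_left.mp hSU hus) (hT hu)

theorem good_iff {V : Type*} [DecidableEq V] (N C : SimpleGraph V) (k A : ℕ) {Q : ℕ}
    (z : Fin Q) (S U : Finset V) (hSU : Disjoint S U) (F : Finset (Sym2 V))
    (hF : ∀ e ∈ F, ∀ v ∈ e, v ∈ S) (c c' : Sym2 V → Fin Q) (h : ∀ e, e ∉ F → c e = c' e) :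
    (∀ T ⊆ U, ¬ Bad N C k A z T c) ↔ (∀ T ⊆ U, ¬ Bad N C k A z T c') :=
  ⟨good_congr N C k A z S U hSU F hF c c' h,
    good_congr N C k A z S U hSU F hF c' c (fun e he => (h e he).symm)⟩

open Classical in
theorem ind1 {V : Type*} [Fintype V] [DecidableEq V] (C : SimpleGraph V) (k A : ℕ) {Q : ℕ}
    (hQ : 0 < Q) (z : Fin Q) (S : Finset V) (X : (Sym2 V → Fin Q) → Prop)
    (hX : ∀ F : Finset (Sym2 V), (∀ e ∈ F, ∀ v ∈ e, v ∈ S) → ∀ c c' : Sym2 V → Fin Q,
      (∀ e, e ∉ F → c e = c' e) → (X c ↔ X c')) :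
    ((univ.filter (fun c : Sym2 V → Fin Q => X c ∧
      (P1 C k A S ∧ ∀ u ∈ S, ∀ v ∈ S, C.Adj u v → c s(u, v) = z))).card : ℝ) ≤
      p1 C k A Q S * ((univ.filter (fun c : Sym2 V → Fin Q => X c)).card : ℝ) := by
  by_cases hS : P1 C k A S
  · have hle : (univ.filter (fun c : Sym2 V → Fin Q => X c ∧
      (P1 C k A S ∧ ∀ u ∈ S, ∀ v ∈ S, C.Adj u v → c s(u, v) = z))).card ≤
      (univ.filter (fun c : Sym2 V → Fin Q => X c ∧ ∀ e ∈ E1 C S, c e ∈ ({z} : Finset _))).card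
      := by
      apply Finset.card_le_card
      intro c hc
      simp only [mem_filter, mem_univ, true_and] at hc ⊢
      refine ⟨hc.1, fun e he => ?_⟩
      obtain ⟨u, hu, v, hv, huv, rfl⟩ := mem_E1 C S he
      rw [Finset.mem_singleton]
      exact hc.2.2 u hu v hv huv
    have hci := coins_indep X (E1 C S) (hX (E1 C S) (by
      intro e he w hw
      obtain ⟨u, hu, v, hv, huv, rfl⟩ := mem_E1 C S he
      rcases Sym2.mem_iff.mp hw with h | h
      · exact h ▸ hu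
      · exact h ▸ hv)) {z}
    rw [Finset.card_singleton, one_pow, mul_one] at hci
    have hE : A * S.card ≤ (E1 C S).card := by
      have h3 := sum_deg_le C S
      have h4 := hS.2.2.2
      have h5 : 2 * (A * S.card) ≤ 2 * (E1 C S).card := by
        calc 2 * (A * S.card) = 2 * A * S.card := by ring
          _ ≤ _ := h4
          _ ≤ _ := h3
      omega
    have hpow : Q ^ (A * S.card) ≤ Q ^ (E1 C S).card := Nat.pow_le_pow_right hQ hE
    have hfin : (univ.filter (fun c : Sym2 V → Fin Q => X c ∧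
      (P1 C k A S ∧ ∀ u ∈ S, ∀ v ∈ S, C.Adj u v → c s(u, v) = z))).card * Q ^ (A * S.card) ≤
      (univ.filter (fun c : Sym2 V → Fin Q => X c)).card := by
      calc _ ≤ (univ.filter (fun c : Sym2 V → Fin Q =>
            X c ∧ ∀ e ∈ E1 C S, c e ∈ ({z} : Finset _))).card * Q ^ (E1 C S).card :=
            Nat.mul_le_mul hle hpow
        _ = (univ.filter (fun c : Sym2 V → Fin Q => X c)).card := by convert hci
    have hQR : (0 : ℝ) < Q := by exact_mod_cast hQ
    unfold p1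
    rw [if_pos hS, div_mul_eq_mul_div, one_mul, le_div_iff₀ (by positivity)]
    exact_mod_cast hfin
  · have h0 : univ.filter (fun c : Sym2 V → Fin Q => X c ∧
      (P1 C k A S ∧ ∀ u ∈ S, ∀ v ∈ S, C.Adj u v → c s(u, v) = z)) = ∅ := by
      rw [Finset.filter_eq_empty_iff]
      rintro c - ⟨-, h, -⟩
      exact hS h
    rw [h0]
    simp only [card_empty, Nat.cast_zero]
    exact mul_nonneg (p1_nonneg C k A Q S) (by positivity)

open Classical in
theorem ind2 {V : Type*} [Fintype V] [DecidableEq V] (N : SimpleGraph V) (k : ℕ) {Q : ℕ}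
    (hQ : 0 < Q) (z : Fin Q) (S : Finset V) (X : (Sym2 V → Fin Q) → Prop)
    (hX : ∀ F : Finset (Sym2 V), (∀ e ∈ F, ∀ v ∈ e, v ∈ S) → ∀ c c' : Sym2 V → Fin Q,
      (∀ e, e ∉ F → c e = c' e) → (X c ↔ X c')) :
    ((univ.filter (fun c : Sym2 V → Fin Q => X c ∧
      (P2 N k S ∧ ∀ u ∈ S, ∀ v ∈ S, u ≠ v → c s(u, v) ≠ z))).card : ℝ) ≤
      p2 N k Q S * ((univ.filter (fun c : Sym2 V → Fin Q => X c)).card : ℝ) := by
  by_cases hS : P2 N k S
  · have hle : (univ.filter (fun c : Sym2 V → Fin Q => X c ∧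
      (P2 N k S ∧ ∀ u ∈ S, ∀ v ∈ S, u ≠ v → c s(u, v) ≠ z))).card ≤
      (univ.filter (fun c : Sym2 V → Fin Q => X c ∧ ∀ e ∈ E2 S, c e ∈ univ.erase z)).card
      := by
      apply Finset.card_le_card
      intro c hc
      simp only [mem_filter, mem_univ, true_and] at hc ⊢
      refine ⟨hc.1, fun e he => ?_⟩
      obtain ⟨u, hu, v, hv, huv, rfl⟩ := mem_E2 S he
      rw [Finset.mem_erase]
      exact ⟨hc.2.2 u hu v hv huv, mem_univ _⟩
    have hci := coins_indep X (E2 S) (hX (E2 S) (by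
      intro e he w hw
      obtain ⟨u, hu, v, hv, huv, rfl⟩ := mem_E2 S he
      rcases Sym2.mem_iff.mp hw with h | h
      · exact h ▸ hu
      · exact h ▸ hv)) (univ.erase z)
    rw [Finset.card_erase_of_mem (mem_univ z), Finset.card_univ, Fintype.card_fin,
      card_E2, hS.1] at hci
    have hfin : (univ.filter (fun c : Sym2 V → Fin Q => X c ∧
      (P2 N k S ∧ ∀ u ∈ S, ∀ v ∈ S, u ≠ v → c s(u, v) ≠ z))).card * Q ^ (k * (k - 1) / 2) ≤
      (univ.filter (fun c : Sym2 V → Fin Q => X c)).card * (Q - 1) ^ (k * (k - 1) / 2) := by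
      calc _ ≤ (univ.filter (fun c : Sym2 V → Fin Q =>
            X c ∧ ∀ e ∈ E2 S, c e ∈ univ.erase z)).card * Q ^ (k * (k - 1) / 2) :=
            Nat.mul_le_mul hle le_rfl
        _ = (univ.filter (fun c : Sym2 V → Fin Q => X c)).card *
            (Q - 1) ^ (k * (k - 1) / 2) := by convert hci
    have hQR : (0 : ℝ) < Q := by exact_mod_cast hQ
    unfold p2
    rw [if_pos hS, div_mul_eq_mul_div, le_div_iff₀ (by positivity), mul_comm (_ ^ _)
      ((univ.filter (fun c : Sym2 V → Fin Q => X c)).card : ℝ)]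
    exact_mod_cast hfin
  · have h0 : univ.filter (fun c : Sym2 V → Fin Q => X c ∧
      (P2 N k S ∧ ∀ u ∈ S, ∀ v ∈ S, u ≠ v → c s(u, v) ≠ z)) = ∅ := by
      rw [Finset.filter_eq_empty_iff]
      rintro c - ⟨-, h, -⟩
      exact hS h
    rw [h0]
    simp only [card_empty, Nat.cast_zero]
    exact mul_nonneg (p2_nonneg N k Q S) (by positivity)

open Classical in
theorem hind {V : Type*} [Fintype V] [DecidableEq V] (N C : SimpleGraph V) (k A : ℕ) {Q : ℕ}
    (hQ : 0 < Q) (z : Fin Q) (S U : Finset V) (hSU : Disjoint S U) :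
    ((univ.filter (fun c : Sym2 V → Fin Q =>
      (∀ T ⊆ U, ¬ Bad N C k A z T c) ∧ Bad N C k A z S c)).card : ℝ) ≤
      (p1 C k A Q S + p2 N k Q S) *
        ((univ.filter (fun c : Sym2 V → Fin Q => ∀ T ⊆ U, ¬ Bad N C k A z T c)).card : ℝ) := by
  obtain ⟨X, hXdef⟩ : ∃ X : (Sym2 V → Fin Q) → Prop,
      X = fun c => ∀ T ⊆ U, ¬ Bad N C k A z T c := ⟨_, rfl⟩
  have hX : ∀ F : Finset (Sym2 V), (∀ e ∈ F, ∀ v ∈ e, v ∈ S) → ∀ c c' : Sym2 V → Fin Q,
      (∀ e, e ∉ F → c e = c' e) → (X c ↔ X c') := by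
    intro F hF c c' h
    rw [hXdef]
    exact good_iff N C k A z S U hSU F hF c c' h
  have e1 : univ.filter (fun c : Sym2 V → Fin Q =>
      (∀ T ⊆ U, ¬ Bad N C k A z T c) ∧ Bad N C k A z S c) =
      univ.filter (fun c : Sym2 V → Fin Q => X c ∧ Bad N C k A z S c) := by
    ext c
    simp only [mem_filter, mem_univ, true_and, hXdef]
  have e2 : univ.filter (fun c : Sym2 V → Fin Q => ∀ T ⊆ U, ¬ Bad N C k A z T c) =
      univ.filter (fun c : Sym2 V → Fin Q => X c) := by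
    ext c
    simp only [mem_filter, mem_univ, true_and, hXdef]
  rw [e1, e2]
  have hsub : univ.filter (fun c : Sym2 V → Fin Q => X c ∧ Bad N C k A z S c) ⊆
      univ.filter (fun c : Sym2 V → Fin Q => X c ∧
        (P1 C k A S ∧ ∀ u ∈ S, ∀ v ∈ S, C.Adj u v → c s(u, v) = z)) ∪
      univ.filter (fun c : Sym2 V → Fin Q => X c ∧
        (P2 N k S ∧ ∀ u ∈ S, ∀ v ∈ S, u ≠ v → c s(u, v) ≠ z)) := by
    intro c hc
    simp only [mem_filter, mem_univ, true_and, mem_union] at hc ⊢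
    rcases hc with ⟨a, b | b⟩
    · exact Or.inl ⟨a, b⟩
    · exact Or.inr ⟨a, b⟩
  calc _ ≤ ((univ.filter (fun c : Sym2 V → Fin Q => X c ∧
        (P1 C k A S ∧ ∀ u ∈ S, ∀ v ∈ S, C.Adj u v → c s(u, v) = z))).card : ℝ) +
      ((univ.filter (fun c : Sym2 V → Fin Q => X c ∧
        (P2 N k S ∧ ∀ u ∈ S, ∀ v ∈ S, u ≠ v → c s(u, v) ≠ z))).card : ℝ) := by
        exact_mod_cast (Finset.card_le_card hsub).trans (Finset.card_union_le _ _)
    _ ≤ p1 C k A Q S * ((univ.filter (fun c : Sym2 V → Fin Q => X c)).card : ℝ) +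
        p2 N k Q S * ((univ.filter (fun c : Sym2 V → Fin Q => X c)).card : ℝ) :=
        add_le_add (ind1 C k A hQ z S X hX) (ind2 N k hQ z S X hX)
    _ = _ := by ring

open Classical in
theorem sum1_card {V : Type*} [Fintype V] [DecidableEq V] (C : SimpleGraph V)
    (Δ k Q A : ℕ) (hΔ : ∀ v, (univ.filter (fun w => C.Adj v w)).card ≤ Δ) (hΔ1 : 1 ≤ Δ)
    (hk : 2 ≤ k) (hQ : 2 ≤ Q) (hA : 1 ≤ A) (h1 : 8 * k * Δ ≤ Q ^ A) (x : V) (j : ℕ)
    (hjk : j ≤ k) :
    ∑ S ∈ ((univ : Finset (Finset V)).filter (fun S => x ∈ S ∧ P1 C k A S)).filter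
      (fun S => S.card = j), (2 : ℝ) ^ S.card * p1 C k A Q S ≤ (1 / 4) * (1 / 2) ^ j := by
  have hB16 : (16 : ℝ) ≤ (Q : ℝ) ^ A := by
    have : 16 ≤ Q ^ A := by nlinarith [Nat.mul_le_mul hk hΔ1]
    exact_mod_cast this
  have hBk : 8 * ((k : ℝ) * Δ) ≤ (Q : ℝ) ^ A := by
    have : 8 * (k * Δ) ≤ Q ^ A := by rw [← mul_assoc]; exact h1
    exact_mod_cast this
  have hQR : (0 : ℝ) < Q := by
    have : 0 < Q := by omega
    exact_mod_cast this
  have hBpos : (0 : ℝ) < (Q : ℝ) ^ A := by positivity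
  by_cases hj2 : j < 2
  · have h0 : ((univ : Finset (Finset V)).filter (fun S => x ∈ S ∧ P1 C k A S)).filter
      (fun S => S.card = j) = ∅ := by
      rw [Finset.filter_eq_empty_iff]
      intro S hS hSj
      simp only [mem_filter, mem_univ, true_and] at hS
      have hpos : 0 < S.card := card_pos.mpr ⟨x, hS.1⟩
      have hone : S.card = 1 := by omega
      obtain ⟨y, rfl⟩ := Finset.card_eq_one.mp hone
      have h4 := hS.2.2.2.2
      simp only [sum_singleton, card_singleton, mul_one] at h4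
      have h5 : ({y} : Finset V).filter (fun w => C.Adj y w) = ∅ := by
        rw [Finset.filter_eq_empty_iff]
        intro w hw
        rw [mem_singleton] at hw
        subst hw
        exact SimpleGraph.irrefl C
      rw [h5, card_empty] at h4
      omega
    rw [h0, sum_empty]
    positivity
  · have hj2' : 2 ≤ j := by omega
    have hcount : (((univ : Finset (Finset V)).filter (fun S => x ∈ S ∧ P1 C k A S)).filter
      (fun S => S.card = j)).card ≤ (j * Δ) ^ (j - 1) := by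
      refine le_trans (Finset.card_le_card ?_) (card_connIn_le C Δ hΔ x j (by omega))
      intro S hS
      simp only [mem_filter, mem_univ, true_and] at hS ⊢
      exact ⟨hS.1.1, hS.2, hS.1.2.2.2.1⟩
    have hterm : ∀ S ∈ ((univ : Finset (Finset V)).filter (fun S => x ∈ S ∧ P1 C k A S)).filter
      (fun S => S.card = j), (2 : ℝ) ^ S.card * p1 C k A Q S ≤ 2 ^ j / ((Q : ℝ) ^ A) ^ j := by
      intro S hS
      simp only [mem_filter, mem_univ, true_and] at hS
      unfold p1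
      rw [if_pos hS.1.2, hS.2, pow_mul, mul_one_div]
    calc _ ≤ ∑ S ∈ ((univ : Finset (Finset V)).filter (fun S => x ∈ S ∧ P1 C k A S)).filter
          (fun S => S.card = j), (2 : ℝ) ^ j / ((Q : ℝ) ^ A) ^ j := Finset.sum_le_sum hterm
      _ = ((((univ : Finset (Finset V)).filter (fun S => x ∈ S ∧ P1 C k A S)).filter
          (fun S => S.card = j)).card : ℝ) * (2 ^ j / ((Q : ℝ) ^ A) ^ j) := by
          rw [sum_const, nsmul_eq_mul]
      _ ≤ ((k : ℝ) * Δ) ^ (j - 1) * (2 ^ j / ((Q : ℝ) ^ A) ^ j) := by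
          apply mul_le_mul_of_nonneg_right _ (by positivity)
          calc ((((univ : Finset (Finset V)).filter (fun S => x ∈ S ∧ P1 C k A S)).filter
                (fun S => S.card = j)).card : ℝ) ≤ (((j * Δ) ^ (j - 1) : ℕ) : ℝ) := by
                exact_mod_cast hcount
            _ = ((j : ℝ) * Δ) ^ (j - 1) := by push_cast; ring
            _ ≤ ((k : ℝ) * Δ) ^ (j - 1) := by
                apply pow_le_pow_left₀ (by positivity)
                apply mul_le_mul_of_nonneg_right _ (by positivity)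
                exact_mod_cast hjk
      _ ≤ ((Q : ℝ) ^ A / 8) ^ (j - 1) * (2 ^ j / ((Q : ℝ) ^ A) ^ j) := by
          apply mul_le_mul_of_nonneg_right _ (by positivity)
          apply pow_le_pow_left₀ (by positivity)
          linarith
      _ ≤ (1 / 4) * (1 / 2) ^ j := by
          obtain ⟨i, rfl⟩ : ∃ i, j = i + 1 := ⟨j - 1, by omega⟩
          have hi : 1 ≤ i := by omega
          rw [Nat.add_sub_cancel]
          obtain ⟨B, hB⟩ : ∃ B : ℝ, B = (Q : ℝ) ^ A := ⟨_, rfl⟩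
          rw [← hB] at hBpos hB16 ⊢
          have e1 : (B / 8) ^ i * (2 ^ (i + 1) / B ^ (i + 1)) = (1 / 4) ^ i * (2 / B) := by
            rw [div_pow, pow_succ, pow_succ, show (8 : ℝ) ^ i = 4 ^ i * 2 ^ i by
              rw [← mul_pow]; norm_num]
            rw [one_div, inv_pow]
            field_simp
          rw [e1]
          have e2 : (2 : ℝ) / B ≤ 1 / 8 := by
            rw [div_le_div_iff₀ hBpos (by norm_num)]
            linarith
          have e3 : ((1 : ℝ) / 4) ^ i ≤ (1 / 2) ^ i :=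
            pow_le_pow_left₀ (by norm_num) (by norm_num) i
          calc ((1 : ℝ) / 4) ^ i * (2 / B) ≤ (1 / 2) ^ i * (1 / 8) :=
                mul_le_mul e3 e2 (by positivity) (by positivity)
            _ = (1 / 4) * (1 / 2) ^ (i + 1) := by rw [pow_succ]; ring

open Classical in
theorem sum1 {V : Type*} [Fintype V] [DecidableEq V] (C : SimpleGraph V)
    (Δ k Q A : ℕ) (hΔ : ∀ v, (univ.filter (fun w => C.Adj v w)).card ≤ Δ) (hΔ1 : 1 ≤ Δ)
    (hk : 2 ≤ k) (hQ : 2 ≤ Q) (hA : 1 ≤ A) (h1 : 8 * k * Δ ≤ Q ^ A) (x : V) :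
    ∑ S ∈ (univ : Finset (Finset V)).filter (fun S => x ∈ S),
      (2 : ℝ) ^ S.card * p1 C k A Q S ≤ 1 / 2 := by
  have hfib : ∑ S ∈ (univ : Finset (Finset V)).filter (fun S => x ∈ S),
      (2 : ℝ) ^ S.card * p1 C k A Q S =
      ∑ S ∈ (univ : Finset (Finset V)).filter (fun S => x ∈ S ∧ P1 C k A S),
        (2 : ℝ) ^ S.card * p1 C k A Q S := by
    symm
    apply Finset.sum_subset
    · intro S hS
      simp only [mem_filter, mem_univ, true_and] at hS ⊢
      exact hS.1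
    · intro S hS hS'
      simp only [mem_filter, mem_univ, true_and] at hS hS'
      have : ¬ P1 C k A S := fun h => hS' ⟨hS, h⟩
      unfold p1
      rw [if_neg this, mul_zero]
  rw [hfib]
  have hmaps : ∀ S ∈ (univ : Finset (Finset V)).filter (fun S => x ∈ S ∧ P1 C k A S),
      S.card ∈ range (k + 1) := by
    intro S hS
    simp only [mem_filter, mem_univ, true_and] at hS
    have := hS.2.2.1
    simp only [mem_range]
    omega
  rw [← Finset.sum_fiberwise_of_maps_to hmaps]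
  calc _ ≤ ∑ j ∈ range (k + 1), (1 / 4 : ℝ) * (1 / 2) ^ j := by
        apply Finset.sum_le_sum
        intro j hj
        rw [mem_range] at hj
        exact sum1_card C Δ k Q A hΔ hΔ1 hk hQ hA h1 x j (by omega)
    _ = (1 / 4) * ∑ j ∈ range (k + 1), (1 / 2 : ℝ) ^ j := by rw [Finset.mul_sum]
    _ ≤ (1 / 4) * 2 := by
        have := sum_geometric_two_le (k + 1)
        linarith
    _ = 1 / 2 := by norm_num

open Classical in
theorem sum2 {V : Type*} [Fintype V] [DecidableEq V] (N : SimpleGraph V)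
    (Δ k Q : ℕ) (hΔ : ∀ v, (univ.filter (fun w => N.Adj v w)).card ≤ Δ) (hΔ1 : 1 ≤ Δ)
    (hk : 2 ≤ k) (hQ : 2 ≤ Q)
    (h2 : 2 * (2 * Δ) ^ k * (Q - 1) ^ (k * (k - 1) / 2) ≤ Q ^ (k * (k - 1) / 2)) (x : V) :
    ∑ S ∈ (univ : Finset (Finset V)).filter (fun S => x ∈ S),
      (2 : ℝ) ^ S.card * p2 N k Q S ≤ 1 / 2 := by
  have hQR : (0 : ℝ) < Q := by
    have : 0 < Q := by omega
    exact_mod_cast this
  have hfib : ∑ S ∈ (univ : Finset (Finset V)).filter (fun S => x ∈ S),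
      (2 : ℝ) ^ S.card * p2 N k Q S =
      ∑ S ∈ (univ : Finset (Finset V)).filter (fun S => x ∈ S ∧ P2 N k S),
        (2 : ℝ) ^ S.card * p2 N k Q S := by
    symm
    apply Finset.sum_subset
    · intro S hS
      simp only [mem_filter, mem_univ, true_and] at hS ⊢
      exact hS.1
    · intro S hS hS'
      simp only [mem_filter, mem_univ, true_and] at hS hS'
      have : ¬ P2 N k S := fun h => hS' ⟨hS, h⟩
      unfold p2
      rw [if_neg this, mul_zero]
  rw [hfib]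
  have hcount : ((univ : Finset (Finset V)).filter (fun S => x ∈ S ∧ P2 N k S)).card ≤ Δ ^ k := by
    have hinj : ((univ : Finset (Finset V)).filter (fun S => x ∈ S ∧ P2 N k S)).card ≤
        (powersetCard (k - 1) (univ.filter (fun w => N.Adj x w))).card := by
      apply Finset.card_le_card_of_injOn (fun S => S.erase x)
      · intro S hS
        rw [Finset.mem_coe, mem_filter] at hS
        rw [Finset.mem_coe, mem_powersetCard]
        refine ⟨?_, ?_⟩
        · intro y hy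
          rw [mem_erase] at hy
          simp only [mem_filter, mem_univ, true_and]
          exact hS.2.2.2 x hS.2.1 y hy.2 (Ne.symm hy.1)
        · rw [card_erase_of_mem hS.2.1, hS.2.2.1]
      · intro S hS T hT hST
        rw [Finset.mem_coe, mem_filter] at hS hT
        have : insert x (S.erase x) = insert x (T.erase x) := by
          simp only at hST
          rw [hST]
        rwa [insert_erase hS.2.1, insert_erase hT.2.1] at this
    rw [card_powersetCard] at hinj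
    calc _ ≤ _ := hinj
      _ ≤ (univ.filter (fun w => N.Adj x w)).card ^ (k - 1) := Nat.choose_le_pow _ _
      _ ≤ Δ ^ (k - 1) := Nat.pow_le_pow_left (hΔ x) _
      _ ≤ Δ ^ k := Nat.pow_le_pow_right hΔ1 (by omega)
  have hterm : ∀ S ∈ (univ : Finset (Finset V)).filter (fun S => x ∈ S ∧ P2 N k S),
      (2 : ℝ) ^ S.card * p2 N k Q S = 2 ^ k *
        (((Q - 1 : ℕ) : ℝ) ^ (k * (k - 1) / 2) / (Q : ℝ) ^ (k * (k - 1) / 2)) := by
    intro S hS
    simp only [mem_filter, mem_univ, true_and] at hS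
    unfold p2
    rw [if_pos hS.2, hS.2.1]
  rw [Finset.sum_congr rfl hterm, sum_const, nsmul_eq_mul]
  obtain ⟨M, hM⟩ : ∃ M : ℕ, M = k * (k - 1) / 2 := ⟨_, rfl⟩
  rw [← hM] at h2 ⊢
  have h2' : 2 * ((2 : ℝ) * Δ) ^ k * ((Q - 1 : ℕ) : ℝ) ^ M ≤ (Q : ℝ) ^ M := by
    exact_mod_cast h2
  calc ((((univ : Finset (Finset V)).filter (fun S => x ∈ S ∧ P2 N k S)).card : ℕ) : ℝ) *
        (2 ^ k * (((Q - 1 : ℕ) : ℝ) ^ M / (Q : ℝ) ^ M))
      ≤ (Δ : ℝ) ^ k * (2 ^ k * (((Q - 1 : ℕ) : ℝ) ^ M / (Q : ℝ) ^ M)) := by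
        apply mul_le_mul_of_nonneg_right _ (by positivity)
        exact_mod_cast hcount
    _ = (((2 : ℝ) * Δ) ^ k * ((Q - 1 : ℕ) : ℝ) ^ M) / (Q : ℝ) ^ M := by
        rw [mul_pow]; ring
    _ ≤ 1 / 2 := by
        rw [div_le_div_iff₀ (by positivity) (by norm_num)]
        linarith

end Heads

open Heads in
open Classical in
theorem exists_heads {V : Type*} [Fintype V] [DecidableEq V] (N C : SimpleGraph V) (hCN : C ≤ N)
    (Δ k Q A : ℕ) (hΔ : ∀ v, (univ.filter (fun w => N.Adj v w)).card ≤ Δ) (hΔ1 : 1 ≤ Δ)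
    (hk : 2 ≤ k) (hQ : 2 ≤ Q) (hA : 1 ≤ A) (h1 : 8 * k * Δ ≤ Q ^ A)
    (h2 : 2 * (2 * Δ) ^ k * (Q - 1) ^ (k * (k - 1) / 2) ≤ Q ^ (k * (k - 1) / 2)) :
    ∃ H : SimpleGraph V,
      (∀ S : Finset V, S.Nonempty → S.card ≤ k → ConnIn C S →
        2 * A * S.card ≤ ∑ v ∈ S, (S.filter (fun w => C.Adj v w)).card →
        ∃ u ∈ S, ∃ v ∈ S, C.Adj u v ∧ ¬ H.Adj u v) ∧
      (∀ S : Finset V, S.card = k → (∀ u ∈ S, ∀ v ∈ S, u ≠ v → N.Adj u v) →
        ∃ u ∈ S, ∃ v ∈ S, H.Adj u v) := by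
  have hQ0 : 0 < Q := by omega
  obtain ⟨z, hz⟩ : ∃ z : Fin Q, z.val = 0 := ⟨⟨0, hQ0⟩, rfl⟩
  have : Nonempty (Fin Q) := ⟨z⟩
  have hΔC : ∀ v, (univ.filter (fun w => C.Adj v w)).card ≤ Δ := by
    intro v
    refine le_trans (Finset.card_le_card ?_) (hΔ v)
    intro w hw
    simp only [mem_filter, mem_univ, true_and] at hw ⊢
    exact hCN hw
  obtain ⟨c, hc⟩ := rosenfeld (Bad N C k A z) (fun S => p1 C k A Q S + p2 N k Q S)
    (fun S => add_nonneg (p1_nonneg C k A Q S) (p2_nonneg N k Q S)) (by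
      intro c h
      rcases h with ⟨h, -⟩ | ⟨h, -⟩
      · exact Finset.not_nonempty_empty h.1
      · have := h.1
        rw [card_empty] at this
        omega) (hind N C k A hQ0 z) (by
      intro x
      have e : ∀ S : Finset V, (2 : ℝ) ^ S.card * (p1 C k A Q S + p2 N k Q S) =
          2 ^ S.card * p1 C k A Q S + 2 ^ S.card * p2 N k Q S := fun S => by ring
      simp only [e]
      rw [Finset.sum_add_distrib]
      have := sum1 C Δ k Q A hΔC hΔ1 hk hQ hA h1 x
      have := sum2 N Δ k Q hΔ hΔ1 hk hQ h2 x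
      linarith)
  refine ⟨⟨fun u v => u ≠ v ∧ c s(u, v) = z, ?_, ?_⟩, ?_, ?_⟩
  · exact ⟨fun u v h => ⟨h.1.symm, by rw [Sym2.eq_swap]; exact h.2⟩⟩
  · exact ⟨fun u h => h.1 rfl⟩
  · intro S hS hSk hconn hdeg
    by_contra hcon
    push Not at hcon
    apply hc S
    refine Or.inl ⟨⟨hS, hSk, hconn, hdeg⟩, fun u hu v hv huv => ?_⟩
    exact (hcon u hu v hv huv).2
  · intro S hSk hcl
    by_contra hcon
    push Not at hcon
    apply hc S
    refine Or.inr ⟨⟨hSk, hcl⟩, fun u hu v hv huv hz' => ?_⟩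
    exact hcon u hu v hv ⟨huv, hz'⟩

end Pool.Agent.Lib.MP_e8016c_th
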