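import Mathlib
import Pool.Agent.Lib.MP_e8016c.Indep
import Pool.Agent.Lib.MP_e8016c_th.Heads
import Pool.Agent.Lib.MP_e8016c_th.Dist

/-!
# Rows D2 (red cliques), D3 (blue cliques), D4 (assembly): the colouring scheme

`R` is `K_k`-free, `B` has bounded degree, `f` is a proper colouring of `B` with labels in `Λ`,
`H` the graph of heads.  The colour of an edge `uv` of `R ⊔ B` is *blue* iff `IsBlue`:
* `B`-edge: `Close (f u) (f v)` or heads;
* not a `B`-edge, distance `≤ 2`: heads;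
* not a `B`-edge, distance `3..6`: not `Near` or heads;
* not a `B`-edge, distance `> 6`: not `Near`.
-/

namespace Pool.Agent.Lib.MP_e8016c_th

open Finset

lemma near_symm {Λ : Type*} {Γ : SimpleGraph Λ} {x y : Λ} (h : Near Γ x y) : Near Γ y x := by
  rcases h with h | h
  · exact Or.inl h.symm
  · exact Or.inr h.symm

lemma close_symm {Λ : Type*} {Γ : SimpleGraph Λ} {x y : Λ} (h : Close Γ x y) : Close Γ y x := by
  obtain ⟨z, h1, h2⟩ := h
  exact ⟨z, h2, h1⟩

lemma close_refl {Λ : Type*} {Γ : SimpleGraph Λ} (x : Λ) : Close Γ x x :=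
  ⟨x, Or.inl rfl, Or.inl rfl⟩

section
variable {V Λ : Type*} (B H : SimpleGraph V) (Γ : SimpleGraph Λ) (f : V → Λ)

def IsBlue (u v : V) : Prop :=
  (B.Adj u v ∧ (Close Γ (f u) (f v) ∨ H.Adj u v)) ∨
  (¬ B.Adj u v ∧ Dle B 2 u v ∧ H.Adj u v) ∨
  (¬ B.Adj u v ∧ ¬ Dle B 2 u v ∧ Dle B 6 u v ∧ (¬ Near Γ (f u) (f v) ∨ H.Adj u v)) ∨
  (¬ B.Adj u v ∧ ¬ Dle B 6 u v ∧ ¬ Near Γ (f u) (f v))

/-- Costly pairs: such a pair can only be blue if it is a head (or, in the last case, if the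
distance is at most `6` and it is a head). -/
def Costly : SimpleGraph V where
  Adj u v := u ≠ v ∧ ((B.Adj u v ∧ ¬ Close Γ (f u) (f v)) ∨ (¬ B.Adj u v ∧ Dle B 2 u v) ∨
    (¬ B.Adj u v ∧ Dle B 6 u v ∧ Near Γ (f u) (f v)))
  symm := ⟨fun u v h => by
    refine ⟨h.1.symm, ?_⟩
    rcases h.2 with h2 | h2 | h2
    · exact Or.inl ⟨h2.1.symm, fun h3 => h2.2 (close_symm h3)⟩
    · exact Or.inr (Or.inl ⟨fun h3 => h2.1 h3.symm, Dle.symm' B h2.2⟩)
    · exact Or.inr (Or.inr ⟨fun h3 => h2.1 h3.symm, Dle.symm' B h2.2.1, near_symm h2.2.2⟩)⟩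
  loopless := ⟨fun _ h => h.1 rfl⟩

/-- Pairs at distance at most `6`. -/
def Six : SimpleGraph V where
  Adj u v := u ≠ v ∧ Dle B 6 u v
  symm := ⟨fun _ _ h => ⟨h.1.symm, Dle.symm' B h.2⟩⟩
  loopless := ⟨fun _ h => h.1 rfl⟩

theorem isBlue_symm {u v : V} (h : IsBlue B H Γ f u v) : IsBlue B H Γ f v u := by
  rcases h with h | h | h | h
  · refine Or.inl ⟨h.1.symm, ?_⟩
    rcases h.2 with h2 | h2
    · exact Or.inl (close_symm h2)
    · exact Or.inr h2.symm
  · exact Or.inr (Or.inl ⟨fun h3 => h.1 h3.symm, Dle.symm' B h.2.1, h.2.2.symm⟩)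
  · refine Or.inr (Or.inr (Or.inl ⟨fun h3 => h.1 h3.symm, fun h3 => h.2.1 (Dle.symm' B h3),
      Dle.symm' B h.2.2.1, ?_⟩))
    rcases h.2.2.2 with h2 | h2
    · exact Or.inl fun h3 => h2 (near_symm h3)
    · exact Or.inr h2.symm
  · exact Or.inr (Or.inr (Or.inr ⟨fun h3 => h.1 h3.symm, fun h3 => h.2.1 (Dle.symm' B h3),
      fun h3 => h.2.2 (near_symm h3)⟩))

theorem costly_le_six : Costly B Γ f ≤ Six B := by
  intro u v h
  refine ⟨h.1, ?_⟩
  rcases h.2 with h2 | h2 | h2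
  · exact Dle.mono' B (by norm_num : 1 ≤ 6) (Dle.of_adj B h2.1)
  · exact Dle.mono' B (by norm_num : 2 ≤ 6) h2.2
  · exact h2.2.1

end

/-- D2.  Red cliques (`R ⊔ B`-adjacent, not blue) have fewer than `k` elements: without `B`-edges
they are `R`-cliques; if `u v` is a `B`-edge in `K`, then for `w ∈ K` not within distance `2` of `u`
or `v` both pairs `wu`, `wv` are red, not `B`, at distance `> 2`, hence `Near`, so `Close (f u)
(f v)` and `uv` is blue.  So all pairs of `K` are at distance `≤ 6` and not heads. -/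
theorem red_clique {V Λ : Type*} [Fintype V] [DecidableEq V] (R B H : SimpleGraph V)
    (Γ : SimpleGraph Λ) (f : V → Λ) (k : ℕ) (hR : R.CliqueFree k)
    (hH : ∀ S : Finset V, S.card = k → (∀ u ∈ S, ∀ v ∈ S, u ≠ v → (Six B).Adj u v) →
        ∃ u ∈ S, ∃ v ∈ S, H.Adj u v) (K : Finset V) (hKc : K.card = k)
    (hK : ∀ u ∈ K, ∀ v ∈ K, u ≠ v → (R ⊔ B).Adj u v ∧ ¬ IsBlue B H Γ f u v) : False := by
  by_cases hB : ∃ u ∈ K, ∃ v ∈ K, B.Adj u v
  · obtain ⟨u, hu, v, hv, huv⟩ := hB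
    -- a vertex far from `u` is near to it
    have key : ∀ w ∈ K, ∀ z ∈ K, ¬ Dle B 2 w z → Near Γ (f w) (f z) := by
      intro w hw z hz hwz
      have hne : w ≠ z := by
        rintro rfl
        exact hwz (Dle.refl' B 2 w)
      have hnB : ¬ B.Adj w z := fun h => hwz (Dle.mono' B (by norm_num : 1 ≤ 2) (Dle.of_adj B h))
      by_contra hN
      apply (hK w hw z hz hne).2
      by_cases h6 : Dle B 6 w z
      · exact Or.inr (Or.inr (Or.inl ⟨hnB, hwz, h6, Or.inl hN⟩))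
      · exact Or.inr (Or.inr (Or.inr ⟨hnB, h6, hN⟩))
    have hball : ∀ w ∈ K, Dle B 2 w u ∨ Dle B 2 w v := by
      intro w hw
      by_contra hcon
      push Not at hcon
      have h1 := key w hw u hu hcon.1
      have h2 := key w hw v hv hcon.2
      exact (hK u hu v hv huv.ne).2 (Or.inl ⟨huv, Or.inl ⟨f w, h1, h2⟩⟩)
    have hball3 : ∀ w ∈ K, Dle B 3 w u := by
      intro w hw
      rcases hball w hw with h | h
      · exact Dle.mono' B (by norm_num : 2 ≤ 3) h
      · exact Dle.trans' B (m := 2) (m' := 1) h (Dle.of_adj B huv.symm)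
    have hsix : ∀ w ∈ K, ∀ z ∈ K, Dle B 6 w z := fun w hw z hz =>
      Dle.trans' B (m := 3) (m' := 3) (hball3 w hw) (Dle.symm' B (hball3 z hz))
    obtain ⟨w, hw, z, hz, hwz⟩ := hH K hKc fun w hw z hz hne => ⟨hne, hsix w hw z hz⟩
    apply (hK w hw z hz hwz.ne).2
    by_cases h1 : B.Adj w z
    · exact Or.inl ⟨h1, Or.inr hwz⟩
    · by_cases h2 : Dle B 2 w z
      · exact Or.inr (Or.inl ⟨h1, h2, hwz⟩)
      · exact Or.inr (Or.inr (Or.inl ⟨h1, h2, hsix w hw z hz, Or.inr hwz⟩))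
  · push Not at hB
    apply hR K
    refine ⟨?_, hKc⟩
    intro u hu v hv hne
    rcases (hK u hu v hv hne).1 with h | h
    · exact h
    · exact absurd h (hB u hu v hv)

open Classical in
/-- D3.  Blue cliques are small.  All costly pairs in `K` are heads (a `Near` non-`B` pair in `K` is
at distance `≤ 6`).  Every nonempty subset of `K` has a vertex of costly degree `≤ 2A` in it
(otherwise `exists_connIn` with `d = 2A + 1` contradicts `hH`), so `exists_indep` gives a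
costly-free `K₁ ⊆ K` with `(2A+1) |K₁| ≥ |K|`.  On `K₁`, `B`-adjacency-or-equality is an
equivalence relation (a `B`-path of length two gives distance `≤ 2`, so the ends are `B`-adjacent),
`B`-edges are `Close`, other pairs are not `Near` (if at distance `≤ 6`: costly; otherwise: red), so
`f` is injective on `K₁` (`f` is proper for `B` and `Near` is reflexive) and `K₁.image f` is
`Good`. -/
theorem blue_clique {V Λ : Type*} [Fintype V] [DecidableEq V] (B H : SimpleGraph V)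
    (Γ : SimpleGraph Λ) (f : V → Λ) (hf : ∀ u v, B.Adj u v → f u ≠ f v) (k A a : ℕ)
    (ha : ∀ L : Finset Λ, Good Γ L → L.card ≤ a)
    (hH : ∀ S : Finset V, S.Nonempty → S.card ≤ k → ConnIn (Costly B Γ f) S →
        2 * A * S.card ≤ ∑ v ∈ S, (S.filter (fun w => (Costly B Γ f).Adj v w)).card →
        ∃ u ∈ S, ∃ v ∈ S, (Costly B Γ f).Adj u v ∧ ¬ H.Adj u v)
    (K : Finset V) (hKc : K.card ≤ k)
    (hK : ∀ u ∈ K, ∀ v ∈ K, u ≠ v → IsBlue B H Γ f u v) : K.card ≤ (2 * A + 1) * a := by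
  by_contra hcon
  push Not at hcon
  -- costly pairs of `K` are heads
  have hcost : ∀ u ∈ K, ∀ v ∈ K, (Costly B Γ f).Adj u v → H.Adj u v := by
    intro u hu v hv huv
    have h6 := (costly_le_six B Γ f huv).2
    rcases hK u hu v hv huv.1 with h | h | h | h
    · rcases huv.2 with h2 | h2 | h2
      · exact h.2.resolve_left h2.2
      · exact absurd h.1 h2.1
      · exact absurd h.1 h2.1
    · exact h.2.2
    · rcases huv.2 with h2 | h2 | h2
      · exact absurd h2.1 h.1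
      · exact absurd h2.2 h.2.1
      · exact h.2.2.2.resolve_left fun h3 => h3 h2.2.2
    · exact absurd h6 h.2.1
  obtain ⟨Q, hQK, hQc, hQ⟩ := MP_e8016c.exists_indep (Costly B Γ f).Adj (2 * A) (a + 1) K (by
    intro A' hA' hne
    by_contra hno
    push Not at hno
    obtain ⟨S, hSA, hSne, hSc, hSd⟩ := exists_connIn (Costly B Γ f) A' hne (2 * A + 1) (by
      intro v hv
      have h0 := hno v hv
      refine Nat.succ_le_of_lt (lt_of_lt_of_le h0 (Finset.card_le_card ?_))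
      intro w hw
      simp only [Finset.mem_filter] at hw ⊢
      refine ⟨hw.1, ?_⟩
      rcases hw.2.2 with h | h
      · exact h
      · exact h.symm)
    have hSK : S ⊆ K := hSA.trans hA'
    obtain ⟨u, hu, v, hv, h1, h2⟩ := hH S hSne ((Finset.card_le_card hSK).trans hKc) hSc (by
      calc 2 * A * S.card = ∑ v ∈ S, 2 * A := by rw [Finset.sum_const, smul_eq_mul, mul_comm]
        _ ≤ ∑ v ∈ S, (S.filter (fun w => (Costly B Γ f).Adj v w)).card :=
          Finset.sum_le_sum fun v hv => (Nat.le_succ _).trans (hSd v hv))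
    exact h2 (hcost u (hSK hu) v (hSK hv) h1)) (by
      have : (2 * A + 1) * (a + 1) = (2 * A + 1) * a + (2 * A + 1) := by ring
      omega)
  -- the pairs of `Q`
  have hpair : ∀ u ∈ Q, ∀ v ∈ Q, u ≠ v →
      (B.Adj u v ∧ Close Γ (f u) (f v)) ∨
        (¬ B.Adj u v ∧ ¬ Dle B 2 u v ∧ ¬ Near Γ (f u) (f v)) := by
    intro u hu v hv hne
    have hnc := hQ u hu v hv hne
    by_cases hB : B.Adj u v
    · left
      refine ⟨hB, ?_⟩
      by_contra hC
      exact hnc ⟨hne, Or.inl ⟨hB, hC⟩⟩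
    · right
      have h2 : ¬ Dle B 2 u v := fun h => hnc ⟨hne, Or.inr (Or.inl ⟨hB, h⟩)⟩
      refine ⟨hB, h2, fun hN => ?_⟩
      have h6 : ¬ Dle B 6 u v := fun h => hnc ⟨hne, Or.inr (Or.inr ⟨hB, h, hN⟩)⟩
      rcases hK u (hQK hu) v (hQK hv) hne with h | h | h | h
      · exact hB h.1
      · exact h2 h.2.1
      · exact h6 h.2.2.1
      · exact h.2.2 hN
  have hinj : Set.InjOn f (Q : Set V) := by
    intro u hu v hv huv
    by_contra hne
    rcases hpair u hu v hv hne with h | h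
    · exact hf u v h.1 huv
    · exact h.2.2 (Or.inl huv)
  have hgood : Good Γ (Q.image f) := by
    refine ⟨fun x y => ∃ u ∈ Q, ∃ v ∈ Q, f u = x ∧ f v = y ∧ (u = v ∨ B.Adj u v), ?_, ?_, ?_, ?_,
      ?_⟩
    · intro x hx
      obtain ⟨u, hu, rfl⟩ := Finset.mem_image.1 hx
      exact ⟨u, hu, u, hu, rfl, rfl, Or.inl rfl⟩
    · rintro x - y - ⟨u, hu, v, hv, rfl, rfl, h⟩
      refine ⟨v, hv, u, hu, rfl, rfl, ?_⟩
      rcases h with h | h
      · exact Or.inl h.symm
      · exact Or.inr h.symm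
    · rintro x - y - z - ⟨u, hu, v, hv, rfl, rfl, h⟩ ⟨v', hv', w, hw, hvv, rfl, h'⟩
      have hvv' : v' = v := hinj hv' hv hvv
      subst hvv'
      refine ⟨u, hu, w, hw, rfl, rfl, ?_⟩
      by_cases huw : u = w
      · exact Or.inl huw
      · right
        rcases h with h | h
        · subst h
          exact h'.resolve_left huw
        · rcases h' with h' | h'
          · subst h'
            exact h
          · rcases hpair u hu w hw huw with h3 | h3
            · exact h3.1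
            · exact absurd (Dle.trans' B (m := 1) (m' := 1) (Dle.of_adj B h) (Dle.of_adj B h'))
                h3.2.1
    · rintro x - y - ⟨u, hu, v, hv, rfl, rfl, h⟩
      rcases h with h | h
      · subst h
        exact close_refl _
      · rcases hpair u hu v hv h.ne with h3 | h3
        · exact h3.2
        · exact absurd h h3.1
    · intro x hx y hy hE
      obtain ⟨u, hu, rfl⟩ := Finset.mem_image.1 hx
      obtain ⟨v, hv, rfl⟩ := Finset.mem_image.1 hy
      have hne : u ≠ v := by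
        rintro rfl
        exact hE ⟨u, hu, u, hu, rfl, rfl, Or.inl rfl⟩
      rcases hpair u hu v hv hne with h3 | h3
      · exact absurd ⟨u, hu, v, hv, rfl, rfl, Or.inr h3.1⟩ hE
      · exact h3.2.2
  have h1 := ha _ hgood
  rw [Finset.card_image_of_injOn hinj, hQc] at h1
  omega

lemma two_mul_pred_pow_le (s : ℕ) (hs : 2 ≤ s) : 2 * (s - 1) ^ s ≤ s ^ s := by
  obtain ⟨t, rfl⟩ : ∃ t, s = t + 1 := ⟨s - 1, by omega⟩
  have ht : 1 ≤ t := by omega
  rw [Nat.add_sub_cancel]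
  -- `(t + 1) ^ (t + 1) ≥ t ^ (t + 1) + (t + 1) t ^ t ≥ 2 t ^ (t + 1)`
  have h1 : ∀ n : ℕ, t ^ (n + 1) + (n + 1) * t ^ n ≤ (t + 1) ^ (n + 1) := by
    intro n
    induction n with
    | zero => simp
    | succ n ih =>
      calc t ^ (n + 1 + 1) + (n + 1 + 1) * t ^ (n + 1)
          = t * (t ^ (n + 1) + (n + 1) * t ^ n) + t ^ (n + 1) := by ring
        _ ≤ t * (t + 1) ^ (n + 1) + (t + 1) ^ (n + 1) :=
          Nat.add_le_add (Nat.mul_le_mul_left _ ih) (Nat.pow_le_pow_left (Nat.le_succ t) _)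
        _ = (t + 1) ^ (n + 1 + 1) := by ring
  have h2 := h1 t
  have h3 : t ^ (t + 1) ≤ (t + 1) * t ^ t := by
    rw [pow_succ, mul_comm]
    exact Nat.mul_le_mul_right _ (Nat.le_succ t)
  linarith

lemma pow_le_two_pow (u : ℕ) (hu : 458 ≤ u) : 2 ^ 85 * u ^ 24 ≤ 2 ^ u := by
  set v : ℕ := u / 48 with hv
  have h1 : u < 48 * (v + 1) := by
    rw [hv]
    omega
  have h2 : v + 1 ≤ 2 ^ v := Nat.lt_two_pow_self
  have h3 : u ≤ 2 ^ (6 + v) := by
    calc u ≤ 48 * (v + 1) := h1.le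
      _ ≤ 2 ^ 6 * 2 ^ v := Nat.mul_le_mul (by norm_num) h2
      _ = 2 ^ (6 + v) := by rw [pow_add]
  calc 2 ^ 85 * u ^ 24 ≤ 2 ^ 85 * (2 ^ (6 + v)) ^ 24 :=
        Nat.mul_le_mul_left _ (Nat.pow_le_pow_left h3 _)
    _ = 2 ^ (85 + (6 + v) * 24) := by rw [← pow_mul, ← pow_add]
    _ ≤ 2 ^ u := by
      apply Nat.pow_le_pow_right (by norm_num)
      have h4 : 48 * v ≤ u := by
        rw [hv]
        omega
      omega

/-- D4 (numerical part). -/
theorem numeric_heads (k : ℕ) (hk : 2 ^ 60 ≤ k) :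
    8 * k * (k ^ 2) ^ 6 ≤ (Nat.sqrt k) ^ 27 ∧
    2 * (2 * (k ^ 2) ^ 6) ^ k * (Nat.sqrt k - 1) ^ (k * (k - 1) / 2) ≤
      (Nat.sqrt k) ^ (k * (k - 1) / 2) := by
  set s : ℕ := Nat.sqrt k with hs
  have hs1 : s * s ≤ k := Nat.sqrt_le k
  have hs2 : k < (s + 1) * (s + 1) := Nat.lt_succ_sqrt k
  have hs3 : 2 ^ 30 ≤ s := by
    rw [hs, Nat.le_sqrt]
    exact le_trans (by norm_num) hk
  have hks : k ≤ 2 * (s * s) := by nlinarith
  have hk12 : (k ^ 2) ^ 6 ≤ 2 ^ 12 * s ^ 24 := by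
    calc (k ^ 2) ^ 6 = k ^ 12 := by rw [← pow_mul]
      _ ≤ (2 * (s * s)) ^ 12 := Nat.pow_le_pow_left hks _
      _ = 2 ^ 12 * s ^ 24 := by ring
  constructor
  · calc 8 * k * (k ^ 2) ^ 6 ≤ 8 * (2 * (s * s)) * (2 ^ 12 * s ^ 24) :=
          Nat.mul_le_mul (Nat.mul_le_mul_left _ hks) hk12
      _ = 2 ^ 16 * s ^ 26 := by ring
      _ ≤ s * s ^ 26 := Nat.mul_le_mul_right _ (le_trans (by norm_num) hs3)
      _ = s ^ 27 := by ring
  · set u : ℕ := s / 4 with hu
    have hu1 : 458 ≤ u := by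
      rw [hu]
      omega
    have hsu : s ≤ 8 * u := by
      rw [hu]
      omega
    have hus : 4 * u ≤ s := by
      rw [hu]
      omega
    have h1 : 2 * (k ^ 2) ^ 6 ≤ 2 ^ u := by
      calc 2 * (k ^ 2) ^ 6 ≤ 2 * (2 ^ 12 * s ^ 24) := Nat.mul_le_mul_left _ hk12
        _ ≤ 2 * (2 ^ 12 * (8 * u) ^ 24) :=
          Nat.mul_le_mul_left _ (Nat.mul_le_mul_left _ (Nat.pow_le_pow_left hsu _))
        _ = 2 ^ 85 * u ^ 24 := by ring
        _ ≤ 2 ^ u := pow_le_two_pow u hu1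
    set E : ℕ := k * (k - 1) / 2 with hE
    have hM : s * (u * k + 1) ≤ E := by
      rw [hE, Nat.le_div_iff_mul_le (by norm_num)]
      have h2 : 4 * (s * u) ≤ k := by nlinarith
      have h3 : s ≤ k := by nlinarith
      obtain ⟨j, hj⟩ : ∃ j, k = j + 1 := ⟨k - 1, by omega⟩
      have h5 : 2 ^ 30 ≤ k := le_trans (by norm_num) hk
      have h6 : k * (k - 1) + k = k * k := by
        rw [hj, Nat.add_sub_cancel]
        ring
      have h7 : 4 * (s * u) * k ≤ k * k := Nat.mul_le_mul_right _ h2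
      have h8 : 8 * k ≤ k * k := Nat.mul_le_mul_right _ (le_trans (by norm_num) h5)
      nlinarith
    calc 2 * (2 * (k ^ 2) ^ 6) ^ k * (s - 1) ^ E
        ≤ 2 * (2 ^ u) ^ k * (s - 1) ^ E :=
          Nat.mul_le_mul_right _ (Nat.mul_le_mul_left _ (Nat.pow_le_pow_left h1 _))
      _ = 2 ^ (u * k + 1) * (s - 1) ^ E := by rw [← pow_mul, pow_succ, mul_comm 2]
      _ = (2 * (s - 1) ^ s) ^ (u * k + 1) * (s - 1) ^ (E - s * (u * k + 1)) := by
        rw [mul_pow, ← pow_mul, mul_assoc, ← pow_add, Nat.add_sub_cancel' hM]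
      _ ≤ (s ^ s) ^ (u * k + 1) * s ^ (E - s * (u * k + 1)) :=
        Nat.mul_le_mul (Nat.pow_le_pow_left (two_mul_pred_pow_le s (le_trans (by norm_num) hs3)) _)
          (Nat.pow_le_pow_left (Nat.sub_le _ _) _)
      _ = s ^ E := by rw [← pow_mul, ← pow_add, Nat.add_sub_cancel' hM]

/-- D4.  The recolouring lemma. -/
theorem recolorTheta (k D : ℕ) (hk : 2 ^ 60 ≤ k) (hD : D + 1 ≤ k ^ 2) {Λ : Type*} [Fintype Λ]
    (Γ : SimpleGraph Λ) (hΛ : D + 1 ≤ Fintype.card Λ) (a : ℕ)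
    (ha : ∀ L : Finset Λ, Good Γ L → L.card ≤ a) (hka : 55 * a + 3 ≤ k)
    {V : Type*} [Fintype V] (R B : SimpleGraph V) (hR : R.CliqueFree k)
    (hB : ∀ v, Set.ncard {w | B.Adj v w} ≤ D) :
    ∃ Red : SimpleGraph V, Red ≤ R ⊔ B ∧ Red.CliqueFree k ∧
      ((R ⊔ B) \ Red).CliqueFree (k - 2) := by
  classical
  have hB' : ∀ v, (univ.filter (fun w => B.Adj v w)).card ≤ D := by
    intro v
    have h1 := hB v
    rw [Set.ncard_eq_toFinset_card'] at h1
    refine le_trans (le_of_eq ?_) h1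
    congr 1
    ext w
    simp
  obtain ⟨f, hf⟩ := exists_proper B D hB' hΛ
  have hk2 : 2 ≤ k := le_trans (by norm_num) hk
  have hΔ : ∀ v, (univ.filter (fun w => (Six B).Adj v w)).card ≤ (k ^ 2) ^ 6 := by
    intro v
    refine le_trans (Finset.card_le_card ?_)
      ((card_dle_le B D hB' 6 v).trans (Nat.pow_le_pow_left hD 6))
    intro w hw
    simp only [Finset.mem_filter, Finset.mem_univ, true_and] at hw ⊢
    exact hw.2
  obtain ⟨hn1, hn2⟩ := numeric_heads k hk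
  obtain ⟨H, hH1, hH2⟩ := exists_heads (Six B) (Costly B Γ f) (costly_le_six B Γ f) ((k ^ 2) ^ 6) k
    (Nat.sqrt k) 27 hΔ (Nat.one_le_pow _ _ (by positivity)) hk2 (by
      rw [Nat.le_sqrt]
      exact le_trans (by norm_num) hk) (by norm_num) hn1 hn2
  let Red : SimpleGraph V :=
    { Adj := fun u v => (R ⊔ B).Adj u v ∧ ¬ IsBlue B H Γ f u v
      symm := ⟨fun u v h => ⟨h.1.symm, fun h2 => h.2 (isBlue_symm B H Γ f h2)⟩⟩
      loopless := ⟨fun u h => (R ⊔ B).loopless.irrefl u h.1⟩ }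
  refine ⟨Red, fun u v h => h.1, ?_, ?_⟩
  · rintro K ⟨hKc, hKk⟩
    exact red_clique R B H Γ f k hR hH2 K hKk fun u hu v hv hne => hKc hu hv hne
  · rintro K ⟨hKc, hKk⟩
    have h1 := blue_clique B H Γ f hf k 27 a ha hH1 K (by omega) (by
      intro u hu v hv hne
      have h2 := hKc hu hv hne
      rw [SimpleGraph.sdiff_adj] at h2
      by_contra h3
      exact h2.2 ⟨h2.1, h3⟩)
    omega

end Pool.Agent.Lib.MP_e8016c_th
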