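import Mathlib
import Pool.Agent.Lib.MP_e8016c.Upper

/-!
# Row U1: `g(k) ≤ k² - 3`

The pattern lemma `hasMono_pattern` of `Lib/MP_e8016c/Upper.lean` with `g = k² - 2`,
`k = m + 2` (tiles `0, …, m`).  `e` = red inside a tile, `M a b` = red between label `a` of a lower
tile and label `b` of a higher tile.  Assume no monochromatic clique of size `m + 2 = k`.

`D = {a : M a a}`.  For `a ∈ D`, `b ≠ a`: `e a b → ¬ M a b ∧ ¬ M b a` (otherwise `a` in all `k-1`
tiles and `b` in the last/first one).  For `z ∈ D`: `N⁺ z = {b ≠ z : M z b}` together with `z` is an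
`e`-blue clique (`z` in tiles `0..m-1`, two red-adjacent members of `N⁺ z ∪ {z}` in tile `m`), so
`#N⁺ z ≤ k - 2` (all labels `b`, not only `b ∈ D`).
Bound 1: `#D ≤ (k-1)²`: otherwise choose greedily `l_1, …, l_k ∈ D` with `¬ M l_i l_j` for `i < j`;
by induction on `j - i`: `e l_i l_j` and `¬ M l_j l_i` (if `¬ e l_i l_j`: put `l_t` in tile `t` for
`t < i`, in tile `t - 1` for `t > i`, and `l_i` in the tile `j - 1` of `l_j`: blue clique of size
`k`).  Then `l_1, …, l_k` is a red clique in one tile.
Bound 2: by symmetry (`HasMono.compl`) the same for `D' = {a : ¬ M a a}`; if `a ∈ D`, `b ∈ D'` and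
`¬ e a b` then `M a b` (first fact for the complement), i.e. `b ∈ N⁺ a`: at most `k - 2` such `b`
for every `a ∈ D`; dually at most `k - 2` elements `a ∈ D` with `e a b` for each `b ∈ D'`.  If both
`D` and `D'` have at least `2k - 3` elements, double counting on subsets with exactly `2k - 3`
elements gives `(2k-3)² ≤ 2 (k-2)(2k-3)`, a contradiction.  So `g ≤ (k-1)² + 2(k-2) = k² - 3`.
-/

namespace Pool.Agent.Lib.MP_e8016c

namespace U1

open SimpleGraph

variable {m g : ℕ}

theorem not_patRed_lt {e M : Fin g → Fin g → Prop} {x y : Fin (m + 1) × Fin g} (h : x.1 < y.1)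
    (hM : ¬ M x.2 y.2) : ¬ patRed e M x y := by
  rintro (h1 | h1 | h1)
  · exact absurd h1.1 h.ne
  · exact hM h1.2
  · exact absurd h1.1 h.not_gt

theorem not_patRed_gt {e M : Fin g → Fin g → Prop} {x y : Fin (m + 1) × Fin g} (h : y.1 < x.1)
    (hM : ¬ M y.2 x.2) : ¬ patRed e M x y := by
  rintro (h1 | h1 | h1)
  · exact absurd h1.1 h.ne'
  · exact absurd h1.1 h.not_gt
  · exact hM h1.2

theorem not_patRed_eq {e M : Fin g → Fin g → Prop} {x y : Fin (m + 1) × Fin g} (h : x.1 = y.1)
    (hM : ¬ e x.2 y.2) : ¬ patRed e M x y := by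
  rintro (h1 | h1 | h1)
  · exact hM h1.2
  · exact absurd h h1.1.ne
  · exact absurd h h1.1.ne'

/-- Reversing the order of the tiles. -/
theorem HasMono.rev {e M : Fin g → Fin g → Prop} (h : HasMono m e (fun a b => M b a)) :
    HasMono m e M := by
  classical
  let F : Fin (m + 1) × Fin g ↪ Fin (m + 1) × Fin g :=
    ⟨fun x => (Fin.rev x.1, x.2), fun x y hxy => by
      simp only [Prod.mk.injEq, Fin.rev_inj] at hxy
      exact Prod.ext hxy.1 hxy.2⟩
  have hF : ∀ x y, patRed e M (F x) (F y) ↔ patRed e (fun a b => M b a) x y := by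
    intro x y
    show patRed e M (Fin.rev x.1, x.2) (Fin.rev y.1, y.2) ↔ _
    simp only [patRed, Fin.rev_inj, Fin.rev_lt_rev]
    tauto
  obtain ⟨s, hs, h⟩ := h
  refine ⟨s.map F, by rw [Finset.card_map, hs], ?_⟩
  rcases h with h | h
  · left
    intro x hx y hy hxy
    obtain ⟨a, ha, rfl⟩ := Finset.mem_map.1 hx
    obtain ⟨b, hb, rfl⟩ := Finset.mem_map.1 hy
    exact (hF a b).2 (h a ha b hb fun hab => hxy (by rw [hab]))
  · right
    intro x hx y hy hxy
    obtain ⟨a, ha, rfl⟩ := Finset.mem_map.1 hx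
    obtain ⟨b, hb, rfl⟩ := Finset.mem_map.1 hy
    exact fun h' => h a ha b hb (fun hab => hxy (by rw [hab])) ((hF a b).1 h')

section

variable {e M : Fin g → Fin g → Prop} (he : ∀ a b, e a b → e b a) (hno : ¬ HasMono m e M)

include he hno

theorem fact1 {a b : Fin g} (ha : M a a) (hab : a ≠ b) (h : e a b) : ¬ M a b ∧ ¬ M b a := by
  constructor
  · intro h1
    exact hno (hasMono_of_column he a a b ha ha h1 hab h)
  · intro h1
    exact hno (HasMono.rev (hasMono_of_column (M := fun a b => M b a) he a a b ha ha h1 hab h))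

theorem fact2 {z : Fin g} (hz : M z z) [DecidablePred fun b => b = z ∨ M z b] :
    (Finset.univ.filter fun b => b = z ∨ M z b).card ≤ m + 1 := by
  by_contra hcard
  obtain ⟨T, hT, hTc⟩ := Finset.exists_subset_card_eq (show m + 2 ≤ _ from by
    exact Nat.lt_of_not_le hcard)
  have h1 : ∀ b ∈ T, M z b := by
    intro b hb
    have := hT hb
    rw [Finset.mem_filter] at this
    rcases this.2 with rfl | h
    · exact hz
    · exact h
  by_cases hall : ∀ b ∈ T, ∀ c ∈ T, b ≠ c → ¬ e b c
  · exact hno (hasMono_of_tile T hTc (Or.inr hall))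
  push Not at hall
  obtain ⟨b, hb, c, hc, hbc, hebc⟩ := hall
  exact hno (hasMono_of_column he z b c hz (h1 b hb) (h1 c hc) hbc hebc)

theorem greedy (n : ℕ) : ∀ D : Finset (Fin g), (∀ a ∈ D, M a a) → n * (m + 1) < D.card →
    ∃ l : Fin (n + 1) → Fin g, (∀ i, l i ∈ D) ∧ ∀ i j, i < j → ¬ M (l i) (l j) ∧ l i ≠ l j := by
  classical
  induction n with
  | zero =>
    intro D _ hcard
    obtain ⟨a, ha⟩ := Finset.card_pos.1 (lt_of_le_of_lt (Nat.zero_le _) hcard)
    refine ⟨fun _ => a, fun _ => ha, fun i j hij => ?_⟩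
    exact absurd (Subsingleton.elim (α := Fin 1) i j) hij.ne
  | succ n ih =>
    intro D hD hcard
    obtain ⟨a, ha⟩ := Finset.card_pos.1 (lt_of_le_of_lt (Nat.zero_le _) hcard)
    have h2 := fact2 he hno (hD a ha)
    obtain ⟨l, hl, hl'⟩ := ih (D \ Finset.univ.filter fun b => b = a ∨ M a b)
      (fun b hb => hD b (Finset.mem_sdiff.1 hb).1) (by
        have h3 := Finset.le_card_sdiff (Finset.univ.filter fun b => b = a ∨ M a b) D
        have h4 : (n + 1) * (m + 1) = n * (m + 1) + (m + 1) := by ring
        omega)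
    refine ⟨Fin.cons a l, fun i => ?_, fun i j hij => ?_⟩
    · refine Fin.cases ?_ (fun i => ?_) i
      · exact ha
      · rw [Fin.cons_succ]
        exact (Finset.mem_sdiff.1 (hl i)).1
    · obtain ⟨j, rfl⟩ : ∃ j', j = Fin.succ j' :=
        ⟨j.pred (fun h => by rw [h] at hij; exact absurd hij (Fin.not_lt_zero _)), by simp⟩
      rw [Fin.cons_succ]
      revert hij
      refine Fin.cases (fun _ => ?_) (fun i hij => ?_) i
      · rw [Fin.cons_zero]
        have h3 := (Finset.mem_sdiff.1 (hl j)).2
        simp only [Finset.mem_filter, Finset.mem_univ, true_and, not_or] at h3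
        exact ⟨h3.2, fun h => h3.1 h.symm⟩
      · rw [Fin.cons_succ]
        exact hl' i j (Fin.succ_lt_succ_iff.1 hij)

/-- Bound 1. -/
theorem card_diag_le (D : Finset (Fin g)) (hD : ∀ a ∈ D, M a a) :
    D.card ≤ (m + 1) * (m + 1) := by
  classical
  by_contra hcard
  push Not at hcard
  obtain ⟨l, hl, hlM⟩ := greedy he hno (m + 1) D hD hcard
  have hinj : Function.Injective l := by
    intro i j hij
    rcases lt_trichotomy i j with h | h | h
    · exact absurd hij (hlM i j h).2
    · exact h
    · exact absurd hij.symm (hlM j i h).2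
  have key : ∀ d : ℕ, ∀ i j : Fin (m + 2), i < j → (j : ℕ) - i = d →
      e (l i) (l j) ∧ ¬ M (l j) (l i) := by
    intro d
    induction d using Nat.strong_induction_on with
    | _ d ih =>
      intro i j hij hd
      have hij' : (i : ℕ) < j := hij
      have hj : (j : ℕ) < m + 2 := j.2
      have he1 : e (l i) (l j) := by
        by_contra hne
        apply hno
        let ps : Fin (m + 2) → Fin (m + 1) := fun t =>
          if h1 : (t : ℕ) < i then ⟨t, by omega⟩
          else if h2 : (t : ℕ) = i then ⟨j - 1, by omega⟩ else ⟨t - 1, by have := t.2; omega⟩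
        have ps1 : ∀ t : Fin (m + 2), (t : ℕ) < i → (ps t : ℕ) = t := by
          intro t h1; simp only [ps, dif_pos h1]
        have ps2 : ∀ t : Fin (m + 2), (t : ℕ) = i → (ps t : ℕ) = j - 1 := by
          intro t h1
          have h2 : ¬ (t : ℕ) < i := by omega
          simp only [ps, dif_neg h2, dif_pos h1]
        have ps3 : ∀ t : Fin (m + 2), (i : ℕ) < t → (ps t : ℕ) = t - 1 := by
          intro t h1
          have h2 : ¬ (t : ℕ) < i := by omega
          have h3 : ¬ (t : ℕ) = i := by omega
          simp only [ps, dif_neg h2, dif_neg h3]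
        let F : Fin (m + 2) ↪ Fin (m + 1) × Fin g :=
          ⟨fun t => (ps t, l t), fun s t hst => hinj (Prod.ext_iff.1 hst).2⟩
        have hF : ∀ s t : Fin (m + 2), s < t → ¬ patRed e M (F s) (F t) := by
          intro s t hst
          have hst' : (s : ℕ) < t := hst
          rcases lt_trichotomy (s : ℕ) i with hs | hs | hs
          · have h1 := ps1 s hs
            have h2 : (ps s : ℕ) < ps t := by
              rcases lt_trichotomy (t : ℕ) i with h | h | h
              · rw [h1, ps1 t h]; exact hst'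
              · rw [h1, ps2 t h]; omega
              · rw [h1, ps3 t h]; omega
            exact not_patRed_lt h2 (hlM s t hst).1
          · have h1 := ps2 s hs
            have hsi : s = i := Fin.ext hs
            have h2 := ps3 t (by omega)
            rcases lt_trichotomy (t : ℕ) j with h | h | h
            · have h3 : (ps t : ℕ) < ps s := by omega
              have h4 := (ih ((t : ℕ) - i) (by omega) i t (by rw [← hsi]; exact hst) rfl).2
              refine not_patRed_gt h3 ?_
              rw [hsi]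
              exact h4
            · have htj : t = j := Fin.ext h
              refine not_patRed_eq (Fin.ext (by
                show (ps s : ℕ) = ps t
                omega)) ?_
              rw [hsi, htj]
              exact hne
            · exact not_patRed_lt (show (ps s : ℕ) < ps t by omega) (hlM s t hst).1
          · have h1 := ps3 s hs
            have h2 := ps3 t (by omega)
            exact not_patRed_lt (show (ps s : ℕ) < ps t by omega) (hlM s t hst).1
        refine ⟨Finset.univ.map F, by simp, Or.inr ?_⟩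
        intro x hx y hy hxy
        obtain ⟨s, -, rfl⟩ := Finset.mem_map.1 hx
        obtain ⟨t, -, rfl⟩ := Finset.mem_map.1 hy
        rcases lt_trichotomy s t with h | h | h
        · exact hF s t h
        · exact absurd (by rw [h]) hxy
        · exact fun h' => hF t s h (patRed_symm he h')
      exact ⟨he1, (fact1 he hno (hD _ (hl i)) (hlM i j hij).2 he1).2⟩
  refine hno (hasMono_of_tile (Finset.univ.map ⟨l, hinj⟩) (by simp) (Or.inl ?_))
  intro a ha b hb hab
  obtain ⟨i, -, rfl⟩ := Finset.mem_map.1 ha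
  obtain ⟨j, -, rfl⟩ := Finset.mem_map.1 hb
  rcases lt_trichotomy i j with h | h | h
  · exact (key _ i j h rfl).1
  · exact absurd (by rw [h]) hab
  · exact he _ _ (key _ j i h rfl).1

end

end U1

open U1 in
theorem hasMono_pattern_sharp {m g : ℕ} (hm : 2 ≤ m) (e M : Fin g → Fin g → Prop)
    (he : ∀ a b, e a b → e b a) (hg : (m + 2) ^ 2 - 3 < g) : HasMono m e M := by
  classical
  by_contra hno
  have he' : ∀ a b, ¬ e a b → ¬ e b a := fun a b h h' => h (he _ _ h')
  have hno' : ¬ HasMono m (fun a b => ¬ e a b) (fun a b => ¬ M a b) := fun h => hno h.compl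
  set D := Finset.univ.filter (fun a : Fin g => M a a) with hD
  set D' := Finset.univ.filter (fun a : Fin g => ¬ M a a) with hD'
  have hsplit : D.card + D'.card = g := by
    have h := Finset.card_filter_add_card_filter_not (s := (Finset.univ : Finset (Fin g)))
      (fun a => M a a)
    rwa [Finset.card_univ, Fintype.card_fin] at h
  have hDm : ∀ a ∈ D, M a a := fun a ha => (Finset.mem_filter.1 ha).2
  have hDm' : ∀ a ∈ D', ¬ M a a := fun a ha => (Finset.mem_filter.1 ha).2
  have b1 := card_diag_le he hno D hDm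
  have b2 := card_diag_le he' hno' D' hDm'
  have hsmall : D.card ≤ 2 * m ∨ D'.card ≤ 2 * m := by
    by_contra hbig
    push Not at hbig
    obtain ⟨A, hA, hAc⟩ := Finset.exists_subset_card_eq (show 2 * m + 1 ≤ D.card from hbig.1)
    obtain ⟨B, hB, hBc⟩ := Finset.exists_subset_card_eq (show 2 * m + 1 ≤ D'.card from hbig.2)
    have hne : ∀ a ∈ A, ∀ b ∈ B, a ≠ b := by
      rintro a ha b hb rfl
      exact hDm' a (hB hb) (hDm a (hA ha))
    have c1 : ∀ a ∈ A, (B.filter fun b => ¬ e a b).card ≤ m := by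
      intro a ha
      have h1 := fact2 he hno (hDm a (hA ha))
      have h2 : (B.filter fun b => ¬ e a b) ⊆
          (Finset.univ.filter fun b => b = a ∨ M a b).erase a := by
        intro b hb
        rw [Finset.mem_filter] at hb
        have h3 := fact1 he' hno' (hDm' b (hB hb.1)) (hne a ha b hb.1).symm
          (fun h => hb.2 (he _ _ h))
        rw [Finset.mem_erase, Finset.mem_filter]
        exact ⟨(hne a ha b hb.1).symm, Finset.mem_univ _, Or.inr (not_not.1 h3.2)⟩
      have h3 := Finset.card_le_card h2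
      have h4 : a ∈ (Finset.univ.filter fun b => b = a ∨ M a b) :=
        Finset.mem_filter.2 ⟨Finset.mem_univ _, Or.inl rfl⟩
      rw [Finset.card_erase_of_mem h4] at h3
      omega
    have c2 : ∀ b ∈ B, (A.filter fun a => e a b).card ≤ m := by
      intro b hb
      have h1 := fact2 he' hno' (hDm' b (hB hb))
      have h2 : (A.filter fun a => e a b) ⊆
          (Finset.univ.filter fun a => a = b ∨ ¬ M b a).erase b := by
        intro a ha
        rw [Finset.mem_filter] at ha
        have h3 := fact1 he hno (hDm a (hA ha.1)) (hne a ha.1 b hb) ha.2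
        rw [Finset.mem_erase, Finset.mem_filter]
        exact ⟨hne a ha.1 b hb, Finset.mem_univ _, Or.inr h3.2⟩
      have h3 := Finset.card_le_card h2
      have h4 : b ∈ (Finset.univ.filter fun a => a = b ∨ ¬ M b a) :=
        Finset.mem_filter.2 ⟨Finset.mem_univ _, Or.inl rfl⟩
      rw [Finset.card_erase_of_mem h4] at h3
      omega
    have s1 : ∑ a ∈ A, (B.filter fun b => ¬ e a b).card ≤ (2 * m + 1) * m := by
      rw [← hAc, ← smul_eq_mul]
      exact Finset.sum_le_card_nsmul _ _ _ c1
    have s2 : ∑ b ∈ B, (A.filter fun a => e a b).card ≤ (2 * m + 1) * m := by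
      rw [← hBc, ← smul_eq_mul]
      exact Finset.sum_le_card_nsmul _ _ _ c2
    have s3 : ∑ a ∈ A, (B.filter fun b => e a b).card = ∑ b ∈ B, (A.filter fun a => e a b).card :=
      Finset.sum_card_bipartiteAbove_eq_sum_card_bipartiteBelow _
    have s4 : ∑ a ∈ A, ((B.filter fun b => e a b).card + (B.filter fun b => ¬ e a b).card) =
        (2 * m + 1) * (2 * m + 1) := by
      rw [Finset.sum_congr rfl fun a _ =>
        Finset.card_filter_add_card_filter_not (s := B) (fun b => e a b), Finset.sum_const, hAc,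
        hBc, smul_eq_mul]
    rw [Finset.sum_add_distrib] at s4
    nlinarith
  have h1 : (m + 2) ^ 2 - 3 = (m + 1) * (m + 1) + 2 * m := by
    have : (m + 2) ^ 2 = (m + 1) * (m + 1) + 2 * m + 3 := by ring
    omega
  rw [h1] at hg
  rcases hsmall with h | h <;> omega

namespace U1

open SimpleGraph

/-- The blow-up of a suitable Folkman graph arrows `K_{m+2}`, from the pattern lemma. -/
theorem exists_blowup_arrows' (m g : ℕ) (hm : 2 ≤ m)
    (hpat : ∀ e M : Fin g → Fin g → Prop, (∀ a b, e a b → e b a) → HasMono m e M) :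
    ∃ (V : Type) (_ : Finite V) (H : SimpleGraph V), H.CliqueFree (m + 2) ∧
      Arrows (blowup H g) (K (m + 2)) := by
  classical
  let κ : Type := Set (Fin g × Fin g) × Set (Fin g × Fin g) × Set (Fin g × Fin g)
  obtain ⟨V, hV, H, hH, hmono⟩ := folkman_cliques κ (m + 1) (by omega)
  refine ⟨V, hV, H, hH, fun R hR => ?_⟩
  obtain ⟨f, ⟨M, e₁, e₂⟩, hf, hfc'⟩ := hmono (fun u v =>
    ({q | R.Adj (u, q.1) (v, q.2)}, {q | R.Adj (u, q.1) (u, q.2)},
      {q | R.Adj (v, q.1) (v, q.2)}))
  have hfc : ∀ i j : Fin (m + 1), i < j →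
      {q : Fin g × Fin g | R.Adj (f i, q.1) (f j, q.2)} = M ∧
      {q : Fin g × Fin g | R.Adj (f i, q.1) (f i, q.2)} = e₁ ∧
      {q : Fin g × Fin g | R.Adj (f j, q.1) (f j, q.2)} = e₂ := by
    intro i j hij
    have h := hfc' i j hij
    exact ⟨congrArg (fun t : κ => t.1) h, congrArg (fun t : κ => t.2.1) h,
      congrArg (fun t : κ => t.2.2) h⟩
  -- all tiles have the same internal colouring
  have he : ∀ i : Fin (m + 1), {q : Fin g × Fin g | R.Adj (f i, q.1) (f i, q.2)} = e₁ := by
    have h12 : e₁ = e₂ := by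
      have h1 := (hfc ⟨1, by omega⟩ ⟨2, by omega⟩ (by simp)).2.1
      have h2 := (hfc ⟨0, by omega⟩ ⟨1, by omega⟩ (by simp [Fin.lt_def])).2.2
      rw [← h1, ← h2]
    intro i
    by_cases hi : i = Fin.last m
    · subst hi
      rw [h12]
      exact (hfc ⟨0, by omega⟩ (Fin.last m) (by simp [Fin.lt_def]; omega)).2.2
    · exact (hfc i (Fin.last m) (lt_of_le_of_ne (Fin.le_last i) hi)).2.1
  have hMM : ∀ i j : Fin (m + 1), i < j → ∀ a b, R.Adj (f i, a) (f j, b) ↔ (a, b) ∈ M := by
    intro i j hij a b
    rw [← (hfc i j hij).1]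
    rfl
  have hee : ∀ i : Fin (m + 1), ∀ a b, R.Adj (f i, a) (f i, b) ↔ (a, b) ∈ e₁ := by
    intro i a b
    rw [← he i]
    rfl
  have hesymm : ∀ a b : Fin g, (a, b) ∈ e₁ → (b, a) ∈ e₁ := by
    intro a b h
    rw [← hee 0] at h ⊢
    exact h.symm
  obtain ⟨s, hs, hmonoS⟩ := hpat (fun a b => (a, b) ∈ e₁)
    (fun a b => (a, b) ∈ M) hesymm
  have hfinj : Function.Injective f := by
    intro i j hij
    by_contra hne
    exact (hf i j hne).ne hij
  let F : Fin (m + 1) × Fin g ↪ V × Fin g := ⟨fun x => (f x.1, x.2), fun x y h => by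
    simp only [Prod.mk.injEq] at h
    exact Prod.ext (hfinj h.1) h.2⟩
  have hred : ∀ x y : Fin (m + 1) × Fin g, patRed (fun a b => (a, b) ∈ e₁) (fun a b => (a, b) ∈ M)
      x y ↔ R.Adj (F x) (F y) := by
    intro x y
    rcases lt_trichotomy x.1 y.1 with h | h | h
    · simp only [patRed, h.ne, false_and, h, true_and, h.not_gt, false_or, or_false]
      exact (hMM _ _ h _ _).symm
    · simp only [patRed, h, lt_irrefl, false_and, true_and, or_false]
      rw [← hee y.1]
      show _ ↔ R.Adj (f x.1, x.2) (f y.1, y.2)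
      rw [h]
    · simp only [patRed, h.ne', false_and, h, true_and, h.not_gt, false_or]
      rw [← hMM _ _ h]
      exact ⟨fun h => h.symm, fun h => h.symm⟩
  have hGadj : ∀ x y : Fin (m + 1) × Fin g, x ≠ y → (blowup H g).Adj (F x) (F y) := by
    intro x y hxy
    by_cases h : x.1 = y.1
    · right
      refine ⟨by show f x.1 = f y.1; rw [h], fun h2 => hxy (Prod.ext h h2)⟩
    · left
      exact hf _ _ h
  have hcard : (s.map F).card = m + 2 := by rw [Finset.card_map, hs]
  rcases hmonoS with hr | hb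
  · left
    rw [K_isContained_iff]
    intro hfree
    refine hfree (s.map F) ⟨?_, hcard⟩
    intro x hx y hy hxy
    obtain ⟨x', hx', rfl⟩ := Finset.mem_map.1 (Finset.mem_coe.1 hx)
    obtain ⟨y', hy', rfl⟩ := Finset.mem_map.1 (Finset.mem_coe.1 hy)
    exact (hred x' y').1 (hr x' hx' y' hy' (fun h => hxy (by rw [h])))
  · right
    rw [K_isContained_iff]
    intro hfree
    refine hfree (s.map F) ⟨?_, hcard⟩
    intro x hx y hy hxy
    obtain ⟨x', hx', rfl⟩ := Finset.mem_map.1 (Finset.mem_coe.1 hx)
    obtain ⟨y', hy', rfl⟩ := Finset.mem_map.1 (Finset.mem_coe.1 hy)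
    have hne : x' ≠ y' := fun h => hxy (by rw [h])
    rw [SimpleGraph.sdiff_adj]
    exact ⟨hGadj x' y' hne, fun h => hb x' hx' y' hy' hne ((hred x' y').2 h)⟩

end U1

open U1 in
theorem not_ramseyEquiv_sharp (k g : ℕ) (hk : 4 ≤ k) (hg : k ^ 2 - 3 < g) :
    ¬ RamseyEquiv (K k) (KStar k g) := by
  intro hE
  obtain ⟨m, rfl⟩ : ∃ m, k = m + 2 := ⟨k - 2, by omega⟩
  obtain ⟨V, hV, H, hH, hA⟩ := exists_blowup_arrows' m g (by omega)
    fun e M he => hasMono_pattern_sharp (by omega) e M he hg
  exact not_arrows_blowup H (m + 2) g g hH le_rfl ((hE (V × Fin g) (blowup H g)).1 hA)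

end Pool.Agent.Lib.MP_e8016c
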