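import Mathlib
import Pool.Agent.Lib.MP_e8016c.Final
import Pool.Agent.Lib.MP_e8016c_th.UpperSharp
import Pool.Agent.Lib.MP_e8016c_th.OneSide
import Pool.Agent.Lib.MP_e8016c_th.Scheme
import Pool.Agent.Lib.MP_e8016c_th.Labels

/-!
# `g(k) = Θ(k²)`
-/

namespace Pool.Agent.Lib.MP_e8016c_th

open Pool.Agent.Lib.MP_e8016c

theorem gMax_le_sharp (k : ℕ) (hk : 4 ≤ k) : gMax k ≤ k ^ 2 - 3 := by
  by_contra hcon
  push Not at hcon
  exact not_ramseyEquiv_sharp k (gMax k) hk hcon (isGreatest_gMax k hk).1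

theorem num_aux (j D : ℕ) (hj : 100 ≤ j) (h1 : (D + 1) * 16 ≤ (j + 1) ^ 2) :
    2 * (j + 1) + 2 * (D + 1) + 1 ≤ j * j := by
  have h2 : (j + 1) ^ 2 = j * j + 2 * j + 1 := by ring
  have h3 : 100 * j ≤ j * j := Nat.mul_le_mul_right j hj
  omega

/-- With `n = log₂ (k / 2^12)`: `2970 · 2^n ≤ k - 3` and `k² ≤ 2^26 4^n`; `D + 1 = 4^n / 2^79`. -/
theorem gMax_ge_theta (k : ℕ) (hk : 2 ^ 2012 ≤ k) : k ^ 2 ≤ 2 ^ 106 * gMax k := by
  have hk60 : 2 ^ 60 ≤ k := le_trans (Nat.pow_le_pow_right (by norm_num) (by norm_num)) hk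
  have hk4 : 4 ≤ k := le_trans (by norm_num) hk60
  set q := k / 2 ^ 12 with hq
  have hq2000 : 2 ^ 2000 ≤ q := by
    rw [hq, Nat.le_div_iff_mul_le (by norm_num), ← pow_add]
    exact hk
  have hqk : q * 2 ^ 12 ≤ k := Nat.div_mul_le_self _ _
  have hkq : k < (q + 1) * 2 ^ 12 := by
    rw [hq]
    have := Nat.lt_succ_self (k / 2 ^ 12)
    rw [Nat.div_lt_iff_lt_mul (by norm_num)] at this
    exact this
  set n := Nat.log 2 q with hn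
  have hq0 : q ≠ 0 := by
    intro h
    rw [h] at hq2000
    exact absurd hq2000 (Nat.not_le.2 (Nat.pow_pos (by norm_num)))
  have hn2000 : 2000 ≤ n := by
    rw [hn]; exact Nat.le_log_of_pow_le (by norm_num) hq2000
  have hnq : 2 ^ n ≤ q := Nat.pow_log_le_self 2 hq0
  have hqn : q < 2 ^ (n + 1) := Nat.lt_pow_succ_log_self (by norm_num) q
  obtain ⟨Λ, hΛf, Γ, hcard, hgood⟩ := exists_labels n hn2000
  -- the size of the star
  have h79 : (2 : ℕ) ^ 79 ≤ 4 ^ n := by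
    calc (2 : ℕ) ^ 79 ≤ 2 ^ (2 * n) := Nat.pow_le_pow_right (by norm_num) (by omega)
      _ = 4 ^ n := by rw [pow_mul]; norm_num
  obtain ⟨D, hD⟩ : ∃ D, 4 ^ n / 2 ^ 79 = D + 1 := by
    have : 1 ≤ 4 ^ n / 2 ^ 79 := by
      rw [Nat.le_div_iff_mul_le (by positivity), Nat.one_mul]
      exact h79
    exact ⟨4 ^ n / 2 ^ 79 - 1, by omega⟩
  have hDmul : (D + 1) * 2 ^ 79 ≤ 4 ^ n := by rw [← hD]; exact Nat.div_mul_le_self _ _
  have hDΛ : D + 1 ≤ Fintype.card Λ := by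
    have h1 : (D + 1) * 2 ^ 79 ≤ Fintype.card Λ * 2 ^ 79 := by
      calc (D + 1) * 2 ^ 79 ≤ 4 ^ n := hDmul
        _ ≤ 2 ^ 79 * Fintype.card Λ := hcard
        _ = _ := Nat.mul_comm _ _
    exact Nat.le_of_mul_le_mul_right h1 (by positivity)
  have h4n : 4 ^ n = 2 ^ n * 2 ^ n := by rw [← mul_pow]; norm_num
  have h4k : 4 ^ n * 2 ^ 24 ≤ k ^ 2 := by
    calc 4 ^ n * 2 ^ 24 = (2 ^ n * 2 ^ 12) * (2 ^ n * 2 ^ 12) := by rw [h4n]; ring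
      _ ≤ (q * 2 ^ 12) * (q * 2 ^ 12) := by gcongr
      _ ≤ k * k := Nat.mul_le_mul hqk hqk
      _ = k ^ 2 := by ring
  have hDk : D + 1 ≤ k ^ 2 := by
    have h1 : D + 1 ≤ (D + 1) * 2 ^ 79 := Nat.le_mul_of_pos_right _ (by positivity)
    have h2 : 4 ^ n ≤ 4 ^ n * 2 ^ 24 := Nat.le_mul_of_pos_right _ (by positivity)
    omega
  have hka : 55 * (54 * 2 ^ n) + 3 ≤ k := by
    have h1 : 2 ^ n * 2 ^ 12 ≤ k := (Nat.mul_le_mul_right _ hnq).trans hqk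
    have h2 : 1 ≤ 2 ^ n := Nat.one_le_pow _ _ (by norm_num)
    omega
  have hnum : 2 * k + 2 * (D + 1) + 1 ≤ (k - 1) * (k - 1) := by
    have h1 : (D + 1) * 16 ≤ k ^ 2 := by
      have h2 : (D + 1) * 16 ≤ (D + 1) * 2 ^ 79 := Nat.mul_le_mul_left _ (by norm_num)
      have h3 : 4 ^ n ≤ 4 ^ n * 2 ^ 24 := Nat.le_mul_of_pos_right _ (by positivity)
      omega
    obtain ⟨j, rfl⟩ : ∃ j, k = j + 1 := ⟨k - 1, by omega⟩
    rw [Nat.add_sub_cancel]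
    have hj : 100 ≤ j := by
      have : (2 : ℕ) ^ 60 ≤ j + 1 := hk60
      have h2 : (101 : ℕ) ≤ 2 ^ 60 := by norm_num
      omega
    exact num_aux j D hj h1
  have hE : RamseyEquiv (K k) (KStar k (D + 1)) :=
    ramseyEquiv_of_recolor k D hk4 hnum (fun V _ R B hR hB =>
      recolorTheta k D hk60 hDk Γ hDΛ (54 * 2 ^ n) hgood hka R B hR hB)
  have hle : D + 1 ≤ gMax k := (isGreatest_gMax k hk4).2 hE
  have hk2 : k ≤ 2 ^ (n + 1) * 2 ^ 12 := by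
    have h1 : q + 1 ≤ 2 ^ (n + 1) := hqn
    calc k ≤ (q + 1) * 2 ^ 12 := hkq.le
      _ ≤ 2 ^ (n + 1) * 2 ^ 12 := Nat.mul_le_mul_right _ h1
  have h4nD : 4 ^ n ≤ 2 ^ 80 * (D + 1) := by
    have h1 : 4 ^ n < (4 ^ n / 2 ^ 79 + 1) * 2 ^ 79 := by
      rw [← Nat.div_lt_iff_lt_mul (by positivity)]
      exact Nat.lt_succ_self _
    rw [hD] at h1
    calc 4 ^ n ≤ (D + 1 + 1) * 2 ^ 79 := h1.le
      _ ≤ (2 * (D + 1)) * 2 ^ 79 := Nat.mul_le_mul_right _ (by omega)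
      _ = 2 ^ 80 * (D + 1) := by ring
  calc k ^ 2 ≤ (2 ^ (n + 1) * 2 ^ 12) ^ 2 := Nat.pow_le_pow_left hk2 2
    _ = 2 ^ 26 * 4 ^ n := by rw [h4n]; ring
    _ ≤ 2 ^ 26 * (2 ^ 80 * (D + 1)) := Nat.mul_le_mul_left _ h4nD
    _ = 2 ^ 106 * (D + 1) := by ring
    _ ≤ 2 ^ 106 * gMax k := Nat.mul_le_mul_left _ hle

end Pool.Agent.Lib.MP_e8016c_th
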