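import Mathlib
import Pool.Agent.Lib.MP_e8016c_th.GCore

/-!
# Row G2: the random relation `G` on the hubs
-/

namespace Pool.Agent.Lib.MP_e8016c_th

open Finset

open Classical in
/-- G2: `mat`.  Let `v = 4n + 1`.  If a hub-disjoint, pairwise `G`-close `J` has more than `4n`
elements take a subset with exactly `v` elements.  For one of the `3` pairs `i < j` of classes the set
of ordered pairs `(p, p')`, `p ≠ p'`, with `G (i, φ p i) (j, φ p' j)` has at least `v(v-1)/6`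
elements; the hub pairs `s((i, φ p i), (j, φ p' j))` are distinct for distinct `(p, p')`.
`𝓔`: at most `4^(n v) · 3 · 2^(v²)` sets.  Density
`≤ 3 · 2^(2nv + v²) · 2^(-4 v (v-1)) ≤ 2^(-200)`. -/
theorem card_mat_bad (n : ℕ) (hn : 2000 ≤ n) (S : LinSys n) :
    2 ^ 80 * (univ.filter (fun g : Sym2 (Hub n) → Fin (2 ^ 24) =>
      ∃ J ⊆ S.Λ, (∀ p ∈ J, ∀ p' ∈ J, p ≠ p' → ∀ i, S.φ p i ≠ S.φ p' i) ∧
        (∀ p ∈ J, ∀ p' ∈ J, p ≠ p' → ∃ i j, i ≠ j ∧ GRel g (i, S.φ p i) (j, S.φ p' j)) ∧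
        4 * n < J.card)).card ≤ (2 ^ 24) ^ Fintype.card (Sym2 (Hub n)) := by
  refine core_bad n hn S.φ _ fun g hg => ?_
  obtain ⟨J, hJ, hdis, hclose, hlarge⟩ := hg
  obtain ⟨J', hJ', hcard⟩ := Finset.exists_subset_card_eq (show 4 * n + 1 ≤ J.card from hlarge)
  let f0 : Fin (4 * n + 1) ≃ J' := (J'.equivFinOfCardEq hcard).symm
  let f : Fin (4 * n + 1) → Fin (2 ^ n) × Fin (2 ^ n) := fun a => (f0 a).1
  have hf : ∀ a b, f a = f b → a = b := fun a b h => f0.injective (Subtype.ext h)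
  have hfJ : ∀ a, f a ∈ J := fun a => hJ' (f0 a).2
  have hfi : ∀ i a b, S.φ (f a) i = S.φ (f b) i → a = b := by
    intro i a b h
    by_contra hab
    exact hdis _ (hfJ a) _ (hfJ b) (fun h' => hab (hf _ _ h')) i h
  let A : Fin 3 × Fin 3 → Finset (Fin (4 * n + 1) × Fin (4 * n + 1)) := fun ij =>
    univ.filter fun ab => ab.1 ≠ ab.2 ∧ g (hp S.φ f f ij.1 ij.2 ab) = 0
  let D : Finset (Fin 3 × Fin 3) := (univ : Finset (Fin 3)).offDiag
  have hD : D.card = 6 := by rw [Finset.offDiag_card]; rfl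
  have hcov : (univ : Finset (Fin (4 * n + 1))).offDiag ⊆ D.biUnion A := by
    rintro ⟨a, b⟩ hab
    have hab' : a ≠ b := (Finset.mem_offDiag.1 hab).2.2
    obtain ⟨i, j, hij, hG⟩ := hclose _ (hfJ a) _ (hfJ b) (fun h' => hab' (hf _ _ h'))
    refine Finset.mem_biUnion.2 ⟨(i, j), ?_, ?_⟩
    · exact Finset.mem_offDiag.2 ⟨Finset.mem_univ _, Finset.mem_univ _, hij⟩
    · exact Finset.mem_filter.2 ⟨Finset.mem_univ _, hab', hG⟩
  have hsum : (4 * n + 1) * (4 * n) ≤ ∑ ij ∈ D, (A ij).card := by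
    have h1 := (Finset.card_le_card hcov).trans Finset.card_biUnion_le
    rw [Finset.offDiag_card, Finset.card_univ, Fintype.card_fin] at h1
    have h2 : (4 * n + 1) * (4 * n + 1) - (4 * n + 1) = (4 * n + 1) * (4 * n) := by
      rw [Nat.mul_succ, Nat.add_sub_cancel]
    rwa [h2] at h1
  obtain ⟨ij, hij, hA⟩ : ∃ ij ∈ D, (4 * n + 1) * (4 * n) / 6 ≤ (A ij).card := by
    by_contra hcon
    push Not at hcon
    have hne : D.Nonempty := by rw [← Finset.card_pos, hD]; norm_num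
    have h1 := Finset.sum_lt_sum_of_nonempty hne hcon
    rw [Finset.sum_const, hD, smul_eq_mul] at h1
    have h2 := Nat.mul_div_le ((4 * n + 1) * (4 * n)) 6
    omega
  have hne : ij.1 ≠ ij.2 := (Finset.mem_offDiag.1 hij).2.2
  refine ⟨f, f, ij.1, ij.2, A ij, hp_inj _ _ _ hne (fun a b => hfi _ a b)
    (fun a b => hfi _ a b), hA, fun ab hab => ?_⟩
  exact (Finset.mem_filter.1 hab).2.2

end Pool.Agent.Lib.MP_e8016c_th
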